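import Pool.Agent.K7.H84.RD.Pencil

/-!
The sum over the levels and the integral over the parameter of the pencil.
-/

set_option autoImplicit false

open Module MeasureTheory Set

namespace Pool.Agent.K7.H84.RD

/-- the density of the measure `d (C ν ^ g)` -/
noncomputable def dPhi (C g ν : ℝ) : ℝ := C * (g * ν ^ (g - 1))

theorem dPhi_cont {C g : ℝ} (hg : 1 ≤ g) : Continuous (dPhi C g) := by
  unfold dPhi
  refine continuous_const.mul (continuous_const.mul ?_)
  exact Real.continuous_rpow_const (by linarith)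

theorem dPhi_int {C g a b : ℝ} (hg : 1 ≤ g) :
    ∫ ν in a..b, dPhi C g ν = C * (b ^ g - a ^ g) := by
  unfold dPhi
  rw [intervalIntegral.integral_const_mul, intervalIntegral.integral_const_mul,
    integral_rpow (Or.inl (by linarith))]
  have h : g - 1 + 1 = g := by ring
  rw [h]
  have : g ≠ 0 := by linarith
  field_simp

theorem dPhi_int2 {C g a b : ℝ} (hg : 1 ≤ g) (ha : 0 ≤ a) (hb : 0 ≤ b) :
    ∫ ν in a..b, ν * dPhi C g ν = C * (g / (g + 1)) * (b ^ (g + 1) - a ^ (g + 1)) := by
  have h1 : ∫ ν in a..b, ν * dPhi C g ν = ∫ ν in a..b, C * g * ν ^ g := by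
    refine intervalIntegral.integral_congr fun ν hν => ?_
    have hν0 : 0 ≤ ν := by
      rcases le_total a b with h | h
      · rw [uIcc_of_le h] at hν
        exact ha.trans hν.1
      · rw [uIcc_of_ge h] at hν
        exact hb.trans hν.1
    show ν * dPhi C g ν = C * g * ν ^ g
    unfold dPhi
    rcases hν0.eq_or_lt with h0 | h0
    · rw [← h0, Real.zero_rpow (by linarith : g ≠ 0)]
      ring
    · rw [Real.rpow_sub_one h0.ne']
      field_simp
  rw [h1, intervalIntegral.integral_const_mul, integral_rpow (Or.inl (by linarith))]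
  have : g + 1 ≠ 0 := by linarith
  field_simp

/-- a step function against the measure -/
theorem step_int {C g A κ : ℝ} (hC : 0 ≤ C) (hg : 1 ≤ g) (hA : 0 ≤ A) :
    IntervalIntegrable (fun ν => if ν < κ then dPhi C g ν else 0) volume 0 A ∧
    ∫ ν in (0 : ℝ)..A, (if ν < κ then dPhi C g ν else 0) ≤ C * max κ 0 ^ g := by
  have hc := dPhi_cont (C := C) hg
  have hi : ∀ B : ℝ, IntegrableOn (dPhi C g) (Ioc 0 B) := fun B =>
    (hc.integrableOn_Icc (a := 0) (b := B)).mono_set Ioc_subset_Icc_self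
  have e : (fun ν => if ν < κ then dPhi C g ν else 0) = (Iio κ).indicator (dPhi C g) := by
    funext ν
    by_cases h : ν < κ
    · rw [if_pos h, indicator_of_mem (show ν ∈ Iio κ from h)]
    · rw [if_neg h, indicator_of_notMem (show ν ∉ Iio κ from h)]
  rw [e]
  refine ⟨?_, ?_⟩
  · rw [intervalIntegrable_iff_integrableOn_Ioc_of_le hA]
    exact (hi A).indicator measurableSet_Iio
  · rw [intervalIntegral.integral_of_le hA, setIntegral_indicator measurableSet_Iio]
    have h1 : ∫ ν in Ioc 0 (max κ 0), dPhi C g ν = C * max κ 0 ^ g := by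
      rw [← intervalIntegral.integral_of_le (le_max_right _ _), dPhi_int hg,
        Real.zero_rpow (by linarith : g ≠ 0), sub_zero]
    rw [← h1]
    refine setIntegral_mono_set (hi _) ?_ ?_
    · refine (ae_restrict_mem measurableSet_Ioc).mono fun ν hν => ?_
      show 0 ≤ dPhi C g ν
      unfold dPhi
      have := hν.1
      positivity
    · refine LE.le.eventuallyLE ?_
      rintro ν ⟨⟨h2, _⟩, h3⟩
      exact ⟨h2, le_max_of_le_left (le_of_lt h3)⟩

theorem abel {f e : ℕ → ℝ} (hf : ∀ n, f (n + 1) ≤ f n)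
    (he : ∀ n, 0 ≤ ∑ i ∈ Finset.range n, e i) (n : ℕ) :
    f n * ∑ i ∈ Finset.range n, e i ≤ ∑ i ∈ Finset.range n, f i * e i := by
  induction n with
  | zero => simp
  | succ n ih =>
    rw [Finset.sum_range_succ (fun i => f i * e i)]
    have h1 := mul_le_mul_of_nonneg_right (hf n) (he (n + 1))
    rw [Finset.sum_range_succ] at h1 ⊢
    linarith [mul_add (f n) (∑ i ∈ Finset.range n, e i) (e n)]

theorem ii_sum {ι : Type} (s : Finset ι) {f : ι → ℝ → ℝ} {A B : ℝ}
    (h : ∀ i ∈ s, IntervalIntegrable (f i) volume A B) :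
    IntervalIntegrable (fun ν => ∑ i ∈ s, f i ν) volume A B := by
  have h1 := IntervalIntegrable.sum s h
  have h2 : (∑ i ∈ s, f i) = fun ν => ∑ i ∈ s, f i ν := by
    funext ν
    rw [Finset.sum_apply]
  rwa [h2] at h1

section
variable {V : Type} [AddCommGroup V] [Module ℝ V] [FiniteDimensional ℝ V]

/-- **the bound for all levels** -/
theorem levels {ι J : Type} [Fintype ι] [Fintype J] {G0 G1 M : V →ₗ[ℝ] V →ₗ[ℝ] ℝ} (h0 : PosForm G0)
    (h1 : PosForm G1) (hM : ∀ x y, M x y = M y x) {δ : ℝ} (hδ : 0 < δ) {Q : ℕ}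
    (hQ : ∀ x, M x x ≤ δ * Q * G1 x x)
    {b : ℕ → Basis (Fin (finrank ℝ V)) ℝ V} {κ : ℕ → Fin (finrank ℝ V) → ℝ}
    (hb0 : ∀ (q : ℕ) i j, G0 (b q i) (b q j) = if i = j then 1 else 0)
    (hb : ∀ (q : ℕ) i j, (M - (δ * q) • G1) (b q i) (b q j) = if i = j then κ q i else 0)
    {C g : ℝ} (hC : 0 ≤ C) (hg : 1 ≤ g) {mu2 dd a : ℕ → ℝ} (hmu : ∀ l, mu2 l < mu2 (l + 1))
    (ha0 : a 0 = 0) (ha : ∀ l, a l ≤ a (l + 1)) (hdd : ∀ l, dd l = C * (a (l + 1) ^ g - a l ^ g))
    (hcum : ∀ n, C * (g / (g + 1)) * a n ^ (g + 1) ≤ ∑ l ∈ Finset.range n, dd l * mu2 l)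
    {dg : J → ℕ} {L : ℕ} (hL : ∀ j, dg j < L)
    (hmul : ∀ l, ((Finset.univ.filter fun j => dg j = l).card : ℝ) ≤ dd l)
    {x : J → ι → V} (hx : ∀ j, Bessel G1 (x j)) :
    ∑ j, ∑ i, (M - mu2 (dg j) • G0) (x j i) (x j i) ≤
      δ * ∑ q ∈ Finset.range Q, ∑ i, C * max (κ q i) 0 ^ g := by
  have hMs : ∀ l x y, (M - mu2 l • G0) x y = (M - mu2 l • G0) y x := by
    intro l x y
    simp only [LinearMap.sub_apply, LinearMap.smul_apply, hM x y, h0.symm x y]
  choose p c hc1 hc2 hc3 using fun l => exists_max h1 (hMs l)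
  set f : ℕ → ℝ := fun l => ∑ i, (M - mu2 l • G0) (c l i) (c l i) with hf
  set G : ℕ → ℝ := fun l => ∑ i, G0 (c l i) (c l i) with hGd
  have hG0nn : ∀ x, 0 ≤ G0 x x := by
    intro x
    by_cases h : x = 0
    · rw [h]
      simp
    · exact (h0.pos _ h).le
  have hform : ∀ l ν, ∑ i, (M - ν • G0) (c l i) (c l i) = f l - (ν - mu2 l) * G l := by
    intro l ν
    simp only [hf, hGd, LinearMap.sub_apply, LinearMap.smul_apply, smul_eq_mul, Finset.sum_sub_distrib,
      ← Finset.mul_sum]
    ring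
  set F : ℝ → ℝ := fun ν => δ * ∑ q ∈ Finset.range Q, ((Finset.univ.filter fun i => ν < κ q i).card : ℝ)
    with hF
  have hfF : ∀ l ν, 0 ≤ ν → f l - (ν - mu2 l) * G l ≤ F ν := by
    intro l ν hν
    rw [← hform]
    exact pencil_bound h0 h1 hM hδ hQ hb0 hb hν (hc1 l)
  have hGanti : ∀ l, G (l + 1) ≤ G l := by
    intro l
    have e1 := hc3 (l + 1) (Fin (p l)) (c l) (hc1 l)
    have e2 := hc3 l (Fin (p (l + 1))) (c (l + 1)) (hc1 (l + 1))
    rw [hform] at e1 e2
    have e3 : ∑ i, (M - mu2 (l + 1) • G0) (c (l + 1) i) (c (l + 1) i) = f (l + 1) := rfl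
    have e4 : ∑ i, (M - mu2 l • G0) (c l i) (c l i) = f l := rfl
    rw [e3] at e1
    rw [e4] at e2
    have e5 := hmu l
    have e6 : (mu2 (l + 1) - mu2 l) * G (l + 1) ≤ (mu2 (l + 1) - mu2 l) * G l := by linarith
    exact le_of_mul_le_mul_left e6 (by linarith)
  have hGnn : ∀ l, 0 ≤ G l := fun l => Finset.sum_nonneg fun i _ => hG0nn _
  have ha_nn : ∀ l, 0 ≤ a l := by
    intro l
    induction l with
    | zero => rw [ha0]
    | succ l ih => exact ih.trans (ha l)
  -- the first bound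
  have hB1 : ∑ j, ∑ i, (M - mu2 (dg j) • G0) (x j i) (x j i) ≤ ∑ l ∈ Finset.range L, dd l * f l := by
    calc ∑ j, ∑ i, (M - mu2 (dg j) • G0) (x j i) (x j i) ≤ ∑ j, f (dg j) :=
          Finset.sum_le_sum fun j _ => hc3 (dg j) ι (x j) (hx j)
      _ = ∑ l ∈ Finset.range L, ∑ j ∈ Finset.univ.filter (fun j => dg j = l), f (dg j) := by
          rw [Finset.sum_fiberwise_of_maps_to]
          intro j _
          exact Finset.mem_range.2 (hL j)
      _ = ∑ l ∈ Finset.range L, ((Finset.univ.filter fun j => dg j = l).card : ℝ) * f l := by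
          refine Finset.sum_congr rfl fun l _ => ?_
          rw [Finset.sum_congr rfl (g := fun _ => f l)]
          · rw [Finset.sum_const, nsmul_eq_mul]
          · intro j hj
            rw [(Finset.mem_filter.1 hj).2]
      _ ≤ _ := Finset.sum_le_sum fun l _ => mul_le_mul_of_nonneg_right (hmul l) (hc2 l)
  -- the integrals over the levels
  have hII : ∀ l, IntervalIntegrable (fun ν => (f l - (ν - mu2 l) * G l) * dPhi C g ν) volume (a l) (a (l + 1)) := by
    intro l
    refine Continuous.intervalIntegrable ?_ _ _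
    have := dPhi_cont (C := C) hg
    fun_prop
  have hI : ∀ l, ∫ ν in a l..a (l + 1), (f l - (ν - mu2 l) * G l) * dPhi C g ν =
      dd l * f l + G l * (dd l * mu2 l - C * (g / (g + 1)) * (a (l + 1) ^ (g + 1) - a l ^ (g + 1))) := by
    intro l
    have hc := dPhi_cont (C := C) hg
    have e1 : ∀ ν, (f l - (ν - mu2 l) * G l) * dPhi C g ν =
        (f l + mu2 l * G l) * dPhi C g ν - G l * (ν * dPhi C g ν) := fun ν => by ring
    simp only [e1]
    rw [intervalIntegral.integral_sub, intervalIntegral.integral_const_mul,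
      intervalIntegral.integral_const_mul, dPhi_int hg, dPhi_int2 hg (ha_nn _) (ha_nn _), hdd]
    · ring
    · exact (continuous_const.mul hc).intervalIntegrable _ _
    · exact (continuous_const.mul (continuous_id.mul hc)).intervalIntegrable _ _
  have hAbel : 0 ≤ ∑ l ∈ Finset.range L, G l *
      (dd l * mu2 l - C * (g / (g + 1)) * (a (l + 1) ^ (g + 1) - a l ^ (g + 1))) := by
    have he : ∀ n, 0 ≤ ∑ l ∈ Finset.range n,
        (dd l * mu2 l - C * (g / (g + 1)) * (a (l + 1) ^ (g + 1) - a l ^ (g + 1))) := by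
      intro n
      rw [Finset.sum_sub_distrib, ← Finset.mul_sum, Finset.sum_range_sub (fun l => a l ^ (g + 1)), ha0,
        Real.zero_rpow (by linarith : g + 1 ≠ 0), sub_zero]
      linarith [hcum n]
    exact (mul_nonneg (hGnn L) (he L)).trans (abel hGanti he L)
  -- the step functions
  have hFd : ∀ ν, F ν * dPhi C g ν = δ * ∑ q ∈ Finset.range Q, ∑ i, (if ν < κ q i then dPhi C g ν else 0) := by
    intro ν
    simp only [hF]
    rw [mul_assoc, Finset.sum_mul]
    congr 1
    refine Finset.sum_congr rfl fun q _ => ?_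
    rw [Finset.card_filter]
    push_cast
    rw [Finset.sum_mul]
    refine Finset.sum_congr rfl fun i _ => ?_
    split_ifs <;> simp
  have hstep := fun q i => step_int (A := a L) (κ := κ q i) hC hg (ha_nn L)
  have hFi : IntervalIntegrable (fun ν => F ν * dPhi C g ν) volume 0 (a L) := by
    simp only [hFd]
    refine IntervalIntegrable.const_mul ?_ _
    exact ii_sum _ fun q _ => ii_sum _ fun i _ => (hstep q i).1
  have hFint : ∫ ν in (0 : ℝ)..a L, F ν * dPhi C g ν ≤ δ * ∑ q ∈ Finset.range Q, ∑ i, C * max (κ q i) 0 ^ g := by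
    simp only [hFd]
    rw [intervalIntegral.integral_const_mul, intervalIntegral.integral_finsetSum]
    · refine mul_le_mul_of_nonneg_left (Finset.sum_le_sum fun q _ => ?_) hδ.le
      rw [intervalIntegral.integral_finsetSum]
      · exact Finset.sum_le_sum fun i _ => (hstep q i).2
      · exact fun i _ => (hstep q i).1
    · exact fun q _ => ii_sum _ fun i _ => (hstep q i).1
  have hmono : ∀ l n, l ≤ n → a l ≤ a n := fun l n h => monotone_nat_of_le_succ ha h
  have hFil : ∀ l < L, IntervalIntegrable (fun ν => F ν * dPhi C g ν) volume (a l) (a (l + 1)) := by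
    intro l hl
    refine hFi.mono_set ?_
    rw [uIcc_of_le (ha l), uIcc_of_le (ha_nn L)]
    exact Icc_subset_Icc (ha_nn l) (hmono _ _ hl)
  have hsumint : ∑ l ∈ Finset.range L, ∫ ν in a l..a (l + 1), F ν * dPhi C g ν =
      ∫ ν in (0 : ℝ)..a L, F ν * dPhi C g ν := by
    rw [intervalIntegral.sum_integral_adjacent_intervals fun k hk => hFil k hk, ha0]
  refine hB1.trans (le_trans ?_ hFint)
  rw [← hsumint]
  have h2 : ∑ l ∈ Finset.range L, dd l * f l ≤
      ∑ l ∈ Finset.range L, ∫ ν in a l..a (l + 1), (f l - (ν - mu2 l) * G l) * dPhi C g ν := by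
    simp only [hI]
    rw [Finset.sum_add_distrib]
    linarith
  refine h2.trans (Finset.sum_le_sum fun l hl => ?_)
  refine intervalIntegral.integral_mono_on (ha l) (hII l) (hFil l (Finset.mem_range.1 hl)) fun ν hν => ?_
  have hν0 : 0 ≤ ν := (ha_nn l).trans hν.1
  refine mul_le_mul_of_nonneg_right (hfF l ν hν0) ?_
  unfold dPhi
  have : 0 ≤ ν ^ (g - 1) := Real.rpow_nonneg hν0 _
  have : 0 ≤ g := by linarith
  positivity

end

end Pool.Agent.K7.H84.RD
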