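import Pool.Agent.K7.H84.RD.Mean

/-!
From the class to continuously differentiable functions with compact support.
-/

set_option autoImplicit false

open MeasureTheory Set Filter Topology Real Metric MvPolynomial
open scoped ENNReal InnerProductSpace

namespace Pool.Agent.K7.H84.RD

open LTd (pd pd_basic)
open Pool.Agent.K7.H4.LT
open Pool.Agent.R117.RL (E sg sg_pos Kcl)

/-- density of the finite sums `∑ G_j(|y|, z) P_j(y)` with compact support in `y ≠ 0` -/
def Den (k m : ℕ) : Prop :=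
  ∀ f : E (k + 1) × (Fin m → ℝ) → ℝ, ContDiff ℝ 1 f → HasCompactSupport f → ∀ ε : ℝ, 0 < ε →
    ∃ (g : ℕ) (P : Fin g → MvPolynomial (Fin (k + 1)) ℝ) (dg : Fin g → ℕ) (G : Fin g → V m → ℝ),
      (∀ j, P j ∈ HH (k + 1) (dg j)) ∧ (∀ j, PF m (G j)) ∧
      ∫ x, (f x - ∑ j, G j (kap x) * pe (P j) x.1) ^ 2 < ε ∧
      ∫ x, gr (fun x => f x - ∑ j, G j (kap x) * pe (P j) x.1) x < ε

section
variable {k m N : ℕ}

theorem PF.mul {G : V m → ℝ} (h : PF m G) {q : V m → ℝ} (hq : ContDiff ℝ 1 q) :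
    PF m fun v => G v * q v :=
  ⟨h.smooth.mul hq, h.supp.mul_right, (tsupport_mul_subset_left (f := G) (g := q)).trans h.sub⟩

theorem PF.zero_at {G : V m → ℝ} (h : PF m G) {d : ℕ} {x : E d × (Fin m → ℝ)} (hx : x.1 = 0) :
    G (kap x) = 0 :=
  image_eq_zero_of_notMem_tsupport fun h2 => h.ne h2 hx

/-- the expansion in a basis -/
theorem form_ww {g g' L : ℕ} {P : Fin g → MvPolynomial (Fin (k + 1)) ℝ} {dg : Fin g → ℕ}
    (hs : ∀ j < L, ∀ p ∈ HH (k + 1) (0 + j), p = ∑ a, ip (P a) p • P a)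
    {P' : Fin g' → MvPolynomial (Fin (k + 1)) ℝ} {dg' : Fin g' → ℕ}
    (hP' : ∀ j, P' j ∈ HH (k + 1) (dg' j)) (hL : ∀ j, dg' j < L)
    {G' : Fin g' → V m → ℝ} (hG' : ∀ j, PF m (G' j)) :
    ∃ H : Fin g → V m → ℝ, (∀ a, PF m (H a)) ∧
      ∀ x, ∑ j, G' j (kap x) * pe (P' j) x.1 = ww P dg H x := by
  refine ⟨fun a v => ∑ j, ip (P a) (P' j) * (G' j v * v 0 ^ dg a), fun a => ?_, fun x => ?_⟩
  · refine PF.sum (fun j => (hG' j).mul ?_) _
    exact (contDiff_apply ℝ ℝ (0 : Fin (m + 1))).pow (dg a)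
  · unfold ww
    by_cases hx : x.1 = 0
    · have h1 : ∀ j, G' j (kap x) = 0 := fun j => (hG' j).zero_at hx
      simp only [h1, zero_mul, mul_zero, Finset.sum_const_zero]
    · have hn : ‖x.1‖ ≠ 0 := norm_ne_zero_iff.2 hx
      have h5 : ∀ a, pe (P a) x.1 = ‖x.1‖ ^ dg a * yy (P a) (dg a) x.1 := by
        intro a
        unfold yy
        field_simp
      have h6 : ∀ j, pe (P' j) x.1 = ∑ a, ip (P a) (P' j) * (‖x.1‖ ^ dg a * yy (P a) (dg a) x.1) := by
        intro j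
        have h7 := hs (dg' j) (hL j) (P' j) (by rw [zero_add]; exact hP' j)
        conv_lhs => rw [h7, pe_sum]
        refine Finset.sum_congr rfl fun a _ => ?_
        rw [pe_smul, h5]
      simp only [h6, Finset.mul_sum, Finset.sum_mul]
      rw [Finset.sum_comm]
      refine Finset.sum_congr rfl fun a _ => Finset.sum_congr rfl fun j _ => ?_
      rw [kap_zero]
      ring

/-- approximation by the class -/
theorem approx_one (hk : 1 ≤ k) (hD : Den k m) {f : Fin N → E (k + 1) × (Fin m → ℝ) → ℝ}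
    (hf : ∀ i, ContDiff ℝ 1 (f i)) (hs : ∀ i, HasCompactSupport (f i)) {ε : ℝ} (hε : 0 < ε) :
    ∃ (g : ℕ) (P : Fin g → MvPolynomial (Fin (k + 1)) ℝ) (dg : Fin g → ℕ)
      (H : Fin N → Fin g → V m → ℝ), ONF k P dg ∧ (∀ i a, PF m (H i a)) ∧
      ∀ i, ∫ x, (f i x - ww P dg (H i) x) ^ 2 < ε ∧ ∫ x, gr (fun x => f i x - ww P dg (H i) x) x < ε := by
  choose g' P' dg' G' h1 h2 h3 h4 using fun i => hD (f i) (hf i) (hs i) ε hε
  set L : ℕ := (Finset.univ.sup fun i => Finset.univ.sup (dg' i)) + 1 with hL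
  have hLd : ∀ i j, dg' i j < L := fun i j => Nat.lt_succ_of_le
    ((Finset.le_sup (f := dg' i) (Finset.mem_univ j)).trans
      (Finset.le_sup (f := fun i => Finset.univ.sup (dg' i)) (Finset.mem_univ i)))
  obtain ⟨g, P, dg, p1, -, p3, -, -, p6⟩ := family hk 0 L
  choose H q1 q2 using fun i => form_ww (m := m) p6 (dg := dg) (h1 i) (hLd i) (h2 i)
  refine ⟨g, P, dg, H, ⟨p1, p3⟩, q1, fun i => ?_⟩
  have e : (fun x => f i x - ∑ j, G' i j (kap x) * pe (P' i j) x.1) =
      fun x => f i x - ww P dg (H i) x := by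
    funext x
    rw [q2]
  constructor
  · have h := h3 i
    simp only [q2] at h
    exact h
  · have h := h4 i
    rw [e] at h
    exact h

/-- convergence almost everywhere -/
theorem ae_conv {X : Type*} [MeasurableSpace X] {μ : Measure X} {f : X → ℝ} {w : ℕ → X → ℝ}
    (hi : ∀ q, Integrable (fun x => (f x - w q x) ^ 2) μ)
    (hb : ∀ q : ℕ, ∫ x, (f x - w q x) ^ 2 ∂μ ≤ (1 / 2 : ℝ) ^ q) :
    ∀ᵐ x ∂μ, Tendsto (fun q => w q x) atTop (𝓝 (f x)) := by
  have hm : ∀ q, AEMeasurable (fun x => ENNReal.ofReal ((f x - w q x) ^ 2)) μ := fun q =>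
    (hi q).aemeasurable.ennreal_ofReal
  have h1 : ∫⁻ x, ∑' q, ENNReal.ofReal ((f x - w q x) ^ 2) ∂μ ≠ ∞ := by
    rw [lintegral_tsum hm]
    have h2 : ∀ q : ℕ, ∫⁻ x, ENNReal.ofReal ((f x - w q x) ^ 2) ∂μ ≤ ENNReal.ofReal ((1 / 2 : ℝ) ^ q) := by
      intro q
      rw [← ofReal_integral_eq_lintegral_ofReal (hi q) (ae_of_all _ fun x => sq_nonneg _)]
      exact ENNReal.ofReal_le_ofReal (hb q)
    refine ne_top_of_le_ne_top ?_ (ENNReal.tsum_le_tsum h2)
    rw [← ENNReal.ofReal_tsum_of_nonneg (fun q => by positivity)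
      (summable_geometric_of_lt_one (by norm_num) (by norm_num))]
    exact ENNReal.ofReal_ne_top
  have h2 : ∀ᵐ x ∂μ, ∑' q, ENNReal.ofReal ((f x - w q x) ^ 2) < ∞ :=
    ae_lt_top' (AEMeasurable.ennreal_tsum hm) h1
  filter_upwards [h2] with x hx
  have h3 := ENNReal.tendsto_atTop_zero_of_tsum_ne_top hx.ne
  have h4 := (ENNReal.tendsto_toReal ENNReal.zero_ne_top).comp h3
  have h5 : Tendsto (fun q => (f x - w q x) ^ 2) atTop (𝓝 0) := by
    refine h4.congr fun q => ?_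
    exact ENNReal.toReal_ofReal (sq_nonneg _)
  have h6 : Tendsto (fun q => |f x - w q x|) atTop (𝓝 0) := by
    have h7 := h5.sqrt
    rw [Real.sqrt_zero] at h7
    refine h7.congr fun q => ?_
    exact Real.sqrt_sq_eq_abs _
  have h7 : Tendsto (fun q => f x - w q x) atTop (𝓝 0) :=
    (tendsto_zero_iff_abs_tendsto_zero _).2 h6
  have h8 := (tendsto_const_nhds (x := f x)).sub h7
  rw [sub_zero] at h8
  refine h8.congr fun q => ?_
  ring

theorem sq_close (a b : ℝ) {η : ℝ} (hη : 0 < η) : (a - b) ^ 2 ≤ (1 + η) * a ^ 2 + (1 + 1 / η) * b ^ 2 := by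
  have h1 : 0 ≤ (η * a + b) ^ 2 / η := by positivity
  have h2 : (η * a + b) ^ 2 / η = η * a ^ 2 + 2 * a * b + 1 / η * b ^ 2 := by
    field_simp
    ring
  rw [h2] at h1
  nlinarith

theorem cc_sq {f : E (k + 1) × (Fin m → ℝ) → ℝ} (hf : Continuous f) (hs : HasCompactSupport f) :
    Integrable fun x => f x ^ 2 :=
  cc_int (hf.pow 2) (hs.comp_left (g := fun t : ℝ => t ^ 2) (by norm_num))

/-- the Gram matrix of an approximation -/
theorem gram_close {f w : Fin N → E (k + 1) × (Fin m → ℝ) → ℝ}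
    (hf : ∀ i, Continuous (f i) ∧ HasCompactSupport (f i))
    (hw : ∀ i, Continuous (w i) ∧ HasCompactSupport (w i))
    (hg : ∀ c : Fin N → ℝ, ∫ x, (∑ i, c i * f i x) ^ 2 ≤ ∑ i, c i ^ 2) {ε η : ℝ} (hη : 0 < η)
    (hε : ∀ i, ∫ x, (f i x - w i x) ^ 2 ≤ ε) (c : Fin N → ℝ) :
    ∫ x, (∑ i, c i * w i x) ^ 2 ≤ ((1 + η) + (1 + 1 / η) * (N * ε)) * ∑ i, c i ^ 2 := by
  have hsum : ∀ {u : Fin N → E (k + 1) × (Fin m → ℝ) → ℝ},
      (∀ i, Continuous (u i) ∧ HasCompactSupport (u i)) → Integrable fun x => (∑ i, c i * u i x) ^ 2 := by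
    intro u hu
    have h1 : Continuous fun x => ∑ i, c i * u i x :=
      continuous_finsetSum _ fun i _ => continuous_const.mul (hu i).1
    refine cc_sq h1 (HasCompactSupport.intro (K := ⋃ i, tsupport (u i))
      (isCompact_iUnion fun i => (hu i).2) fun x hx => ?_)
    refine Finset.sum_eq_zero fun i _ => ?_
    rw [image_eq_zero_of_notMem_tsupport fun h => hx (mem_iUnion.2 ⟨i, h⟩), mul_zero]
  have hd : ∀ i, Integrable fun x => (f i x - w i x) ^ 2 := fun i =>
    cc_sq ((hf i).1.sub (hw i).1) ((hf i).2.sub (hw i).2)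
  have hds : Integrable fun x => ∑ i, (f i x - w i x) ^ 2 := integrable_finsetSum _ fun i _ => hd i
  calc ∫ x, (∑ i, c i * w i x) ^ 2
      ≤ ∫ x, ((1 + η) * (∑ i, c i * f i x) ^ 2 +
          (1 + 1 / η) * ((∑ i, c i ^ 2) * ∑ i, (f i x - w i x) ^ 2)) := by
        refine integral_mono (hsum hw) (((hsum hf).const_mul _).add ((hds.const_mul _).const_mul _)) fun x => ?_
        have e : ∑ i, c i * w i x = (∑ i, c i * f i x) - ∑ i, c i * (f i x - w i x) := by
          rw [← Finset.sum_sub_distrib]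
          refine Finset.sum_congr rfl fun i _ => ?_
          ring
        show (∑ i, c i * w i x) ^ 2 ≤ (1 + η) * (∑ i, c i * f i x) ^ 2 +
          (1 + 1 / η) * ((∑ i, c i ^ 2) * ∑ i, (f i x - w i x) ^ 2)
        rw [e]
        refine (sq_close _ _ hη).trans ?_
        have h1 : (∑ i, c i * (f i x - w i x)) ^ 2 ≤ (∑ i, c i ^ 2) * ∑ i, (f i x - w i x) ^ 2 :=
          Finset.sum_mul_sq_le_sq_mul_sq _ _ _
        have h2 : 0 ≤ 1 + 1 / η := by positivity
        have h3 := mul_le_mul_of_nonneg_left h1 h2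
        linarith
    _ = (1 + η) * (∫ x, (∑ i, c i * f i x) ^ 2) +
          (1 + 1 / η) * ((∑ i, c i ^ 2) * ∑ i, ∫ x, (f i x - w i x) ^ 2) := by
        rw [integral_add ((hsum hf).const_mul _) ((hds.const_mul _).const_mul _), integral_const_mul,
          integral_const_mul, integral_const_mul, integral_finsetSum _ fun i _ => hd i]
    _ ≤ (1 + η) * (∑ i, c i ^ 2) + (1 + 1 / η) * ((∑ i, c i ^ 2) * (N * ε)) := by
        have hc0 : 0 ≤ ∑ i, c i ^ 2 := Finset.sum_nonneg fun i _ => sq_nonneg _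
        have h1 : ∑ i, ∫ x, (f i x - w i x) ^ 2 ≤ N * ε := by
          refine (Finset.sum_le_sum fun i _ => hε i).trans (le_of_eq ?_)
          rw [Finset.sum_const, Finset.card_univ, Fintype.card_fin, nsmul_eq_mul]
        have h2 := hg c
        gcongr
    _ = _ := by ring

theorem gr_close {f w : E (k + 1) × (Fin m → ℝ) → ℝ} (hf : ContDiff ℝ 1 f) (hw : ContDiff ℝ 1 w)
    {η : ℝ} (hη : 0 < η) (x : E (k + 1) × (Fin m → ℝ)) :
    gr w x ≤ (1 + η) * gr f x + (1 + 1 / η) * gr (fun x => f x - w x) x := by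
  have e : fderiv ℝ (fun x => f x - w x) x = fderiv ℝ f x - fderiv ℝ w x :=
    fderiv_fun_sub (hf.differentiable one_ne_zero x) (hw.differentiable one_ne_zero x)
  have h1 : ∀ h, fderiv ℝ w x h ^ 2 ≤ (1 + η) * fderiv ℝ f x h ^ 2 +
      (1 + 1 / η) * (fderiv ℝ f x h - fderiv ℝ w x h) ^ 2 := by
    intro h
    have h2 := sq_close (fderiv ℝ f x h) (fderiv ℝ f x h - fderiv ℝ w x h) hη
    rwa [sub_sub_cancel] at h2
  unfold gr
  rw [e]
  simp only [sub_apply]
  have h2 : ∑ i : Fin (k + 1), fderiv ℝ w x (EuclideanSpace.single i 1, 0) ^ 2 ≤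
      ∑ i : Fin (k + 1), ((1 + η) * fderiv ℝ f x (EuclideanSpace.single i 1, 0) ^ 2 +
      (1 + 1 / η) * (fderiv ℝ f x (EuclideanSpace.single i 1, 0) -
        fderiv ℝ w x (EuclideanSpace.single i 1, 0)) ^ 2) := Finset.sum_le_sum fun i _ => h1 _
  have h3 : ∑ i : Fin m, fderiv ℝ w x (0, Pi.single i 1) ^ 2 ≤
      ∑ i : Fin m, ((1 + η) * fderiv ℝ f x (0, Pi.single i 1) ^ 2 +
      (1 + 1 / η) * (fderiv ℝ f x (0, Pi.single i 1) -
        fderiv ℝ w x (0, Pi.single i 1)) ^ 2) := Finset.sum_le_sum fun i _ => h1 _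
  rw [Finset.sum_add_distrib, ← Finset.mul_sum, ← Finset.mul_sum] at h2 h3
  linarith

end

section
variable {n m N : ℕ}

theorem KK_pos (n m : ℕ) : 0 < KK n m := by
  have hsg : 0 < sg (n + 3) := sg_pos (by omega)
  have := Pool.Agent.R117.RL.om_pos (n + 3 + m)
  have hK : 0 < Kcl (n + 3 + m) := by
    unfold Kcl
    have h1 : (0 : ℝ) < ((n + 3 + m : ℕ) : ℝ) := by exact_mod_cast (by omega : 0 < n + 3 + m)
    positivity
  unfold KK
  positivity

/-- **the inequality for smooth functions** -/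
theorem cc_phi (hn : 3 ≤ n) (hD : Den (n + 2) m) {f : Fin N → E (n + 2 + 1) × (Fin m → ℝ) → ℝ}
    (hf : ∀ i, ContDiff ℝ 1 (f i)) (hs : ∀ i, HasCompactSupport (f i))
    (hgram : ∀ c : Fin N → ℝ, ∫ x, (∑ i, c i * f i x) ^ 2 ≤ ∑ i, c i ^ 2) :
    Phi (pw n m) f ≤ ENNReal.ofReal ((∑ i, ∫ x, gr (f i) x) / KK n m) := by
  set T := ∑ i, ∫ x, gr (f i) x with hT
  set η : ℕ → ℝ := fun q => 1 / ((q : ℝ) + 1) with hη
  have hη0 : ∀ q, 0 < η q := fun q => by
    simp only [hη]
    positivity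
  set ε : ℕ → ℝ := fun q => min (η q ^ 2 / ((1 + η q) * (N + 1))) ((1 / 2) ^ q) with hε
  have hε0 : ∀ q, 0 < ε q := fun q => by
    have h1 := hη0 q
    exact lt_min (by positivity) (by positivity)
  have happ := fun q => approx_one (by omega) hD hf hs (hε0 q)
  choose g P dg H h1 h2 h3 using happ
  set w : ℕ → Fin N → E (n + 2 + 1) × (Fin m → ℝ) → ℝ := fun q i => ww (P q) (dg q) (H q i) with hw
  have hwc : ∀ q i, ContDiff ℝ 1 (w q i) := fun q i => ww_smooth (h2 q i)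
  have hws : ∀ q i, HasCompactSupport (w q i) := fun q i => ww_supp (h2 q i)
  have hεη : ∀ q, (1 + 1 / η q) * (N * ε q) ≤ η q := by
    intro q
    have h4 := hη0 q
    have h5 : ε q ≤ η q ^ 2 / ((1 + η q) * (N + 1)) := min_le_left _ _
    have h6 : (0 : ℝ) ≤ N := Nat.cast_nonneg N
    calc (1 + 1 / η q) * (N * ε q) ≤ (1 + 1 / η q) * (N * (η q ^ 2 / ((1 + η q) * (N + 1)))) := by gcongr
      _ = η q * (N / (N + 1)) := by
          field_simp
          ring
      _ ≤ η q * 1 := by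
          refine mul_le_mul_of_nonneg_left ?_ h4.le
          rw [div_le_one (by positivity)]
          linarith
      _ = η q := mul_one _
  have hint : ∀ q i, Integrable fun x => (f i x - w q i x) ^ 2 := fun q i =>
    cc_sq ((hf i).continuous.sub (hwc q i).continuous) ((hs i).sub (hws q i))
  -- convergence
  have hlim : ∀ᵐ x, ∀ i, Tendsto (fun q => w q i x) atTop (𝓝 (f i x)) := by
    rw [ae_all_iff]
    intro i
    refine ae_conv (fun q => hint q i) fun q => ?_
    exact ((h3 q i).1.le).trans (min_le_right _ _)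
  -- the Gram matrices
  have hG : ∀ q (c : Fin N → ℝ), ∫ x, (∑ i, c i * w q i x) ^ 2 ≤ (1 + 2 * η q) * ∑ i, c i ^ 2 := by
    intro q c
    refine (gram_close (fun i => ⟨(hf i).continuous, hs i⟩) (fun i => ⟨(hwc q i).continuous, hws q i⟩)
      hgram (hη0 q) (fun i => (h3 q i).1.le) c).trans ?_
    refine mul_le_mul_of_nonneg_right ?_ (Finset.sum_nonneg fun i _ => sq_nonneg _)
    have := hεη q
    linarith
  -- the energies
  have hE : ∀ q, ∑ i, ∫ x, gr (w q i) x ≤ (1 + η q) * T + η q := by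
    intro q
    have h4 : ∀ i, ∫ x, gr (w q i) x ≤ (1 + η q) * (∫ x, gr (f i) x) + (1 + 1 / η q) * ε q := by
      intro i
      have hdi : Integrable (gr fun x => f i x - w q i x) :=
        gr_int ((hf i).sub (hwc q i)) ((hs i).sub (hws q i))
      have h5 : ∫ x, gr (w q i) x ≤ ∫ x, ((1 + η q) * gr (f i) x + (1 + 1 / η q) *
          gr (fun x => f i x - w q i x) x) :=
        integral_mono (gr_int (hwc q i) (hws q i))
          (((gr_int (hf i) (hs i)).const_mul _).add (hdi.const_mul _))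
          fun x => gr_close (hf i) (hwc q i) (hη0 q) x
      rw [integral_add ((gr_int (hf i) (hs i)).const_mul _) (hdi.const_mul _), integral_const_mul,
        integral_const_mul] at h5
      refine h5.trans ?_
      have h6 := (h3 q i).2.le
      have h7 := hη0 q
      gcongr
    refine (Finset.sum_le_sum fun i _ => h4 i).trans ?_
    rw [Finset.sum_add_distrib, ← Finset.mul_sum, Finset.sum_const, Finset.card_univ, Fintype.card_fin,
      nsmul_eq_mul]
    have := hεη q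
    have e : (N : ℝ) * ((1 + 1 / η q) * ε q) = (1 + 1 / η q) * (N * ε q) := by ring
    rw [e]
    linarith
  -- the bounds
  have hKK := KK_pos n m
  have hB : ∀ q, Phi (pw n m) (w q) ≤ ENNReal.ofReal ((1 + 2 * η q) ^ (2 / ((n + 3 + m : ℕ) : ℝ)) *
      ((1 + η q) * T + η q) / KK n m) := by
    intro q
    have h4 := hη0 q
    have h5 := cls_phi hn (h1 q) (h2 q) (C := 1 + 2 * η q) (by positivity) (hG q)
    rw [ENNReal.ofReal_div_of_pos hKK, ENNReal.le_div_iff_mul_le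
      (Or.inl (ENNReal.ofReal_pos.2 hKK).ne') (Or.inl ENNReal.ofReal_ne_top), mul_comm]
    refine h5.trans (ENNReal.ofReal_le_ofReal ?_)
    refine mul_le_mul_of_nonneg_left (hE q) (by positivity)
  refine (phi_fatou (fun q i => (hwc q i).continuous.measurable) hlim (pw_pos n m)).trans ?_
  refine (liminf_le_liminf (Eventually.of_forall hB)).trans (le_of_eq ?_)
  apply Tendsto.liminf_eq
  refine (ENNReal.continuous_ofReal.tendsto _).comp ?_
  have ht : Tendsto η atTop (𝓝 0) := tendsto_one_div_add_atTop_nhds_zero_nat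
  have h6 : Tendsto (fun q => (1 + 2 * η q) ^ (2 / ((n + 3 + m : ℕ) : ℝ)) *
      ((1 + η q) * T + η q) / KK n m) atTop (𝓝 ((1 + 2 * 0) ^ (2 / ((n + 3 + m : ℕ) : ℝ)) *
      ((1 + 0) * T + 0) / KK n m)) := by
    refine Tendsto.div_const (Tendsto.mul ?_ ?_) _
    · refine Tendsto.rpow_const (tendsto_const_nhds.add (ht.const_mul 2)) (Or.inl (by norm_num))
    · exact ((tendsto_const_nhds.add ht).mul_const T).add ht
  have e : (1 + 2 * (0 : ℝ)) ^ (2 / ((n + 3 + m : ℕ) : ℝ)) * ((1 + 0) * T + 0) / KK n m = T / KK n m := by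
    simp
  rw [e] at h6
  exact h6

end

end Pool.Agent.K7.H84.RD
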