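import Pool.Agent.K7.H4.LT.Driver

/-!
Orthonormal harmonic polynomials: squares and tangential gradients on the sphere.
-/

set_option autoImplicit false

open MeasureTheory Set Filter Topology Real Metric MvPolynomial
open scoped ENNReal InnerProductSpace

namespace Pool.Agent.K7.H84.RD

open Pool.Agent.K7.H4.LT
open Pool.Agent.R117.RL (E)

theorem pderiv_hom_zero {k : ℕ} {p : MvPolynomial (Fin (k + 1)) ℝ} (hp : p.IsHomogeneous 0)
    (i : Fin (k + 1)) : pderiv i p = 0 := by
  have h1 : p = C (coeff 0 p) := by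
    ext b
    by_cases hb : b = 0
    · rw [hb, coeff_zero_C]
    · have h2 : b.degree ≠ 0 := by
        intro h3
        exact hb ((Finsupp.degree_eq_zero_iff b).1 h3)
      rw [hp.coeff_eq_zero h2, coeff_C, if_neg (Ne.symm hb)]
  rw [h1, pderiv_C]

theorem yy_deriv_zero {k : ℕ} {p : MvPolynomial (Fin (k + 1)) ℝ} (hp : p.IsHomogeneous 0)
    (ω : Sp k) (i : Fin (k + 1)) : fderiv ℝ (yy p 0) ω (EuclideanSpace.single i 1) = 0 := by
  rw [yy_deriv, pderiv_hom_zero hp, pe_zero]
  simp

section

variable {k g : ℕ} {P : Fin g → MvPolynomial (Fin (k + 1)) ℝ} {dg : Fin g → ℕ}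

/-- an orthonormal family of harmonic polynomials -/
structure ONF (k : ℕ) {g : ℕ} (P : Fin g → MvPolynomial (Fin (k + 1)) ℝ) (dg : Fin g → ℕ) : Prop where
  mem : ∀ a, P a ∈ HH (k + 1) (dg a)
  orth : ∀ a b, ip (P a) (P b) = if a = b then 1 else 0

theorem ONF.grad_int (h : ONF k P dg) (i j : Fin g) :
    ∫ ω : Sp k, ∑ c, fderiv ℝ (yy (P i) (dg i)) ω (EuclideanSpace.single c 1) *
      fderiv ℝ (yy (P j) (dg j)) ω (EuclideanSpace.single c 1) ∂(tau k) =
      if i = j then (dg i : ℝ) * (dg i + k - 1) else 0 := by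
  have ho := h.orth i j
  unfold ip at ho
  by_cases hi : dg i = 0
  · have h1 : ∀ (ω : Sp k) c, fderiv ℝ (yy (P i) (dg i)) ω (EuclideanSpace.single c 1) = 0 := by
      intro ω c
      rw [hi]
      exact yy_deriv_zero (by rw [← hi]; exact (h.mem i).1) ω c
    simp only [h1, zero_mul, Finset.sum_const_zero, integral_zero]
    rw [hi, Nat.cast_zero, zero_mul, ite_self]
  by_cases hj : dg j = 0
  · have h1 : ∀ (ω : Sp k) c, fderiv ℝ (yy (P j) (dg j)) ω (EuclideanSpace.single c 1) = 0 := by
      intro ω c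
      rw [hj]
      exact yy_deriv_zero (by rw [← hj]; exact (h.mem j).1) ω c
    have h2 : i ≠ j := fun h3 => hi (by rw [h3]; exact hj)
    simp only [h1, mul_zero, Finset.sum_const_zero, integral_zero, if_neg h2]
  rw [yy_int (h.mem i).1 (h.mem j).1 (h.mem i).2 (h.mem j).2 (by omega), ho]
  by_cases hij : i = j
  · subst hij
    rw [if_pos rfl, if_pos rfl]
    ring
  · rw [if_neg hij, if_neg hij, mul_zero]

/-- the square of a combination -/
theorem ONF.sq_int (h : ONF k P dg) (a : Fin g → ℝ) :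
    ∫ ω : Sp k, (∑ j, a j * pe (P j) ω) ^ 2 ∂(tau k) = ∑ j, a j ^ 2 := by
  have hi : ∀ i j, Integrable (fun ω : Sp k => (a i * a j) * (pe (P i) ω * pe (P j) ω)) (tau k) := fun i j =>
    (int_sp ((pe_csp _).mul (pe_csp _))).const_mul _
  have e1 : ∀ ω : Sp k, (∑ j, a j * pe (P j) ω) ^ 2 = ∑ i, ∑ j, (a i * a j) * (pe (P i) ω * pe (P j) ω) := by
    intro ω
    rw [pow_two, Finset.sum_mul_sum]
    refine Finset.sum_congr rfl fun i _ => Finset.sum_congr rfl fun j _ => ?_
    ring
  simp only [e1]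
  rw [integral_finsetSum _ fun i _ => integrable_finsetSum _ fun j _ => hi i j]
  refine Finset.sum_congr rfl fun i _ => ?_
  rw [integral_finsetSum _ fun j _ => hi i j]
  have e2 : ∀ j, ∫ ω : Sp k, (a i * a j) * (pe (P i) ω * pe (P j) ω) ∂(tau k) =
      if i = j then a i ^ 2 else 0 := by
    intro j
    have ho := h.orth i j
    unfold ip at ho
    rw [integral_const_mul, ho]
    by_cases hij : i = j
    · subst hij
      rw [if_pos rfl, if_pos rfl]
      ring
    · rw [if_neg hij, if_neg hij, mul_zero]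
  rw [Finset.sum_congr rfl fun j _ => e2 j, Finset.sum_ite_eq, if_pos (Finset.mem_univ i)]

/-- the tangential gradient of a combination -/
theorem ONF.tan (h : ONF k P dg) (a : Fin g → ℝ) :
    ∫ ω : Sp k, tg (fun j => yy (P j) (dg j)) (fun j => (a j : ℂ)) ω ∂(tau k) =
      ∑ j, (dg j : ℝ) * (dg j + k - 1) * a j ^ 2 := by
  have hcd : ∀ (j : Fin g) (i : Fin (k + 1)), Continuous (fun θ : Sp k =>
      fderiv ℝ (yy (P j) (dg j)) θ (EuclideanSpace.single i 1)) := by
    intro j i
    simp only [yy_deriv]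
    refine (pe_csp _).sub ((continuous_const.mul (pe_csp _)).mul ?_)
    exact (EuclideanSpace.proj i : E (k + 1) →L[ℝ] ℝ).continuous.comp continuous_subtype_val
  have e1 : ∀ θ : Sp k, tg (fun j => yy (P j) (dg j)) (fun j => (a j : ℂ)) θ =
      ∑ i, ∑ j, (a i * a j) *
        ∑ c, fderiv ℝ (yy (P i) (dg i)) θ (EuclideanSpace.single c 1) *
          fderiv ℝ (yy (P j) (dg j)) θ (EuclideanSpace.single c 1) := by
    intro θ
    unfold tg
    simp only [norm_sum_sq]
    rw [Finset.sum_comm]
    refine Finset.sum_congr rfl fun i _ => ?_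
    rw [Finset.sum_comm]
    refine Finset.sum_congr rfl fun j _ => ?_
    rw [Finset.mul_sum]
    refine Finset.sum_congr rfl fun c _ => ?_
    congr 1
    simp only [RCLike.star_def, Complex.conj_ofReal]
    rw [← Complex.ofReal_mul, Complex.ofReal_re]
  have hi : ∀ i j, Integrable (fun θ : Sp k => (a i * a j) *
        ∑ c, fderiv ℝ (yy (P i) (dg i)) θ (EuclideanSpace.single c 1) *
          fderiv ℝ (yy (P j) (dg j)) θ (EuclideanSpace.single c 1)) (tau k) := by
    intro i j
    refine Integrable.const_mul (int_sp ?_) _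
    exact continuous_finsetSum _ fun c _ => (hcd i c).mul (hcd j c)
  simp only [e1]
  rw [integral_finsetSum _ fun i _ => integrable_finsetSum _ fun j _ => hi i j]
  refine Finset.sum_congr rfl fun i _ => ?_
  rw [integral_finsetSum _ fun j _ => hi i j]
  have e2 : ∀ j, ∫ θ : Sp k, (a i * a j) *
        ∑ c, fderiv ℝ (yy (P i) (dg i)) θ (EuclideanSpace.single c 1) *
          fderiv ℝ (yy (P j) (dg j)) θ (EuclideanSpace.single c 1) ∂(tau k) =
      if i = j then (dg i : ℝ) * (dg i + k - 1) * a i ^ 2 else 0 := by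
    intro j
    rw [integral_const_mul, h.grad_int]
    by_cases hij : i = j
    · subst hij
      rw [if_pos rfl, if_pos rfl]
      ring
    · rw [if_neg hij, if_neg hij, mul_zero]
  rw [Finset.sum_congr rfl fun j _ => e2 j, Finset.sum_ite_eq, if_pos (Finset.mem_univ i)]

end

end Pool.Agent.K7.H84.RD
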