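import Pool.Agent.K7.H84.RD.Log
import Pool.Agent.K7.H84.RD.Sph

/-!
Functions `∑ G_a(|y|, z) Y_a(y)` with compact support in `y ≠ 0`.
-/

set_option autoImplicit false

open MeasureTheory Set Filter Topology Real Metric MvPolynomial
open scoped ENNReal InnerProductSpace

namespace Pool.Agent.K7.H84.RD

open LTd (pd pd_basic)
open Pool.Agent.K7.H4.LT
open Pool.Agent.R117.RL (E sg sg_pos)

/-- `|∇f|²` -/
noncomputable def gr {d m : ℕ} (f : E d × (Fin m → ℝ) → ℝ) (x : E d × (Fin m → ℝ)) : ℝ :=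
  (∑ i : Fin d, fderiv ℝ f x (EuclideanSpace.single i 1, 0) ^ 2) +
    ∑ j : Fin m, fderiv ℝ f x (0, Pi.single j 1) ^ 2

theorem gr2_real {d m : ℕ} {f : E d × (Fin m → ℝ) → ℝ} {x : E d × (Fin m → ℝ)}
    (hf : DifferentiableAt ℝ f x) : gr2 (fun x => (f x : ℂ)) x = gr f x := by
  have h1 : fderiv ℝ (fun x => (f x : ℂ)) x = Complex.ofRealCLM.comp (fderiv ℝ f x) :=
    (Complex.ofRealCLM.hasFDerivAt.comp x hf.hasFDerivAt).fderiv
  unfold gr2 gr
  rw [h1]
  simp only [ContinuousLinearMap.comp_apply, Complex.ofRealCLM_apply, Complex.norm_real,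
    Real.norm_eq_abs, sq_abs]

section

variable {k m g : ℕ} {P : Fin g → MvPolynomial (Fin (k + 1)) ℝ} {dg : Fin g → ℕ}

theorem kap_succ {d : ℕ} (x : E d × (Fin m → ℝ)) (j : Fin m) : kap x j.succ = x.2 j := rfl

theorem kap_norm {d : ℕ} (x : E d × (Fin m → ℝ)) : ‖x‖ ≤ ‖kap x‖ := by
  rw [Prod.norm_def]
  refine max_le ?_ ?_
  · have h := norm_le_pi_norm (kap x) 0
    rwa [kap_zero, norm_norm] at h
  · refine (pi_norm_le_iff_of_nonneg (norm_nonneg _)).2 fun j => ?_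
    exact norm_le_pi_norm (kap x) j.succ

theorem kap_smooth {d : ℕ} {x : E d × (Fin m → ℝ)} (hx : x.1 ≠ 0) :
    ContDiffAt ℝ 1 (kap (d := d) (m := m)) x := by
  rw [contDiffAt_pi]
  intro i
  refine Fin.cases ?_ (fun j => ?_) i
  · exact contDiffAt_fst.norm ℝ hx
  · exact (contDiff_apply ℝ ℝ j).contDiffAt.comp x contDiffAt_snd

variable {G : V m → ℝ}

theorem PF.ne (h : PF m G) {d : ℕ} {x : E d × (Fin m → ℝ)} (hx : kap x ∈ tsupport G) : x.1 ≠ 0 := by
  have h1 : 0 < kap x 0 := h.sub hx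
  rw [kap_zero] at h1
  exact norm_pos_iff.1 h1

theorem PF.prod_smooth (h : PF m G) {Y : E (k + 1) → ℝ} (hY : ContDiffOn ℝ 1 Y {0}ᶜ) :
    ContDiff ℝ 1 fun x : E (k + 1) × (Fin m → ℝ) => G (kap x) * Y x.1 := by
  rw [contDiff_iff_contDiffAt]
  intro x
  by_cases hx : kap x ∈ tsupport G
  · have hne := h.ne hx
    refine (h.smooth.contDiffAt.comp x (kap_smooth hne)).mul ?_
    exact ((hY.contDiffAt (isOpen_compl_singleton.mem_nhds hne)).comp x contDiffAt_fst)
  · refine (contDiffAt_const (c := (0 : ℝ))).congr_of_eventuallyEq ?_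
    have h1 : ∀ᶠ y : E (k + 1) × (Fin m → ℝ) in 𝓝 x, kap y ∈ (tsupport G)ᶜ :=
      kap_cont.continuousAt.eventually ((isClosed_tsupport G).isOpen_compl.mem_nhds hx)
    filter_upwards [h1] with y hy
    rw [image_eq_zero_of_notMem_tsupport hy, zero_mul]

theorem PF.prod_supp (h : PF m G) (Y : E (k + 1) → ℝ) :
    HasCompactSupport fun x : E (k + 1) × (Fin m → ℝ) => G (kap x) * Y x.1 := by
  obtain ⟨R, hR⟩ := h.supp.isCompact.isBounded.exists_norm_le
  have hK : IsCompact (kap (d := k + 1) (m := m) ⁻¹' tsupport G) := by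
    refine isCompact_of_isClosed_isBounded ((isClosed_tsupport G).preimage kap_cont) ?_
    refine (isBounded_closedBall (x := (0 : E (k + 1) × (Fin m → ℝ))) (r := R)).subset fun x hx => ?_
    rw [mem_closedBall_zero_iff]
    exact (kap_norm x).trans (hR _ hx)
  refine HasCompactSupport.intro hK fun x hx => ?_
  rw [image_eq_zero_of_notMem_tsupport hx, zero_mul]

/-- the function `∑ G_a(|y|, z) Y_a(y)` -/
noncomputable def ww (P : Fin g → MvPolynomial (Fin (k + 1)) ℝ) (dg : Fin g → ℕ) (G : Fin g → V m → ℝ)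
    (x : E (k + 1) × (Fin m → ℝ)) : ℝ := ∑ a, G a (kap x) * yy (P a) (dg a) x.1

variable {H : Fin g → V m → ℝ}

theorem ww_smooth (hG : ∀ a, PF m (H a)) : ContDiff ℝ 1 (ww P dg H) :=
  ContDiff.sum fun a _ => (hG a).prod_smooth (yy_smooth _ _)

theorem ww_supp (hG : ∀ a, PF m (H a)) : HasCompactSupport (ww P dg H) := by
  refine HasCompactSupport.intro (K := ⋃ a, tsupport fun x : E (k + 1) × (Fin m → ℝ) =>
      H a (kap x) * yy (P a) (dg a) x.1) (isCompact_iUnion fun a => (hG a).prod_supp _) fun x hx => ?_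
  refine Finset.sum_eq_zero fun a _ => ?_
  by_contra h
  exact hx (mem_iUnion.2 ⟨a, subset_tsupport _ h⟩)

theorem ww_psi (h : ONF k P dg) (ω : Sp k) {v : V m} (hv : v ∈ HS m) :
    ww P dg H (Psi k m (ω, v)) = ∑ a, H a v * pe (P a) ω := by
  unfold ww
  rw [kap_Psi ω hv]
  refine Finset.sum_congr rfl fun a _ => ?_
  have e : (Psi k m (ω, v)).1 = v 0 • (ω : E (k + 1)) := rfl
  rw [e, yy_homog (h.mem a).1 _ _ hv, yy_sp]

theorem ww_sph (h : ONF k P dg) {v : V m} (hv : v ∈ HS m) :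
    ∫ ω : Sp k, ww P dg H (Psi k m (ω, v)) ^ 2 ∂(tau k) = ∑ a, H a v ^ 2 := by
  simp only [ww_psi h _ hv]
  exact h.sq_int fun a => H a v

/-- Fubini -/
theorem polar_int {F : E (k + 1) × (Fin m → ℝ) → ℝ} (hF : Integrable F) :
    ∫ x, F x = ∫ v, ∫ ω : Sp k, F (Psi k m (ω, v)) ∂(tau k) ∂(nu k m) := by
  rw [mp_integral hF.aestronglyMeasurable, integral_prod_symm _ (mp_integrable hF)]

theorem cc_int {F : E (k + 1) × (Fin m → ℝ) → ℝ} (hF : Continuous F) (hs : HasCompactSupport F) :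
    Integrable F := hF.integrable_of_hasCompactSupport hs

theorem ww_sq (h : ONF k P dg) (hG : ∀ a, PF m (H a)) :
    ∫ x, ww P dg H x ^ 2 = ∫ v, ∑ a, H a v ^ 2 ∂(nu k m) := by
  have hi : Integrable fun x => ww P dg H x ^ 2 :=
    cc_int ((ww_smooth hG).continuous.pow 2) ((ww_supp hG).comp_left (g := fun t : ℝ => t ^ 2) (by norm_num))
  rw [polar_int hi]
  refine integral_congr_ae ((nu_ae k m).mono fun v hv => ?_)
  exact ww_sph h hv

theorem dU_real {G : V m → ℝ} (hG : ContDiff ℝ 1 G) (i : Fin (m + 1)) (v : V m) :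
    dU (fun v => (G v : ℂ)) i v = (pd i G v : ℂ) := by
  have h1 : fderiv ℝ (fun v => (G v : ℂ)) v = Complex.ofRealCLM.comp (fderiv ℝ G v) :=
    (Complex.ofRealCLM.hasFDerivAt.comp v (hG.differentiable one_ne_zero v).hasFDerivAt).fderiv
  unfold dU pd
  rw [h1]
  rfl

theorem gr_psi (h : ONF k P dg) (hG : ∀ a, PF m (H a)) (ω : Sp k) {v : V m} (hv : v ∈ HS m) :
    gr (ww P dg H) (Psi k m (ω, v)) = (∑ a, pd 0 (H a) v * pe (P a) ω) ^ 2 +
      tg (fun a => yy (P a) (dg a)) (fun a => (H a v : ℂ)) ω / v 0 ^ 2 +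
      ∑ i : Fin m, (∑ a, pd i.succ (H a) v * pe (P a) ω) ^ 2 := by
  have hc : ∀ a, ContDiffOn ℝ 1 (fun v => (H a v : ℂ)) (HS m) := fun a =>
    (Complex.ofRealCLM.contDiff.comp (hG a).smooth).contDiffOn
  have h1 := gr2_polar (k := k) (m := m) (G := fun a v => (H a v : ℂ)) hc
    (Y := fun a => yy (P a) (dg a)) (fun a => yy_smooth _ _)
    (fun a t x ht => yy_homog (h.mem a).1 t x ht)
    (u := fun x => (ww P dg H x : ℂ)) (fun x _ => by
      unfold ww
      push_cast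
      rfl) ω hv
  rw [gr2_real ((ww_smooth hG).differentiable one_ne_zero _)] at h1
  rw [h1]
  have e : ∀ i, ‖dU (fun v => ∑ a, (H a v : ℂ) * (yy (P a) (dg a) ω : ℂ)) i v‖ ^ 2 =
      (∑ a, pd i (H a) v * pe (P a) ω) ^ 2 := by
    intro i
    rw [dU_sum hc _ i hv]
    simp only [dU_real (hG _).smooth, yy_sp]
    have e2 : ∑ a, ((pd i (H a) v : ℝ) : ℂ) * ((pe (P a) ω : ℝ) : ℂ) =
        ((∑ a, pd i (H a) v * pe (P a) ω : ℝ) : ℂ) := by
      push_cast
      rfl
    rw [e2, Complex.norm_real, Real.norm_eq_abs, sq_abs]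
  simp only [e]

theorem cont_sum (a : Fin g → ℝ) : Continuous fun ω : Sp k => (∑ j, a j * pe (P j) ω) ^ 2 :=
  (continuous_finsetSum _ fun j _ => continuous_const.mul (pe_csp _)).pow 2

theorem cont_tg (a : Fin g → ℂ) : Continuous fun ω : Sp k => tg (fun j => yy (P j) (dg j)) a ω := by
  unfold tg
  refine continuous_finsetSum _ fun i _ => (Continuous.norm ?_).pow 2
  refine continuous_finsetSum _ fun j _ => continuous_const.mul ?_
  refine Complex.continuous_ofReal.comp ?_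
  simp only [yy_deriv]
  refine (pe_csp _).sub ((continuous_const.mul (pe_csp _)).mul ?_)
  exact (EuclideanSpace.proj i : E (k + 1) →L[ℝ] ℝ).continuous.comp continuous_subtype_val

theorem gr_sph (h : ONF k P dg) (hG : ∀ a, PF m (H a)) {v : V m} (hv : v ∈ HS m) :
    ∫ ω : Sp k, gr (ww P dg H) (Psi k m (ω, v)) ∂(tau k) =
      ∑ a, (pd 0 (H a) v ^ 2 + (dg a : ℝ) * (dg a + k - 1) * (H a v ^ 2 / v 0 ^ 2) +
        ∑ j : Fin m, pd j.succ (H a) v ^ 2) := by
  simp only [gr_psi h hG _ hv]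
  have i1 : Integrable (fun ω : Sp k => (∑ a, pd 0 (H a) v * pe (P a) ω) ^ 2) (tau k) :=
    int_sp (cont_sum _)
  have i2 : Integrable (fun ω : Sp k => tg (fun a => yy (P a) (dg a)) (fun a => (H a v : ℂ)) ω / v 0 ^ 2)
    (tau k) := (int_sp (cont_tg _)).div_const _
  have i3 : ∀ i : Fin m, Integrable (fun ω : Sp k => (∑ a, pd i.succ (H a) v * pe (P a) ω) ^ 2) (tau k) :=
    fun i => int_sp (cont_sum _)
  have i12 : Integrable (fun ω : Sp k => (∑ a, pd 0 (H a) v * pe (P a) ω) ^ 2 +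
      tg (fun a => yy (P a) (dg a)) (fun a => (H a v : ℂ)) ω / v 0 ^ 2) (tau k) := i1.add i2
  rw [integral_add i12 (integrable_finsetSum _ fun i _ => i3 i), integral_add i1 i2,
    integral_finsetSum _ fun i _ => i3 i, integral_div, h.tan, h.sq_int]
  simp only [h.sq_int]
  rw [Finset.sum_add_distrib, Finset.sum_add_distrib, Finset.sum_comm (s := (Finset.univ : Finset (Fin m))),
    Finset.sum_div]
  congr 2
  refine Finset.sum_congr rfl fun a _ => ?_
  ring

theorem gr_cont {f : E (k + 1) × (Fin m → ℝ) → ℝ} (hf : ContDiff ℝ 1 f) : Continuous (gr f) := by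
  have h1 : Continuous (fderiv ℝ f) := hf.continuous_fderiv one_ne_zero
  unfold gr
  exact (continuous_finsetSum _ fun i _ => (h1.clm_apply continuous_const).pow 2).add
    (continuous_finsetSum _ fun i _ => (h1.clm_apply continuous_const).pow 2)

theorem gr_supp {f : E (k + 1) × (Fin m → ℝ) → ℝ} (hf : HasCompactSupport f) : HasCompactSupport (gr f) := by
  have h2 : HasCompactSupport (fderiv ℝ f) := hf.fderiv (𝕜 := ℝ)
  exact h2.comp_left (g := fun L : E (k + 1) × (Fin m → ℝ) →L[ℝ] ℝ =>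
    (∑ i : Fin (k + 1), L (EuclideanSpace.single i 1, 0) ^ 2) + ∑ j : Fin m, L (0, Pi.single j 1) ^ 2) (by simp)

theorem gr_int {f : E (k + 1) × (Fin m → ℝ) → ℝ} (hf : ContDiff ℝ 1 f) (hs : HasCompactSupport f) :
    Integrable (gr f) := cc_int (gr_cont hf) (gr_supp hs)

end

end Pool.Agent.K7.H84.RD
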