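import Pool.Agent.K7.H84.RD.Kin
import Pool.Agent.K7.H84.RD.Tran

/-!
The kinetic inequality for finite sums `∑ G_a(|y|, z) Y_a(y)` with compact support in `y ≠ 0`.
-/

set_option autoImplicit false

open MeasureTheory Set Filter Topology Real Metric MvPolynomial
open scoped ENNReal InnerProductSpace

namespace Pool.Agent.K7.H84.RD

open LTd (pd pd_basic)
open Pool.Agent.K7.H4.LT
open Pool.Agent.R117.RL (E sg sg_pos Kcl)

theorem ip_lin {k g : ℕ} {P : Fin g → MvPolynomial (Fin (k + 1)) ℝ} (c : Fin g → ℝ)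
    (q : MvPolynomial (Fin (k + 1)) ℝ) : ip (∑ a, c a • P a) q = ∑ a, c a * ip (P a) q := by
  rw [ip_sum]
  refine Finset.sum_congr rfl fun a _ => ?_
  rw [ip_smul]

/-- the multiplicities -/
theorem ONF.mult {n g : ℕ} {P : Fin g → MvPolynomial (Fin (n + 2 + 1)) ℝ} {dg : Fin g → ℕ}
    (h : ONF (n + 2) P dg) (l : ℕ) : ((Finset.univ.filter fun j => dg j = l).card : ℝ) ≤ dd n l := by
  refine le_trans ?_ (finrank_le n l)
  have hmem : ∀ a : {a : Fin g // dg a = l}, P a.1 ∈ HH (n + 2 + 1) l := by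
    rintro ⟨a, ha⟩
    subst ha
    exact h.mem a
  have hli : LinearIndependent ℝ fun a : {a : Fin g // dg a = l} =>
      (⟨P a.1, hmem a⟩ : HH (n + 2 + 1) l) := by
    rw [Fintype.linearIndependent_iff]
    intro c hc b
    have h1 : ∑ a : {a : Fin g // dg a = l}, c a • P a.1 = 0 := by
      have h2 := congrArg Subtype.val hc
      rw [Submodule.coe_sum] at h2
      exact h2
    have h2 : ip (∑ a : {a : Fin g // dg a = l}, c a • P a.1) (P b.1) = c b := by
      rw [ip_sum]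
      simp only [ip_smul, h.orth]
      rw [Finset.sum_eq_single b]
      · simp
      · intro a _ ha
        rw [if_neg (fun h3 => ha (Subtype.ext h3)), mul_zero]
      · simp
    rw [h1, ip_zero] at h2
    exact h2.symm
  have h1 := hli.fintype_card_le_finrank
  rw [Fintype.card_subtype] at h1
  exact_mod_cast h1

section

variable {n m g N : ℕ} {P : Fin g → MvPolynomial (Fin (n + 2 + 1)) ℝ} {dg : Fin g → ℕ}

/-- functions with compact support in the half space form a linear space -/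
theorem PF.sum {G : Fin N → V m → ℝ} (h : ∀ i, PF m (G i)) (c : Fin N → ℝ) :
    PF m fun v => ∑ i, c i * G i v := by
  have hK : IsCompact (⋃ i, tsupport (G i)) := isCompact_iUnion fun i => (h i).supp
  have h0 : ∀ v, v ∉ (⋃ i, tsupport (G i)) → ∑ i, c i * G i v = 0 := by
    intro v hv
    refine Finset.sum_eq_zero fun i _ => ?_
    rw [image_eq_zero_of_notMem_tsupport fun h2 => hv (mem_iUnion.2 ⟨i, h2⟩), mul_zero]
  refine ⟨ContDiff.sum fun i _ => contDiff_const.mul (h i).smooth, HasCompactSupport.intro hK h0, ?_⟩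
  refine (closure_minimal (fun v hv => ?_) hK.isClosed).trans (iUnion_subset fun i => (h i).sub)
  by_contra h2
  exact hv (h0 v h2)

theorem PF.smul {G : V m → ℝ} (h : PF m G) (c : ℝ) : PF m fun v => c * G v := by
  have h1 := PF.sum (N := 1) (G := fun _ => G) (fun _ => h) fun _ => c
  simpa using h1

theorem ww_sum (G : Fin N → Fin g → V m → ℝ) (c : Fin N → ℝ) (x : E (n + 2 + 1) × (Fin m → ℝ)) :
    ∑ i, c i * ww P dg (G i) x = ww P dg (fun a v => ∑ i, c i * G i a v) x := by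
  unfold ww
  simp only [Finset.mul_sum, Finset.sum_mul]
  rw [Finset.sum_comm]
  refine Finset.sum_congr rfl fun a _ => Finset.sum_congr rfl fun i _ => ?_
  ring

theorem PF.sq_int {G : V m → ℝ} (h : PF m G) :
    Integrable (fun v => G v ^ 2) (nu (n + 2) m) ∧
    ∫ v, G v ^ 2 ∂(nu (n + 2) m) = ∫ x, exp (2 * x 0) * vv (((n : ℝ) + 1) / 2) G x ^ 2 := by
  have hm : Measurable fun v => G v ^ 2 := h.smooth.continuous.measurable.pow_const 2
  have h0 : ∀ v ∈ HS m, 0 ≤ G v ^ 2 := fun v _ => sq_nonneg _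
  have hpt : ∀ x : V m, exp ((((n + 2 : ℕ) : ℝ) + 1) * x 0) * G (lgm x) ^ 2 =
      exp (2 * x 0) * vv (((n : ℝ) + 1) / 2) G x ^ 2 := by
    intro x
    unfold vv
    have e : exp ((((n + 2 : ℕ) : ℝ) + 1) * x 0) = exp (2 * x 0) *
        (exp (((n : ℝ) + 1) / 2 * x 0) * exp (((n : ℝ) + 1) / 2 * x 0)) := by
      rw [← Real.exp_add, ← Real.exp_add]
      congr 1
      push_cast
      ring
    rw [e]
    ring
  have hi : Integrable fun x : V m => exp ((((n + 2 : ℕ) : ℝ) + 1) * x 0) * G (lgm x) ^ 2 := by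
    have hv := h.vv_mem (((n : ℝ) + 1) / 2)
    refine (cs_int ce1 ⟨hv.1.continuous, hv.2⟩ ⟨hv.1.continuous, hv.2⟩).congr (ae_of_all _ fun x => ?_)
    show exp (2 * x 0) * (vv (((n : ℝ) + 1) / 2) G x * vv (((n : ℝ) + 1) / 2) G x) =
      exp ((((n + 2 : ℕ) : ℝ) + 1) * x 0) * G (lgm x) ^ 2
    rw [hpt, sq]
  refine ⟨nu_integrable _ hm h0 hi, ?_⟩
  rw [nu_log _ hm h0]
  exact integral_congr_ae (ae_of_all _ hpt)

/-- **the inequality for the class** -/
theorem cls_one (hn : 3 ≤ n) (h : ONF (n + 2) P dg) {G : Fin N → Fin g → V m → ℝ}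
    (hG : ∀ i a, PF m (G i a))
    (hgram : ∀ c : Fin N → ℝ, ∫ x, (∑ i, c i * ww P dg (G i) x) ^ 2 ≤ ∑ i, c i ^ 2) :
    Kcl (n + 3 + m) * (sg (n + 3) * ∫ v, ((∑ i, ∑ a, G i a v ^ 2) / sg (n + 3)) ^
        (1 + 2 / ((n + 3 + m : ℕ) : ℝ)) ∂(nu (n + 2) m)) ≤ ∑ i, ∫ x, gr (ww P dg (G i)) x := by
  have hsg : 0 < sg (n + 3) := sg_pos (by omega)
  have hgram2 : ∀ c : Fin N → ℝ, ∑ a, ∫ x, exp (2 * x 0) *
      (∑ i, c i * vv (((n : ℝ) + 1) / 2) (G i a) x) ^ 2 ≤ ∑ i, c i ^ 2 := by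
    intro c
    refine le_trans (le_of_eq ?_) (hgram c)
    simp only [ww_sum]
    have hPF : ∀ a, PF m fun v => ∑ i, c i * G i a v := fun a => PF.sum (fun i => hG i a) c
    rw [ww_sq h hPF, integral_finsetSum _ fun a _ => (hPF a).sq_int.1]
    refine Finset.sum_congr rfl fun a _ => ?_
    rw [(hPF a).sq_int.2]
    refine integral_congr_ae (ae_of_all _ fun x => ?_)
    show exp (2 * x 0) * (∑ i, c i * vv (((n : ℝ) + 1) / 2) (G i a) x) ^ 2 =
      exp (2 * x 0) * vv (((n : ℝ) + 1) / 2) (fun v => ∑ i, c i * G i a v) x ^ 2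
    congr 2
    unfold vv
    rw [Finset.mul_sum]
    refine Finset.sum_congr rfl fun i _ => ?_
    ring
  have hk := kin (m := m) hn (dg := dg) (fun l => h.mult l)
    (v := fun a i => vv (((n : ℝ) + 1) / 2) (G i a)) (fun a i => (hG i a).vv_mem _) hgram2
  refine le_trans (le_of_eq ?_) (hk.trans (le_of_eq ?_))
  · congr 2
    have hm : Measurable fun v : V m => ((∑ i, ∑ a, G i a v ^ 2) / sg (n + 3)) ^
        (1 + 2 / ((n + 3 + m : ℕ) : ℝ)) := by
      refine Measurable.pow_const ((Finset.measurable_fun_sum _ fun i _ =>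
        Finset.measurable_fun_sum _ fun a _ => ?_).div_const _) _
      exact (hG i a).smooth.continuous.measurable.pow_const 2
    rw [nu_log _ hm]
    · refine integral_congr_ae (ae_of_all _ fun x => ?_)
      show exp ((((n + 2 : ℕ) : ℝ) + 1) * x 0) * _ = exp (((n : ℝ) + 3) * x 0) * _
      have e1 : (((n + 2 : ℕ) : ℝ) + 1) = (n : ℝ) + 3 := by push_cast; ring
      rw [e1]
      congr 3
      rw [Finset.sum_comm, Finset.mul_sum]
      refine Finset.sum_congr rfl fun a _ => ?_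
      rw [Finset.mul_sum]
      refine Finset.sum_congr rfl fun i _ => ?_
      unfold vv
      have e2 : exp (-(((n : ℝ) + 1) * x 0)) * (exp (((n : ℝ) + 1) / 2 * x 0) *
          exp (((n : ℝ) + 1) / 2 * x 0)) = 1 := by
        rw [← Real.exp_add, ← Real.exp_add, ← Real.exp_zero]
        congr 1
        ring
      linear_combination -(G i a (lgm x) ^ 2) * e2
    · intro v _
      exact Real.rpow_nonneg (div_nonneg (Finset.sum_nonneg fun i _ => Finset.sum_nonneg fun a _ =>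
        sq_nonneg _) hsg.le) _
  · rw [Finset.sum_comm]
    refine Finset.sum_congr rfl fun i _ => ?_
    have hl : ∀ a, (0 : ℝ) ≤ (dg a : ℝ) * (dg a + ((n + 2 : ℕ) : ℝ) - 1) := by
      intro a
      have h1 : (0 : ℝ) ≤ (dg a : ℝ) := Nat.cast_nonneg _
      have h2 : (0 : ℝ) ≤ (n : ℝ) := Nat.cast_nonneg _
      push_cast
      have : (0 : ℝ) ≤ (dg a : ℝ) + (n + 2) - 1 := by linarith
      positivity
    have e1 : ∫ x, gr (ww P dg (G i)) x = ∫ v, ∑ a, (pd 0 (G i a) v ^ 2 +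
        (dg a : ℝ) * (dg a + ((n + 2 : ℕ) : ℝ) - 1) * (G i a v ^ 2 / v 0 ^ 2) +
        ∑ j : Fin m, pd j.succ (G i a) v ^ 2) ∂(nu (n + 2) m) := by
      rw [polar_int (gr_int (ww_smooth (hG i)) (ww_supp (hG i)))]
      refine integral_congr_ae ((nu_ae _ m).mono fun v hv => ?_)
      exact gr_sph h (hG i) hv
    rw [e1, integral_finsetSum _ fun a _ => ((hG i a).energy (hl a)).1]
    refine Finset.sum_congr rfl fun a _ => ?_
    rw [← ((hG i a).energy (hl a)).2]
    congr 2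
    unfold mu2
    push_cast
    ring

/-- the inequality for the class, with a bound of the Gram matrix -/
theorem cls (hn : 3 ≤ n) (h : ONF (n + 2) P dg) {G : Fin N → Fin g → V m → ℝ}
    (hG : ∀ i a, PF m (G i a)) {C : ℝ} (hC : 0 < C)
    (hgram : ∀ c : Fin N → ℝ, ∫ x, (∑ i, c i * ww P dg (G i) x) ^ 2 ≤ C * ∑ i, c i ^ 2) :
    Kcl (n + 3 + m) * (sg (n + 3) * ∫ v, ((∑ i, ∑ a, G i a v ^ 2) / sg (n + 3)) ^
        (1 + 2 / ((n + 3 + m : ℕ) : ℝ)) ∂(nu (n + 2) m)) ≤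
      C ^ (2 / ((n + 3 + m : ℕ) : ℝ)) * ∑ i, ∫ x, gr (ww P dg (G i)) x := by
  have hsg : 0 < sg (n + 3) := sg_pos (by omega)
  set s := (√C)⁻¹ with hs
  have hsq : s ^ 2 = C⁻¹ := by rw [hs, inv_pow, Real.sq_sqrt hC.le]
  have hw : ∀ i x, ww P dg (fun a v => s * G i a v) x = s * ww P dg (G i) x := by
    intro i x
    unfold ww
    rw [Finset.mul_sum]
    refine Finset.sum_congr rfl fun a _ => ?_
    ring
  have h1 := cls_one hn h (G := fun i a v => s * G i a v) (fun i a => (hG i a).smul s) (by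
    intro c
    have e1 : ∀ x, (∑ i, c i * ww P dg (fun a v => s * G i a v) x) ^ 2 =
        C⁻¹ * (∑ i, c i * ww P dg (G i) x) ^ 2 := by
      intro x
      have e2 : ∑ i, c i * ww P dg (fun a v => s * G i a v) x = s * ∑ i, c i * ww P dg (G i) x := by
        rw [Finset.mul_sum]
        refine Finset.sum_congr rfl fun i _ => ?_
        rw [hw]
        ring
      rw [e2, mul_pow, hsq]
    simp only [e1]
    rw [integral_const_mul, inv_mul_le_iff₀ hC]
    exact hgram c)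
  have e1 : ∀ i x, gr (ww P dg (fun a v => s * G i a v)) x = C⁻¹ * gr (ww P dg (G i)) x := by
    intro i x
    have e2 : ww P dg (fun a v => s * G i a v) = fun x => s * ww P dg (G i) x := funext (hw i)
    rw [e2]
    unfold gr
    have e3 : fderiv ℝ (fun x => s * ww P dg (G i) x) x = s • fderiv ℝ (ww P dg (G i)) x :=
      fderiv_const_mul ((ww_smooth (hG i)).differentiable one_ne_zero x) s
    rw [e3]
    simp only [smul_apply, smul_eq_mul, mul_pow, hsq]
    rw [← Finset.mul_sum, ← Finset.mul_sum]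
    ring
  simp only [e1] at h1
  have e2 : ∀ v : V m, ((∑ i, ∑ a, (s * G i a v) ^ 2) / sg (n + 3)) ^ (1 + 2 / ((n + 3 + m : ℕ) : ℝ)) =
      (C⁻¹) ^ (1 + 2 / ((n + 3 + m : ℕ) : ℝ)) * ((∑ i, ∑ a, G i a v ^ 2) / sg (n + 3)) ^
        (1 + 2 / ((n + 3 + m : ℕ) : ℝ)) := by
    intro v
    rw [← Real.mul_rpow (inv_nonneg.2 hC.le) (div_nonneg (Finset.sum_nonneg fun i _ =>
      Finset.sum_nonneg fun a _ => sq_nonneg _) hsg.le)]
    congr 1
    simp only [mul_pow, hsq]
    simp only [← Finset.mul_sum]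
    ring
  simp only [e2] at h1
  rw [integral_const_mul] at h1
  simp only [integral_const_mul] at h1
  rw [← Finset.mul_sum] at h1
  have e3 : (C⁻¹) ^ (1 + 2 / ((n + 3 + m : ℕ) : ℝ)) = C⁻¹ * (C ^ (2 / ((n + 3 + m : ℕ) : ℝ)))⁻¹ := by
    rw [Real.rpow_add (inv_pos.2 hC), Real.rpow_one, Real.inv_rpow hC.le]
  rw [e3] at h1
  have hCp : 0 < C ^ (2 / ((n + 3 + m : ℕ) : ℝ)) := Real.rpow_pos_of_pos hC _
  set I := ∫ v, ((∑ i, ∑ a, G i a v ^ 2) / sg (n + 3)) ^ (1 + 2 / ((n + 3 + m : ℕ) : ℝ)) ∂(nu (n + 2) m)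
  set T := ∑ i, ∫ x, gr (ww P dg (G i)) x
  have h2 := mul_le_mul_of_nonneg_left h1 (mul_pos hC hCp).le
  have e4 : C * C ^ (2 / ((n + 3 + m : ℕ) : ℝ)) * (C⁻¹ * T) = C ^ (2 / ((n + 3 + m : ℕ) : ℝ)) * T := by
    field_simp
  have e5 : C * C ^ (2 / ((n + 3 + m : ℕ) : ℝ)) * (Kcl (n + 3 + m) * (sg (n + 3) *
      (C⁻¹ * (C ^ (2 / ((n + 3 + m : ℕ) : ℝ)))⁻¹ * I))) = Kcl (n + 3 + m) * (sg (n + 3) * I) := by
    field_simp
  rw [e4, e5] at h2
  exact h2

end

end Pool.Agent.K7.H84.RD
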