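import Pool.Agent.K7.H84.RD.Forms

/-!
The inequality for all angular momenta, with a potential.
-/

set_option autoImplicit false

open MeasureTheory Set Filter Topology Real Module
open scoped Matrix

namespace Pool.Agent.K7.H84.RD

open LTd (pd pd_basic)

section
variable {m n N : ℕ} {J : Type} [Fintype J]

/-- half the dimension -/
noncomputable def DD (n m : ℕ) : ℝ := ((n : ℝ) + 2) / 2 + ((m + 1 : ℕ) : ℝ) / 2

theorem DD_ge (n m : ℕ) : 3 / 2 ≤ DD n m := by
  unfold DD
  push_cast
  have : (0 : ℝ) ≤ n := Nat.cast_nonneg n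
  have : (0 : ℝ) ≤ m := Nat.cast_nonneg m
  linarith

theorem LL_nonneg {g : ℝ} (hg : 0 < g) (m : ℕ) : 0 < LL g m := by
  unfold LL
  have h1 : 0 < Gamma (g + 1) := Real.Gamma_pos_of_pos (by linarith)
  have h2 : 0 < Gamma (g + 1 + ((m + 1 : ℕ) : ℝ) / 2) := Real.Gamma_pos_of_pos (by positivity)
  positivity

/-- the inequality with the parameter `δ` -/
theorem core_delta (hn : 3 ≤ n) {dg : J → ℕ}
    (hmul : ∀ l, ((Finset.univ.filter fun j => dg j = l).card : ℝ) ≤ dd n l)
    {v : J → Fin N → X m} (hv : ∀ j i, v j i ∈ FF m)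
    (hgram : ∀ a : Fin N → ℝ, ∑ j, ∫ x, exp (2 * x 0) * (∑ i, a i * v j i x) ^ 2 ≤ ∑ i, a i ^ 2)
    {W : X m} (hW : Continuous W) (hWs : HasCompactSupport W) (hW0 : ∀ x, 0 ≤ W x)
    {δ : ℝ} (hδ : 0 < δ) :
    (∫ x, exp (2 * x 0) * W x * ∑ j, ∑ i, v j i x ^ 2) -
      ∑ j, ∑ i, ((∫ x, en (v j i) x) + mu2 n (dg j) * ∫ x, v j i x ^ 2) ≤
      CC n * LL (((n : ℝ) + 2) / 2) m *
        (δ * (∫ x : Fin (m + 1) → ℝ, exp (((n : ℝ) + 3) * x 0) * W x ^ DD n m) +
          (∫ x : Fin (m + 1) → ℝ, exp (((n : ℝ) + 3) * x 0) * W x ^ (DD n m + 1)) / (DD n m + 1)) := by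
  classical
  have hn' : (3 : ℝ) ≤ n := by exact_mod_cast hn
  have hDge := DD_ge n m
  set g : ℝ := ((n : ℝ) + 2) / 2 with hg
  have hg2 : 3 / 2 ≤ g := by rw [hg]; linarith
  have hDg : DD n m = g + ((m + 1 : ℕ) : ℝ) / 2 := rfl
  -- the finite dimensional space
  set vv : J × Fin N → FF m := fun p => ⟨v p.1 p.2, hv p.1 p.2⟩ with hvv
  set S : Submodule ℝ (FF m) := Submodule.span ℝ (Set.range vv) with hS
  have : FiniteDimensional ℝ S := FiniteDimensional.span_of_finite ℝ (Set.finite_range vv)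
  set x : J → Fin N → S := fun j i => ⟨vv (j, i), Submodule.subset_span ⟨(j, i), rfl⟩⟩ with hx
  set G0 : S →ₗ[ℝ] S →ₗ[ℝ] ℝ := (f0 m).compl₁₂ S.subtype S.subtype with hG0
  set G1 : S →ₗ[ℝ] S →ₗ[ℝ] ℝ := (f1 m).compl₁₂ S.subtype S.subtype with hG1
  set M : S →ₗ[ℝ] S →ₗ[ℝ] ℝ := (fw W hW - fe m).compl₁₂ S.subtype S.subtype with hM
  have hG0a : ∀ a b : S, G0 a b = f0 m a.1 b.1 := fun a b => rfl
  have hG1a : ∀ a b : S, G1 a b = f1 m a.1 b.1 := fun a b => rfl
  have hMa : ∀ a b : S, M a b = fw W hW a.1 b.1 - fe m a.1 b.1 := fun a b => rfl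
  have hP0 : PosForm (V := S) G0 := by
    constructor
    · intro a b
      exact f0_symm a.1 b.1
    · intro a ha
      exact f0_pos (f := a.1) (fun h => ha (Subtype.ext h))
  have hP1 : PosForm (V := S) G1 := by
    constructor
    · intro a b
      exact f1_symm a.1 b.1
    · intro a ha
      exact f1_pos (f := a.1) (fun h => ha (Subtype.ext h))
  have hMs : ∀ a b, M a b = M b a := by
    intro a b
    rw [hMa, hMa, fw_symm, fe_symm]
  -- the bound of the potential
  obtain ⟨wm, hwm⟩ := hWs.exists_bound_of_continuous hW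
  set Q : ℕ := ⌈wm / δ⌉₊ with hQd
  have hQw : ∀ y, W y ≤ δ * Q := by
    intro y
    have h1 : W y ≤ wm := (le_abs_self _).trans (hwm y)
    have h2 : wm / δ ≤ Q := Nat.le_ceil _
    rw [div_le_iff₀ hδ] at h2
    linarith
  have hQ : ∀ a : S, M a a ≤ δ * Q * G1 a a := by
    intro a
    have h1 : fw W hW a.1 a.1 ≤ δ * Q * f1 m a.1 a.1 := by
      rw [fw_apply, f1_apply, ← integral_const_mul]
      refine integral_mono (cs_int (ce1.mul hW) (inc m a.1).2 (inc m a.1).2)
        ((cs_int ce1 (inc m a.1).2 (inc m a.1).2).const_mul _) fun y => ?_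
      have h2 : 0 ≤ exp (2 * y 0) * (a.1.1 y * a.1.1 y) := mul_nonneg (exp_pos _).le (mul_self_nonneg _)
      have h3 := mul_le_mul_of_nonneg_right (hQw y) h2
      show exp (2 * y 0) * W y * (a.1.1 y * a.1.1 y) ≤ δ * Q * (exp (2 * y 0) * (a.1.1 y * a.1.1 y))
      linarith
    have h2 : 0 ≤ fe m a.1 a.1 := by
      rw [fe_apply]
      refine integral_nonneg fun y => ?_
      unfold en
      have : 0 ≤ ∑ k : Fin m, pd k.succ a.1.1 y ^ 2 := Finset.sum_nonneg fun k _ => sq_nonneg _
      positivity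
    rw [hMa, hG1a]
    linarith
  -- the eigenvalues of the second kind
  have hsymq : ∀ (q : ℕ) (a b : S), (M - (δ * q) • G1) a b = (M - (δ * q) • G1) b a := by
    intro q a b
    simp only [LinearMap.sub_apply, LinearMap.smul_apply, hMs a b, hP1.symm a b]
  choose b κ hb0 hb using fun q : ℕ => diag hP0 (hsymq q)
  -- the inequality of Bessel
  have hBes : ∀ j, Bessel G1 (x j) := by
    intro j y
    set a : Fin N → ℝ := fun i => G1 (x j i) y with ha
    set z : S := ∑ i, a i • x j i with hz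
    have h1 : G1 z y = ∑ i, a i ^ 2 := by
      have h2 : G1 z = ∑ i, a i • G1 (x j i) := by
        rw [hz, map_sum]
        simp only [map_smul]
      rw [h2, LinearMap.sum_apply]
      refine Finset.sum_congr rfl fun i _ => ?_
      rw [LinearMap.smul_apply, smul_eq_mul]
      simp only [ha]
      ring
    have h2 : G1 z z ≤ ∑ i, a i ^ 2 := by
      have h3 : G1 z z = ∫ t, exp (2 * t 0) * (∑ i, a i * v j i t) ^ 2 := by
        rw [hG1a, f1_apply]
        refine integral_congr_ae (ae_of_all _ fun t => ?_)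
        have h4 : z.1.1 t = ∑ i, a i * v j i t := by
          have h5 : z.1.1 = ∑ i, a i • v j i := by
            rw [hz]
            simp only [hx, hvv]
            rw [Submodule.coe_sum, Submodule.coe_sum]
            rfl
          rw [h5, Finset.sum_apply]
          rfl
        show exp (2 * t 0) * (z.1.1 t * z.1.1 t) = _
        rw [h4]
        ring
      rw [h3]
      refine le_trans ?_ (hgram a)
      refine Finset.single_le_sum (f := fun j => ∫ t, exp (2 * t 0) * (∑ i, a i * v j i t) ^ 2)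
        (fun j _ => integral_nonneg fun t => ?_) (Finset.mem_univ j)
      exact mul_nonneg (exp_pos _).le (sq_nonneg _)
    have h3 : 0 ≤ G1 (z - y) (z - y) := by
      by_cases h : z - y = 0
      · rw [h]
        simp
      · exact (hP1.pos _ h).le
    have h4 : G1 (z - y) (z - y) = G1 z z - 2 * G1 z y + G1 y y := by
      have e1 : G1 (z - y) = G1 z - G1 y := G1.map_sub z y
      have e2 : ∀ w : S, G1 w (z - y) = G1 w z - G1 w y := fun w => (G1 w).map_sub z y
      rw [e1, LinearMap.sub_apply, e2, e2, hP1.symm y z]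
      ring
    have h5 : ∑ i, G1 (x j i) y ^ 2 = ∑ i, a i ^ 2 := rfl
    rw [h5]
    linarith
  -- a bound of the degrees
  set L : ℕ := (Finset.univ.sup dg) + 1 with hL
  have hLd : ∀ j, dg j < L := fun j => Nat.lt_succ_of_le (Finset.le_sup (Finset.mem_univ j))
  have hlev := levels hP0 hP1 hMs hδ hQ hb0 hb (CC_pos n).le (g := g) (by linarith)
    (mu2 := mu2 n) (dd := dd n) (a := aa n) (mu2_lt n) (aa_zero n) (aa_mono n)
    (fun l => dd_eq n l) (fun j => cum hn j) hLd hmul hBes
  -- the left side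
  have hleft : ∑ j, ∑ i, (M - mu2 n (dg j) • G0) (x j i) (x j i) =
      (∫ x, exp (2 * x 0) * W x * ∑ j, ∑ i, v j i x ^ 2) -
      ∑ j, ∑ i, ((∫ x, en (v j i) x) + mu2 n (dg j) * ∫ x, v j i x ^ 2) := by
    have h1 : ∫ x, exp (2 * x 0) * W x * ∑ j, ∑ i, v j i x ^ 2 =
        ∑ j, ∑ i, ∫ x, exp (2 * x 0) * W x * (v j i x * v j i x) := by
      have h2 : ∀ x, exp (2 * x 0) * W x * ∑ j, ∑ i, v j i x ^ 2 =
          ∑ j, ∑ i, exp (2 * x 0) * W x * (v j i x * v j i x) := by
        intro x
        rw [Finset.mul_sum]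
        refine Finset.sum_congr rfl fun j _ => ?_
        rw [Finset.mul_sum]
        refine Finset.sum_congr rfl fun i _ => ?_
        ring
      simp only [h2]
      have h3 : ∀ j i, Integrable fun x => exp (2 * x 0) * W x * (v j i x * v j i x) := fun j i =>
        cs_int (ce1.mul hW) (inc m (vv (j, i))).2 (inc m (vv (j, i))).2
      rw [integral_finsetSum _ fun j _ => integrable_finsetSum _ fun i _ => h3 j i]
      refine Finset.sum_congr rfl fun j _ => ?_
      rw [integral_finsetSum _ fun i _ => h3 j i]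
    rw [h1, ← Finset.sum_sub_distrib]
    refine Finset.sum_congr rfl fun j _ => ?_
    rw [← Finset.sum_sub_distrib]
    refine Finset.sum_congr rfl fun i _ => ?_
    have h4 : G0 (x j i) (x j i) = ∫ x, v j i x ^ 2 := by
      rw [hG0a, f0_apply]
      refine integral_congr_ae (ae_of_all _ fun t => ?_)
      show v j i t * v j i t = v j i t ^ 2
      ring
    have h5 : M (x j i) (x j i) = (∫ x, exp (2 * x 0) * W x * (v j i x * v j i x)) - ∫ x, en (v j i) x := by
      rw [hMa, fw_apply, fe_apply]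
    rw [LinearMap.sub_apply, LinearMap.sub_apply, LinearMap.smul_apply, LinearMap.smul_apply, h4, h5,
      smul_eq_mul]
    ring
  rw [hleft] at hlev
  refine hlev.trans ?_
  -- the right side
  have heig : ∀ q : ℕ, ∑ i, max (κ q i) 0 ^ g ≤
      LL g m * ∫ x : Fin (m + 1) → ℝ, exp (((n : ℝ) + 3) * x 0) * max (W x - δ * q) 0 ^ DD n m := by
    intro q
    have hUs : HasCompactSupport fun x => max (W x - δ * q) 0 := by
      refine HasCompactSupport.intro hWs.isCompact fun y hy => ?_
      rw [image_eq_zero_of_notMem_tsupport hy, zero_sub]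
      exact max_eq_right (by
        have : 0 ≤ δ * q := by positivity
        linarith)
    have h := eig_bound (m := m) hg2 (b := fun i => (b q i).1.1) (fun i => (b q i).1.2.1)
      (fun i => (b q i).1.2.2) (fun i j => by
        have h1 := hb0 q i j
        rw [hG0a, f0_apply] at h1
        exact h1) (κ := κ q) (U := fun y => W y - δ * q) (hW.sub continuous_const) hUs (fun i => by
        have h1 := hb q i i
        rw [if_pos rfl, LinearMap.sub_apply, LinearMap.sub_apply, LinearMap.smul_apply, LinearMap.smul_apply,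
          hMa, hG1a, fw_apply, fe_apply, f1_apply, smul_eq_mul] at h1
        have h2 : ∫ y, exp (2 * y 0) * (W y - δ * q) * (b q i).1.1 y ^ 2 =
            (∫ y, exp (2 * y 0) * W y * ((b q i).1.1 y * (b q i).1.1 y)) -
            δ * q * ∫ y, exp (2 * y 0) * ((b q i).1.1 y * (b q i).1.1 y) := by
          have i1 : Integrable fun y => exp (2 * y 0) * W y * ((b q i).1.1 y * (b q i).1.1 y) :=
            cs_int (ce1.mul hW) (inc m (b q i).1).2 (inc m (b q i).1).2
          have i2 : Integrable fun y : Fin (m + 1) → ℝ => exp (2 * y 0) * ((b q i).1.1 y * (b q i).1.1 y) :=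
            cs_int ce1 (inc m (b q i).1).2 (inc m (b q i).1).2
          rw [← integral_const_mul, ← integral_sub i1 (i2.const_mul _)]
          refine integral_congr_ae (ae_of_all _ fun y => ?_)
          show exp (2 * y 0) * (W y - δ * q) * (b q i).1.1 y ^ 2 =
            exp (2 * y 0) * W y * ((b q i).1.1 y * (b q i).1.1 y) -
            δ * q * (exp (2 * y 0) * ((b q i).1.1 y * (b q i).1.1 y))
          ring
        rw [h2]
        linarith)
    have h3 : 2 * g + 1 = (n : ℝ) + 3 := by rw [hg]; ring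
    rw [h3] at h
    exact h
  have hC := CC_pos n
  have hLL := LL_nonneg (g := g) (by linarith) m
  have hDpos : 0 < DD n m := by linarith
  have hWd : ∀ {p : ℝ}, 0 < p → Integrable fun x : Fin (m + 1) → ℝ => exp (((n : ℝ) + 3) * x 0) * W x ^ p := by
    intro p hp
    refine Continuous.integrable_of_hasCompactSupport ((ce _).mul (hW.rpow_const fun _ => Or.inr hp.le)) ?_
    exact (hWs.comp_left (g := fun t : ℝ => t ^ p) (Real.zero_rpow hp.ne')).mul_left
  have hWq : ∀ q : ℕ, Integrable fun x : Fin (m + 1) → ℝ =>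
      exp (((n : ℝ) + 3) * x 0) * max (W x - δ * q) 0 ^ DD n m := by
    intro q
    refine Continuous.integrable_of_hasCompactSupport ((ce _).mul
      (((hW.sub continuous_const).max continuous_const).rpow_const fun _ => Or.inr hDpos.le)) ?_
    refine HasCompactSupport.mul_left ?_
    refine HasCompactSupport.intro hWs.isCompact fun y hy => ?_
    rw [image_eq_zero_of_notMem_tsupport hy, zero_sub, max_eq_right (by
        have : 0 ≤ δ * q := by positivity
        linarith), Real.zero_rpow hDpos.ne']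
  calc δ * ∑ q ∈ Finset.range Q, ∑ i, CC n * max (κ q i) 0 ^ g
      ≤ δ * ∑ q ∈ Finset.range Q, CC n * (LL g m * ∫ x : Fin (m + 1) → ℝ,
          exp (((n : ℝ) + 3) * x 0) * max (W x - δ * q) 0 ^ DD n m) := by
        refine mul_le_mul_of_nonneg_left (Finset.sum_le_sum fun q _ => ?_) hδ.le
        rw [← Finset.mul_sum]
        exact mul_le_mul_of_nonneg_left (heig q) hC.le
    _ = CC n * LL g m * ∫ x : Fin (m + 1) → ℝ, exp (((n : ℝ) + 3) * x 0) *
          (δ * ∑ q ∈ Finset.range Q, max (W x - δ * q) 0 ^ DD n m) := by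
        have h1 : ∀ x : Fin (m + 1) → ℝ, exp (((n : ℝ) + 3) * x 0) *
            (δ * ∑ q ∈ Finset.range Q, max (W x - δ * q) 0 ^ DD n m) =
            δ * ∑ q ∈ Finset.range Q, exp (((n : ℝ) + 3) * x 0) * max (W x - δ * q) 0 ^ DD n m := by
          intro x
          rw [← Finset.mul_sum]
          ring
        simp only [h1]
        rw [integral_const_mul, integral_finsetSum _ fun q _ => hWq q, Finset.mul_sum, Finset.mul_sum,
          Finset.mul_sum]
        refine Finset.sum_congr rfl fun q _ => ?_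
        ring
    _ ≤ CC n * LL g m * ∫ x : Fin (m + 1) → ℝ, (δ * (exp (((n : ℝ) + 3) * x 0) * W x ^ DD n m) +
          (exp (((n : ℝ) + 3) * x 0) * W x ^ (DD n m + 1)) / (DD n m + 1)) := by
        refine mul_le_mul_of_nonneg_left ?_ (by positivity)
        refine integral_mono ?_ (((hWd hDpos).const_mul δ).add ((hWd (by linarith)).div_const _)) fun y => ?_
        · have h1 : ∀ x : Fin (m + 1) → ℝ, exp (((n : ℝ) + 3) * x 0) *
            (δ * ∑ q ∈ Finset.range Q, max (W x - δ * q) 0 ^ DD n m) =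
            δ * ∑ q ∈ Finset.range Q, exp (((n : ℝ) + 3) * x 0) * max (W x - δ * q) 0 ^ DD n m := by
            intro x
            rw [← Finset.mul_sum]
            ring
          simp only [h1]
          exact (integrable_finsetSum _ fun q _ => hWq q).const_mul _
        · have h2 := tele (by linarith : 1 ≤ DD n m) hδ (hW0 y) Q
          have h3 := mul_le_mul_of_nonneg_left h2 (exp_pos (((n : ℝ) + 3) * y 0)).le
          refine h3.trans (le_of_eq ?_)
          ring
    _ = _ := by
        rw [integral_add ((hWd hDpos).const_mul δ) ((hWd (by linarith)).div_const _),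
          integral_const_mul, integral_div]

/-- **the inequality for all angular momenta with a potential** -/
theorem core (hn : 3 ≤ n) {dg : J → ℕ}
    (hmul : ∀ l, ((Finset.univ.filter fun j => dg j = l).card : ℝ) ≤ dd n l)
    {v : J → Fin N → X m} (hv : ∀ j i, v j i ∈ FF m)
    (hgram : ∀ a : Fin N → ℝ, ∑ j, ∫ x, exp (2 * x 0) * (∑ i, a i * v j i x) ^ 2 ≤ ∑ i, a i ^ 2)
    {W : X m} (hW : Continuous W) (hWs : HasCompactSupport W) (hW0 : ∀ x, 0 ≤ W x) :
    (∫ x, exp (2 * x 0) * W x * ∑ j, ∑ i, v j i x ^ 2) -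
      CC n * LL (((n : ℝ) + 2) / 2) m / (DD n m + 1) *
        ∫ x : Fin (m + 1) → ℝ, exp (((n : ℝ) + 3) * x 0) * W x ^ (DD n m + 1) ≤
      ∑ j, ∑ i, ((∫ x, en (v j i) x) + mu2 n (dg j) * ∫ x, v j i x ^ 2) := by
  have hC := CC_pos n
  have hLL := LL_nonneg (g := ((n : ℝ) + 2) / 2) (by positivity) m
  set A := ∫ x : Fin (m + 1) → ℝ, exp (((n : ℝ) + 3) * x 0) * W x ^ DD n m with hA
  have hA0 : 0 ≤ A := integral_nonneg fun x => mul_nonneg (exp_pos _).le (Real.rpow_nonneg (hW0 x) _)
  refine le_of_forall_pos_le_add fun ε hε => ?_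
  have hK : 0 < CC n * LL (((n : ℝ) + 2) / 2) m * (A + 1) := by positivity
  have h := core_delta hn hmul hv hgram hW hWs hW0 (δ := ε / (CC n * LL (((n : ℝ) + 2) / 2) m * (A + 1)))
    (by positivity)
  rw [mul_add, ← hA] at h
  have h1 : CC n * LL (((n : ℝ) + 2) / 2) m * (ε / (CC n * LL (((n : ℝ) + 2) / 2) m * (A + 1)) * A) ≤ ε := by
    have e : CC n * LL (((n : ℝ) + 2) / 2) m * (ε / (CC n * LL (((n : ℝ) + 2) / 2) m * (A + 1)) * A) =
        ε * (A / (A + 1)) := by
      field_simp
    rw [e]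
    have h2 : A / (A + 1) ≤ 1 := by
      rw [div_le_one (by linarith)]
      linarith
    nlinarith
  have h2 : CC n * LL (((n : ℝ) + 2) / 2) m *
      ((∫ x : Fin (m + 1) → ℝ, exp (((n : ℝ) + 3) * x 0) * W x ^ (DD n m + 1)) / (DD n m + 1)) =
      CC n * LL (((n : ℝ) + 2) / 2) m / (DD n m + 1) *
        ∫ x : Fin (m + 1) → ℝ, exp (((n : ℝ) + 3) * x 0) * W x ^ (DD n m + 1) := by ring
  linarith

end

end Pool.Agent.K7.H84.RD
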