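import Pool.Agent.K7.H84.RD.Weight

/-!
The eigenvalue bound on `ℝ × ℝ^m` with the weight `e^(2t)` for the derivatives in the last `m` variables.
-/

set_option autoImplicit false

open MeasureTheory Set Filter Topology Real
open scoped Matrix

namespace Pool.Agent.K7.H84.RD

open LTd

/-- the semiclassical constant `Γ(g+1) / ((4π)^((m+1)/2) Γ(g+1+(m+1)/2))` -/
noncomputable def LL (g : ℝ) (m : ℕ) : ℝ :=
  Gamma (g + 1) / ((4 * π) ^ (((m + 1 : ℕ) : ℝ) / 2) * Gamma (g + 1 + ((m + 1 : ℕ) : ℝ) / 2))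

/-- the energy on `ℝ × ℝ^m` -/
noncomputable def en {m : ℕ} (f : (Fin (m + 1) → ℝ) → ℝ) (x : Fin (m + 1) → ℝ) : ℝ :=
  pd 0 f x ^ 2 + exp (2 * x 0) * ∑ k : Fin m, pd k.succ f x ^ 2

theorem young {D X Y ρ : ℝ} (hD : 1 < D) (hX : 0 ≤ X) (hY : 0 < Y) (hρ : 0 ≤ ρ) :
    X * ρ ≤ Y * ρ ^ pp D + cc D * (X ^ D * Y ^ (1 - D)) := by
  have hD1 : 0 < D - 1 := by linarith
  have hD0 : 0 < D := by linarith
  have hp : 0 < pp D := by unfold pp; positivity
  have hpY : 0 < pp D * Y := by positivity
  have hconj : (pp D).HolderConjugate D := by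
    rw [Real.holderConjugate_iff]
    constructor
    · unfold pp
      rw [lt_div_iff₀ hD1]
      linarith
    · unfold pp
      field_simp
      ring
  have h := Real.young_inequality_of_nonneg (a := (pp D * Y) ^ (1 / pp D) * ρ)
    (b := X * (pp D * Y) ^ (-(1 / pp D))) (by positivity) (by positivity) hconj
  have e1 : (pp D * Y) ^ (1 / pp D) * ρ * (X * (pp D * Y) ^ (-(1 / pp D))) = X * ρ := by
    have : (pp D * Y) ^ (1 / pp D) * (pp D * Y) ^ (-(1 / pp D)) = 1 := by
      rw [← Real.rpow_add hpY, add_neg_cancel, Real.rpow_zero]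
    calc _ = ((pp D * Y) ^ (1 / pp D) * (pp D * Y) ^ (-(1 / pp D))) * (X * ρ) := by ring
      _ = _ := by rw [this, one_mul]
  have e2 : ((pp D * Y) ^ (1 / pp D) * ρ) ^ pp D / pp D = Y * ρ ^ pp D := by
    rw [Real.mul_rpow (by positivity) hρ, ← Real.rpow_mul hpY.le, one_div_mul_cancel hp.ne',
      Real.rpow_one]
    field_simp
  have e3 : (X * (pp D * Y) ^ (-(1 / pp D))) ^ D / D = cc D * (X ^ D * Y ^ (1 - D)) := by
    rw [Real.mul_rpow hX (by positivity), ← Real.rpow_mul hpY.le]
    have e4 : -(1 / pp D) * D = 1 - D := by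
      unfold pp
      field_simp
      ring
    rw [e4, Real.mul_rpow hp.le hY.le]
    have e5 : pp D ^ (1 - D) / D = cc D := by
      unfold pp cc
      rw [Real.div_rpow hD0.le hD1.le]
      have e6 : (D - 1) ^ (1 - D) = ((D - 1) ^ (D - 1))⁻¹ := by
        rw [← Real.rpow_neg hD1.le]
        congr 1
        ring
      have e7 : D ^ (1 - D) = D * (D ^ D)⁻¹ := by
        rw [Real.rpow_sub hD0, Real.rpow_one]
        rfl
      rw [e6, e7]
      have : 0 < (D - 1) ^ (D - 1) := Real.rpow_pos_of_pos hD1 _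
      have : 0 < D ^ D := Real.rpow_pos_of_pos hD0 _
      field_simp
    rw [← e5]
    ring
  rw [e1, e2, e3] at h
  exact h

section
variable {m n : ℕ}

theorem ce (c : ℝ) : Continuous (fun z : Fin (m + 1) → ℝ => exp (c * z 0)) :=
  Real.continuous_exp.comp (continuous_const.mul (continuous_apply 0))

theorem en_cont {f : (Fin (m + 1) → ℝ) → ℝ} (hf : ContDiff ℝ 1 f) (hc : HasCompactSupport f) :
    Continuous (en f) ∧ HasCompactSupport (en f) := by
  have h := fun k => pd_basic hf hc k
  constructor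
  · unfold en
    exact ((h 0).1.pow 2).add ((ce 2).mul (continuous_finsetSum _ fun k _ => (h k.succ).1.pow 2))
  · refine HasCompactSupport.intro (isCompact_iUnion fun k => (h k).2) fun x hx => ?_
    have h0 : ∀ k, pd k f x = 0 := fun k =>
      image_eq_zero_of_notMem_tsupport (fun h => hx (Set.mem_iUnion.2 ⟨k, h⟩))
    unfold en
    simp [h0]

theorem en_int {f : (Fin (m + 1) → ℝ) → ℝ} (hf : ContDiff ℝ 1 f) (hc : HasCompactSupport f) :
    Integrable (en f) := (en_cont hf hc).1.integrable_of_hasCompactSupport (en_cont hf hc).2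

/-- **the eigenvalue bound** -/
theorem eig_bound {g : ℝ} (hg : 3 / 2 ≤ g) {b : Fin n → (Fin (m + 1) → ℝ) → ℝ}
    (hb : ∀ i, ContDiff ℝ 1 (b i)) (hbc : ∀ i, HasCompactSupport (b i))
    (hgram : ∀ i j, ∫ x, b i x * b j x = if i = j then 1 else 0) {κ : Fin n → ℝ}
    {U : (Fin (m + 1) → ℝ) → ℝ} (hU : Continuous U) (hUs : HasCompactSupport fun x => max (U x) 0)
    (hform : ∀ i, (∫ x, en (b i) x) - ∫ x, exp (2 * x 0) * U x * b i x ^ 2 = -κ i) :
    ∑ i, max (κ i) 0 ^ g ≤
      LL g m * ∫ x, exp ((2 * g + 1) * x 0) * max (U x) 0 ^ (g + ((m + 1 : ℕ) : ℝ) / 2) := by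
  have hm0 : (0 : ℝ) ≤ (m : ℝ) := Nat.cast_nonneg m
  set D : ℝ := g + ((m + 1 : ℕ) : ℝ) / 2 with hD
  have hDe : D = g + (m + 1) / 2 := by rw [hD]; push_cast; ring
  have hD1 : 1 < D := by rw [hDe]; linarith
  have hg0 : 0 < g := by linarith
  have hg1 : 0 < g - 1 := by linarith
  set l : Fin n → ℝ := fun i => ((g - 1) / g * max (κ i) 0) ^ (g - 1) with hl
  have hl0 : ∀ i, 0 ≤ l i := fun i => by
    have := le_max_right (κ i) 0
    positivity
  set w : Fin n → (Fin (m + 1) → ℝ) → ℝ := fun i x => √(l i) * b i x with hw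
  have hwd : ∀ i, ContDiff ℝ 1 (w i) := fun i => contDiff_const.mul (hb i)
  have hwc : ∀ i, HasCompactSupport (w i) := fun i => (hbc i).mul_left
  have hwg : ∀ i j, ∫ x, w i x * w j x = if i = j then l i else 0 := by
    intro i j
    have h1 : ∀ x, w i x * w j x = √(l i) * √(l j) * (b i x * b j x) := fun x => by
      simp only [hw]
      ring
    simp only [h1]
    rw [integral_const_mul, hgram]
    by_cases hij : i = j
    · subst hij
      rw [if_pos rfl, if_pos rfl, mul_one, Real.mul_self_sqrt (hl0 i)]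
    · rw [if_neg hij, if_neg hij, mul_zero]
  have hT := T_weight hg one_pos w l hwd hwc hwg
  rw [← hD, one_mul] at hT
  set β := bco (((m + 1 : ℕ) : ℝ) / 2) g 1 with hβ
  have hβ0 : 0 < β := bco_pos (by positivity) (by linarith) one_pos
  -- the energy
  have hpdw : ∀ k i x, pd k (w i) x = √(l i) * pd k (b i) x := by
    intro k i x
    unfold pd
    simp only [hw]
    rw [fderiv_const_mul ((hb i).differentiable (by norm_num) x)]
    simp
  have hen : ∀ x : Fin (m + 1) → ℝ, ((∑ i, pd 0 (w i) x ^ 2) + exp (2 * x 0) *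
      ∑ k : Fin m, ∑ i, pd k.succ (w i) x ^ 2) = ∑ i, l i * en (b i) x := by
    intro x
    simp only [hpdw, mul_pow, Real.sq_sqrt (hl0 _)]
    rw [Finset.sum_comm, Finset.mul_sum, ← Finset.sum_add_distrib]
    refine Finset.sum_congr rfl fun i _ => ?_
    unfold en
    rw [← Finset.mul_sum]
    ring
  simp only [hen] at hT
  rw [integral_finsetSum _ fun i _ => (en_int (hb i) (hbc i)).const_mul _] at hT
  simp only [integral_const_mul] at hT
  -- the potential part
  set ρ : (Fin (m + 1) → ℝ) → ℝ := fun x => ∑ i, w i x ^ 2 with hρ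
  have hρ0 : ∀ x, 0 ≤ ρ x := fun x => Finset.sum_nonneg fun i _ => sq_nonneg _
  have hρc : Continuous ρ := continuous_finsetSum _ fun i _ => (hwd i).continuous.pow 2
  have hρs : HasCompactSupport ρ := by
    refine HasCompactSupport.intro (isCompact_iUnion fun i => hwc i) fun x hx => ?_
    have h0 : ∀ i, w i x = 0 := fun i =>
      image_eq_zero_of_notMem_tsupport (fun h => hx (Set.mem_iUnion.2 ⟨i, h⟩))
    simp [hρ, h0]
  have hb2 : ∀ i, Integrable fun x => exp (2 * x 0) * U x * b i x ^ 2 := by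
    intro i
    refine Continuous.integrable_of_hasCompactSupport (((ce 2).mul hU).mul ((hb i).continuous.pow 2)) ?_
    refine HasCompactSupport.mul_left ?_
    exact (hbc i).comp_left (g := fun t : ℝ => t ^ 2) (by norm_num)
  have hpot : ∑ i, l i * ∫ x, exp (2 * x 0) * U x * b i x ^ 2 = ∫ x, exp (2 * x 0) * U x * ρ x := by
    have h1 : ∀ x, exp (2 * x 0) * U x * ρ x = ∑ i, l i * (exp (2 * x 0) * U x * b i x ^ 2) := by
      intro x
      simp only [hρ, hw, mul_pow, Real.sq_sqrt (hl0 _)]
      rw [Finset.mul_sum]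
      refine Finset.sum_congr rfl fun i _ => ?_
      ring
    simp only [h1]
    rw [integral_finsetSum _ fun i _ => (hb2 i).const_mul _]
    simp only [integral_const_mul]
  -- the optimal occupation numbers
  have hocc : ∀ i, l i * κ i - l i ^ pp g = cc g * max (κ i) 0 ^ g := by
    intro i
    rcases le_or_gt (κ i) 0 with h | h
    · have h1 : l i = 0 := by
        simp only [hl]
        rw [max_eq_right h, mul_zero, Real.zero_rpow hg1.ne']
      have h2 : pp g ≠ 0 := by
        unfold pp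
        positivity
      rw [h1, max_eq_right h, Real.zero_rpow h2, Real.zero_rpow hg0.ne']
      ring
    · simp only [hl]
      rw [max_eq_left h.le]
      have h1 : 0 < (g - 1) / g * κ i := by positivity
      have h2 : (((g - 1) / g * κ i) ^ (g - 1)) ^ pp g = ((g - 1) / g * κ i) ^ (g - 1) * ((g - 1) / g * κ i) := by
        rw [← Real.rpow_mul h1.le]
        have h3 : (g - 1) * pp g = (g - 1) + 1 := by
          unfold pp
          field_simp
          ring
        rw [h3, Real.rpow_add_one h1.ne']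
      rw [h2, Real.mul_rpow (by positivity) h.le]
      have h4 : κ i ^ g = κ i ^ (g - 1) * κ i := by
        rw [Real.rpow_sub_one h.ne']
        field_simp
      have h5 : cc g = ((g - 1) / g) ^ (g - 1) / g := by
        unfold cc
        rw [Real.div_rpow hg1.le hg0.le, Real.rpow_sub_one hg0.ne']
        have : 0 < g ^ g := Real.rpow_pos_of_pos hg0 _
        field_simp
      rw [h4, h5]
      field_simp
      ring
  have hsum : cc g * ∑ i, max (κ i) 0 ^ g ≤
      (∫ x, exp (2 * x 0) * U x * ρ x) - β * ∫ x : Fin (m + 1) → ℝ, exp (al m g * x 0) * ρ x ^ pp D := by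
    rw [Finset.mul_sum, ← Finset.sum_congr rfl fun i _ => hocc i, Finset.sum_sub_distrib, ← hpot]
    have h1 : ∑ i, l i * κ i = ∑ i, l i * (∫ x, exp (2 * x 0) * U x * b i x ^ 2) -
        ∑ i, l i * ∫ x, en (b i) x := by
      rw [← Finset.sum_sub_distrib]
      refine Finset.sum_congr rfl fun i _ => ?_
      have := hform i
      have h2 : κ i = (∫ x, exp (2 * x 0) * U x * b i x ^ 2) - ∫ x, en (b i) x := by linarith
      rw [h2]
      ring
    rw [h1]
    linarith
  -- the pointwise bound
  have hppD : 0 < pp D := by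
    unfold pp
    have : 0 < D - 1 := by linarith
    positivity
  have hpt : ∀ x : Fin (m + 1) → ℝ, exp (2 * x 0) * U x * ρ x - β * (exp (al m g * x 0) * ρ x ^ pp D) ≤
      cc D * β ^ (1 - D) * (exp ((2 * g + 1) * x 0) * max (U x) 0 ^ D) := by
    intro x
    have h1 := young hD1 (X := exp (2 * x 0) * max (U x) 0) (Y := β * exp (al m g * x 0)) (ρ := ρ x)
      (mul_nonneg (exp_pos _).le (le_max_right _ _)) (mul_pos hβ0 (exp_pos _)) (hρ0 x)
    have h2 : exp (2 * x 0) * U x * ρ x ≤ exp (2 * x 0) * max (U x) 0 * ρ x :=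
      mul_le_mul_of_nonneg_right (mul_le_mul_of_nonneg_left (le_max_left _ _) (exp_pos _).le) (hρ0 x)
    have h3 : (exp (2 * x 0) * max (U x) 0) ^ D * (β * exp (al m g * x 0)) ^ (1 - D) =
        β ^ (1 - D) * (exp ((2 * g + 1) * x 0) * max (U x) 0 ^ D) := by
      rw [Real.mul_rpow (exp_pos _).le (le_max_right _ _), Real.mul_rpow hβ0.le (exp_pos _).le,
        ← Real.exp_mul, ← Real.exp_mul]
      have h4 : (2 * g + 1) * x 0 = 2 * x 0 * D + al m g * x 0 * (1 - D) := by
        have h5 : al m g = m / (D - 1) := rfl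
        have h6 : al m g * (D - 1) = m := by
          rw [h5]
          exact div_mul_cancel₀ _ (by linarith)
        linear_combination x 0 * h6 - 2 * x 0 * hDe
      rw [h4, Real.exp_add]
      ring
    rw [h3] at h1
    linarith
  have hI1 : Integrable fun x => exp (2 * x 0) * U x * ρ x :=
    (((ce 2).mul hU).mul hρc).integrable_of_hasCompactSupport hρs.mul_left
  have hI2 : Integrable fun x : Fin (m + 1) → ℝ => exp (al m g * x 0) * ρ x ^ pp D := by
    refine Continuous.integrable_of_hasCompactSupport ((ce _).mul (hρc.rpow_const fun _ => Or.inr hppD.le)) ?_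
    exact (hρs.comp_left (g := fun t : ℝ => t ^ pp D) (Real.zero_rpow hppD.ne')).mul_left
  have hI3 : Integrable fun x : Fin (m + 1) → ℝ => exp ((2 * g + 1) * x 0) * max (U x) 0 ^ D := by
    have hD0 : 0 < D := by linarith
    refine Continuous.integrable_of_hasCompactSupport ((ce _).mul
      ((hU.max continuous_const).rpow_const fun _ => Or.inr hD0.le)) ?_
    exact (hUs.comp_left (g := fun t : ℝ => t ^ D) (Real.zero_rpow hD0.ne')).mul_left
  have hint := integral_mono (hI1.sub (hI2.const_mul β)) (hI3.const_mul (cc D * β ^ (1 - D))) hpt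
  rw [integral_const_mul] at hint
  have hsub : ∫ x, (fun x => exp (2 * x 0) * U x * ρ x - β * (exp (al m g * x 0) * ρ x ^ pp D)) x =
      (∫ x, exp (2 * x 0) * U x * ρ x) - β * ∫ x : Fin (m + 1) → ℝ, exp (al m g * x 0) * ρ x ^ pp D := by
    rw [integral_sub hI1 (hI2.const_mul β), integral_const_mul]
  have hfin := hsum.trans (hsub.symm.le.trans hint)
  have hccg : 0 < cc g := bco_cc_pos (by linarith)
  have hccD : 0 < cc D := bco_cc_pos hD1
  have hβD : cc D * β ^ (1 - D) = cc g * LL g m := by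
    have hJ := JJ_pos (h := ((m + 1 : ℕ) : ℝ) / 2) (g := g) (by positivity) (by linarith)
    have h1 : β ^ (1 - D) = (JJ (((m + 1 : ℕ) : ℝ) / 2) g)⁻¹ := by
      rw [hβ]
      unfold bco
      rw [← hD, Real.one_rpow, mul_one, ← Real.rpow_mul hJ.le]
      have h2 : 1 / (D - 1) * (1 - D) = -1 := by
        have : D - 1 ≠ 0 := by linarith
        field_simp
        ring
      rw [h2, Real.rpow_neg_one]
    rw [h1]
    unfold JJ LL
    rw [← hD]
    have h3 : 0 < Gamma (g + 1) := Real.Gamma_pos_of_pos (by linarith)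
    have h4 : 0 < Gamma (g + 1 + ((m + 1 : ℕ) : ℝ) / 2) := Real.Gamma_pos_of_pos (by positivity)
    have h5 : 0 < (4 * π) ^ (((m + 1 : ℕ) : ℝ) / 2) := Real.rpow_pos_of_pos (by positivity) _
    field_simp
  rw [hβD, mul_assoc] at hfin
  exact le_of_mul_le_mul_left hfin hccg

end

end Pool.Agent.K7.H84.RD
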