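import Pool.Agent.K7.H84.RD.Fnl

/-!
Radial densities and radial potentials: the final inequalities.
-/

set_option autoImplicit false

open MeasureTheory Set Filter Topology Real Metric MvPolynomial
open scoped ENNReal InnerProductSpace

namespace Pool.Agent.K7.H84.RD

open LTd (pd pd_basic WGrad WGradC H_approx split_complex gram_complex)
open Pool.Agent.K7.H4.LT
open Pool.Agent.R117.RL (E sg sg_pos Kcl om om_pos)

theorem Kcl_pos {d : ℕ} (hd : 0 < d) : 0 < Kcl d := by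
  unfold Kcl
  have := om_pos d
  have h1 : (0 : ℝ) < (d : ℝ) := by exact_mod_cast hd
  positivity

/-- the semiclassical constant of the inequality for the sums of eigenvalues -/
noncomputable def Lcl (d : ℕ) : ℝ := 2 / (d + 2) * (om d / (2 * π) ^ d)

theorem young_cl {d : ℕ} (hd : 0 < d) {σ T A : ℝ} (hσ : 0 < σ) (hT : 0 ≤ T) (hA : 0 ≤ A) :
    (A / σ) ^ (1 / (1 + (d : ℝ) / 2)) * (T / (Kcl d * σ ^ (-(2 / (d : ℝ))))) ^ (1 / (1 + 2 / (d : ℝ))) ≤
      T + Lcl d * A := by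
  have hd0 : (0 : ℝ) < (d : ℝ) := by exact_mod_cast hd
  have hom := om_pos d
  have hK := Kcl_pos hd
  set B : ℝ := om d / (2 * π) ^ d with hB
  have hB0 : 0 < B := by positivity
  set w1 : ℝ := 2 / ((d : ℝ) + 2) with hw1
  set w2 : ℝ := (d : ℝ) / ((d : ℝ) + 2) with hw2
  have e1 : 1 / (1 + (d : ℝ) / 2) = w1 := by
    rw [hw1]
    field_simp
    ring
  have e2 : 1 / (1 + 2 / (d : ℝ)) = w2 := by
    rw [hw2]
    field_simp
  have hw10 : 0 < w1 := by positivity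
  have hw20 : 0 < w2 := by positivity
  have hww : w1 + w2 = 1 := by
    rw [hw1, hw2]
    field_simp
    ring
  have hdw : 2 / (d : ℝ) * w2 = w1 := by
    rw [hw1, hw2]
    field_simp
  -- the constant
  have hKB : Kcl d = w2 * B ^ (-(2 / (d : ℝ))) := by
    have h1 : B ^ (-(2 / (d : ℝ))) = (2 * π) ^ 2 / om d ^ (2 / (d : ℝ)) := by
      rw [hB, Real.rpow_neg (by positivity), Real.div_rpow hom.le (by positivity), ← Real.rpow_natCast (2 * π) d,
        ← Real.rpow_mul (by positivity)]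
      have h2 : (d : ℝ) * (2 / (d : ℝ)) = 2 := by field_simp
      rw [h2, Real.rpow_two, inv_div]
    rw [h1, hw2]
    rfl
  rw [e1, e2]
  have h1 : (A / σ) ^ w1 * (T / (Kcl d * σ ^ (-(2 / (d : ℝ))))) ^ w2 =
      ((1 / w1) * (Lcl d * A)) ^ w1 * ((1 / w2) * T) ^ w2 := by
    have f1 : (1 / w1) * (Lcl d * A) = B * A := by
      have : Lcl d = w1 * B := rfl
      rw [this]
      field_simp
    rw [f1, hKB, Real.div_rpow hA hσ.le, Real.div_rpow hT (by positivity), Real.mul_rpow hB0.le hA,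
      Real.mul_rpow (by positivity) hT, Real.mul_rpow (by positivity) (by positivity),
      Real.mul_rpow hw20.le (by positivity), ← Real.rpow_mul hB0.le, ← Real.rpow_mul hσ.le,
      neg_mul, hdw, Real.rpow_neg hB0.le, Real.rpow_neg hσ.le, Real.div_rpow zero_le_one hw20.le,
      Real.one_rpow]
    have g1 : 0 < σ ^ w1 := Real.rpow_pos_of_pos hσ _
    have g2 : 0 < B ^ w1 := Real.rpow_pos_of_pos hB0 _
    have g3 : 0 < w2 ^ w2 := Real.rpow_pos_of_pos hw20 _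
    field_simp
  rw [h1]
  have hL : 0 ≤ Lcl d * A := by
    unfold Lcl
    positivity
  have h2 := Real.geom_mean_le_arith_mean2_weighted hw10.le hw20.le
    (p₁ := (1 / w1) * (Lcl d * A)) (p₂ := (1 / w2) * T) (by positivity) (by positivity) hww
  refine h2.trans (le_of_eq ?_)
  field_simp
  ring

section
variable {n m : ℕ}

theorem Sr_meas {k : ℕ} {ρ : (Fin (k + 1 + m) → ℝ) → ℝ} (hρ : AEMeasurable ρ) :
    AEMeasurable (Sr k m ρ) (nu k m) := by
  have h1 : AEMeasurable (fun q : Sp k × V m => ENNReal.ofReal (ρ (TL (k + 1) m (Psi k m q))))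
      ((tau k).prod (nu k m)) :=
    ((hρ.comp_quasiMeasurePreserving (TL_mp (k + 1) m).quasiMeasurePreserving).comp_quasiMeasurePreserving
      (Psi_mp k m).quasiMeasurePreserving).ennreal_ofReal
  exact h1.lintegral_prod_left'

/-- densities that are functions of `(|y|², z)` -/
theorem dens_rad {ρ : (Fin (n + 2 + 1 + m) → ℝ) → ℝ} (hρ : AEMeasurable ρ)
    {F : ℝ → (Fin m → ℝ) → ℝ}
    (hF : ∀ᵐ x, ρ x = F (sq1 (n + 2 + 1) m x) (lst (n + 2 + 1) m x)) {T : ℝ}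
    (h : ∫⁻ v, Sr (n + 2) m ρ v ^ pw n m ∂(nu (n + 2) m) ≤ ENNReal.ofReal (T / KK n m)) :
    ∫⁻ x, ENNReal.ofReal (ρ x) ^ pw n m ≤ ENNReal.ofReal (T / Kcl (n + 3 + m)) := by
  have hsg : 0 < sg (n + 3) := sg_pos (by omega)
  have hp := pw_pos n m
  set J := ∫⁻ v : V m, ENNReal.ofReal (F (v 0 ^ 2) (Fin.tail v)) ^ pw n m ∂(nu (n + 2) m) with hJ
  have h1 : ∫⁻ x, ENNReal.ofReal (ρ x) ^ pw n m = ENNReal.ofReal (sg (n + 3)) * J := by
    refine rad_int (k := n + 2) (φ := fun s z => ENNReal.ofReal (F s z) ^ pw n m)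
      (hρ.ennreal_ofReal.pow_const _) (hF.mono fun x hx => ?_)
    show ENNReal.ofReal (ρ x) ^ pw n m = _
    rw [hx]
  have hF2 : ∀ᵐ x : E (n + 2 + 1) × (Fin m → ℝ), ρ (TL (n + 2 + 1) m x) =
      F (sq1 (n + 2 + 1) m (TL (n + 2 + 1) m x)) (lst (n + 2 + 1) m (TL (n + 2 + 1) m x)) :=
    (TL_mp (n + 2 + 1) m).quasiMeasurePreserving.ae hF
  have h2 : ∫⁻ v, Sr (n + 2) m ρ v ^ pw n m ∂(nu (n + 2) m) =
      ENNReal.ofReal (sg (n + 3) ^ pw n m) * J := by
    rw [hJ, ← lintegral_const_mul' _ _ ENNReal.ofReal_ne_top]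
    refine lintegral_congr_ae ((ae_polar hF2).mono fun v hv => ?_)
    have h3 : Sr (n + 2) m ρ v = ENNReal.ofReal (sg (n + 3)) *
        ENNReal.ofReal (F (v 0 ^ 2) (Fin.tail v)) := by
      unfold Sr
      have h4 : ∫⁻ ω : Sp (n + 2), ENNReal.ofReal (ρ (TL (n + 2 + 1) m (Psi (n + 2) m (ω, v)))) ∂(tau (n + 2)) =
          ∫⁻ _ω : Sp (n + 2), ENNReal.ofReal (F (v 0 ^ 2) (Fin.tail v)) ∂(tau (n + 2)) := by
        refine lintegral_congr_ae (hv.mono fun ω hω => ?_)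
        show ENNReal.ofReal (ρ (TL (n + 2 + 1) m (Psi (n + 2) m (ω, v)))) = _
        rw [hω, sq1_TL, lst_TL]
      rw [h4, lintegral_const, tau_mass, mul_comm]
    show Sr (n + 2) m ρ v ^ pw n m = ENNReal.ofReal (sg (n + 3) ^ pw n m) *
      ENNReal.ofReal (F (v 0 ^ 2) (Fin.tail v)) ^ pw n m
    rw [h3, ENNReal.mul_rpow_of_nonneg _ _ hp.le, ENNReal.ofReal_rpow_of_pos hsg]
  rw [h2] at h
  have hsp : 0 < sg (n + 3) ^ pw n m := Real.rpow_pos_of_pos hsg _
  have e1 : ENNReal.ofReal (sg (n + 3)) * J =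
      ENNReal.ofReal (sg (n + 3) * (sg (n + 3) ^ pw n m)⁻¹) * (ENNReal.ofReal (sg (n + 3) ^ pw n m) * J) := by
    rw [← mul_assoc, ← ENNReal.ofReal_mul (by positivity)]
    congr 2
    field_simp
  rw [h1, e1]
  calc ENNReal.ofReal (sg (n + 3) * (sg (n + 3) ^ pw n m)⁻¹) * (ENNReal.ofReal (sg (n + 3) ^ pw n m) * J)
      ≤ ENNReal.ofReal (sg (n + 3) * (sg (n + 3) ^ pw n m)⁻¹) * ENNReal.ofReal (T / KK n m) := by
        gcongr
    _ = ENNReal.ofReal (T / Kcl (n + 3 + m)) := by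
        rw [← ENNReal.ofReal_mul (by positivity)]
        congr 1
        have hK : 0 < Kcl (n + 3 + m) := Kcl_pos (by omega)
        unfold KK pw
        rw [Real.rpow_add hsg, Real.rpow_one, Real.rpow_neg hsg.le]
        have : 0 < sg (n + 3) ^ (2 / ((n + 3 + m : ℕ) : ℝ)) := Real.rpow_pos_of_pos hsg _
        field_simp

/-- potentials that are functions of `(|y|², z)` -/
theorem pot_rad {ρ : (Fin (n + 2 + 1 + m) → ℝ) → ℝ} (hρ : AEMeasurable ρ)
    {W : ℝ → (Fin m → ℝ) → ℝ} (hW : Measurable fun p : ℝ × (Fin m → ℝ) => W p.1 p.2)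
    (hW0 : ∀ s z, 0 ≤ W s z)
    (hWi : Integrable fun x : Fin (n + 2 + 1 + m) → ℝ =>
      W (sq1 (n + 2 + 1) m x) (lst (n + 2 + 1) m x) ^ (1 + ((n + 3 + m : ℕ) : ℝ) / 2)) {T : ℝ} (hT : 0 ≤ T)
    (h : ∫⁻ v, Sr (n + 2) m ρ v ^ pw n m ∂(nu (n + 2) m) ≤ ENNReal.ofReal (T / KK n m)) :
    ∫⁻ x, ENNReal.ofReal (W (sq1 (n + 2 + 1) m x) (lst (n + 2 + 1) m x) * ρ x) ≤
      ENNReal.ofReal (T + Lcl (n + 3 + m) * ∫ x : Fin (n + 2 + 1 + m) → ℝ,
        W (sq1 (n + 2 + 1) m x) (lst (n + 2 + 1) m x) ^ (1 + ((n + 3 + m : ℕ) : ℝ) / 2)) := by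
  have hsg : 0 < sg (n + 3) := sg_pos (by omega)
  have hp := pw_pos n m
  have hd : (0 : ℝ) < ((n + 3 + m : ℕ) : ℝ) := by exact_mod_cast (by omega : 0 < n + 3 + m)
  set q : ℝ := 1 + ((n + 3 + m : ℕ) : ℝ) / 2 with hq
  have hq0 : 0 < q := by positivity
  set A := ∫ x : Fin (n + 2 + 1 + m) → ℝ, W (sq1 (n + 2 + 1) m x) (lst (n + 2 + 1) m x) ^ q with hA
  have hA0 : 0 ≤ A := integral_nonneg fun x => Real.rpow_nonneg (hW0 _ _) _
  have hsm : Measurable (sq1 (n + 2 + 1) m) :=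
    Finset.measurable_fun_sum _ fun i _ => (measurable_pi_apply _).pow_const 2
  have hlm : Measurable (lst (n + 2 + 1) m) := measurable_pi_lambda _ fun i => measurable_pi_apply _
  have hWm : Measurable fun x : Fin (n + 2 + 1 + m) → ℝ => W (sq1 (n + 2 + 1) m x) (lst (n + 2 + 1) m x) :=
    hW.comp (hsm.prodMk hlm)
  have htm : Measurable (Fin.tail : V m → (Fin m → ℝ)) := measurable_pi_lambda _ fun i => measurable_pi_apply _
  have hWv : Measurable fun v : V m => W (v 0 ^ 2) (Fin.tail v) :=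
    hW.comp (((measurable_pi_apply 0).pow_const 2).prodMk htm)
  -- the integral of the potential
  have h1 : ∫⁻ v : V m, ENNReal.ofReal (W (v 0 ^ 2) (Fin.tail v)) ^ q ∂(nu (n + 2) m) =
      ENNReal.ofReal (A / sg (n + 3)) := by
    have h2 : ENNReal.ofReal A = ENNReal.ofReal (sg (n + 3)) *
        ∫⁻ v : V m, ENNReal.ofReal (W (v 0 ^ 2) (Fin.tail v)) ^ q ∂(nu (n + 2) m) := by
      rw [hA, ofReal_integral_eq_lintegral_ofReal hWi (ae_of_all _ fun x => Real.rpow_nonneg (hW0 _ _) _)]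
      refine rad_int (k := n + 2) (φ := fun s z => ENNReal.ofReal (W s z) ^ q)
        ((hWm.pow_const _).ennreal_ofReal.aemeasurable) (ae_of_all _ fun x => ?_)
      show ENNReal.ofReal (W (sq1 (n + 2 + 1) m x) (lst (n + 2 + 1) m x) ^ q) = _
      rw [ENNReal.ofReal_rpow_of_nonneg (hW0 _ _) hq0.le]
    rw [ENNReal.ofReal_div_of_pos hsg, h2, mul_comm, ENNReal.mul_div_cancel_right
      (ENNReal.ofReal_pos.2 hsg).ne' ENNReal.ofReal_ne_top]
  -- Hölder
  have hpq : q.HolderConjugate (pw n m) := by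
    rw [Real.holderConjugate_iff]
    refine ⟨by rw [hq]; linarith [div_pos hd two_pos], ?_⟩
    rw [hq]
    unfold pw
    field_simp
    ring
  have h2 : ∫⁻ x, ENNReal.ofReal (W (sq1 (n + 2 + 1) m x) (lst (n + 2 + 1) m x) * ρ x) =
      ∫⁻ v : V m, ((fun v : V m => ENNReal.ofReal (W (v 0 ^ 2) (Fin.tail v))) * Sr (n + 2) m ρ) v ∂(nu (n + 2) m) := by
    have hm : AEMeasurable fun x : Fin (n + 2 + 1 + m) → ℝ =>
        ENNReal.ofReal (W (sq1 (n + 2 + 1) m x) (lst (n + 2 + 1) m x) * ρ x) :=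
      (hWm.aemeasurable.mul hρ).ennreal_ofReal
    rw [polar_TL (k := n + 2) hm]
    refine lintegral_congr fun v => ?_
    show _ = ENNReal.ofReal (W (v 0 ^ 2) (Fin.tail v)) * Sr (n + 2) m ρ v
    unfold Sr
    rw [← lintegral_const_mul' _ _ ENNReal.ofReal_ne_top]
    refine lintegral_congr fun ω => ?_
    rw [sq1_TL, lst_TL, ENNReal.ofReal_mul (hW0 _ _)]
  rw [h2]
  refine (ENNReal.lintegral_mul_le_Lp_mul_Lq (nu (n + 2) m) hpq hWv.ennreal_ofReal.aemeasurable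
    (Sr_meas (k := n + 2) hρ)).trans ?_
  rw [h1]
  have hKK := KK_pos n m
  have h3 : (∫⁻ v, Sr (n + 2) m ρ v ^ pw n m ∂(nu (n + 2) m)) ^ (1 / pw n m) ≤
      ENNReal.ofReal ((T / KK n m) ^ (1 / pw n m)) := by
    rw [← ENNReal.ofReal_rpow_of_nonneg (by positivity) (by positivity)]
    exact ENNReal.rpow_le_rpow h (by positivity)
  refine (mul_le_mul_right h3 _).trans ?_
  rw [ENNReal.ofReal_rpow_of_nonneg (by positivity) (by positivity), ← ENNReal.ofReal_mul (by positivity)]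
  exact ENNReal.ofReal_le_ofReal (young_cl (by omega) hsg hT hA0)

end

end Pool.Agent.K7.H84.RD
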