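import Pool.Agent.K7.H84.RD.Trn

/-!
Radial densities and radial potentials.
-/

set_option autoImplicit false

open MeasureTheory Set Filter Topology Real Metric MvPolynomial
open scoped ENNReal InnerProductSpace

namespace Pool.Agent.K7.H84.RD

open LTd (pd pd_basic WGrad WGradC H_approx split_complex gram_complex)
open Pool.Agent.K7.H4.LT
open Pool.Agent.R117.RL (E sg sg_pos Kcl om om_pos)

section
variable {n m N : ℕ}

/-- the spherical integral of a density -/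
noncomputable def Sr (k m : ℕ) (ρ : (Fin (k + 1 + m) → ℝ) → ℝ) (v : V m) : ℝ≥0∞ :=
  ∫⁻ ω : Sp k, ENNReal.ofReal (ρ (TL (k + 1) m (Psi k m (ω, v)))) ∂(tau k)

/-- the inequality for complex orthonormal systems -/
theorem h1_phiC (hn : 3 ≤ n) {u : Fin N → (Fin (n + 2 + 1 + m) → ℝ) → ℂ}
    {g : Fin N → Fin (n + 2 + 1 + m) → (Fin (n + 2 + 1 + m) → ℝ) → ℂ} (hu : ∀ i, WGradC (u i) (g i))
    (ho : ∀ i j, ∫ x, (starRingEnd ℂ) (u i x) * u j x = if i = j then 1 else 0) :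
    ∫⁻ v, Sr (n + 2) m (fun x => ∑ i, ‖u i x‖ ^ 2) v ^ pw n m ∂(nu (n + 2) m) ≤
      ENNReal.ofReal ((∑ i, ∑ k, ∫ x, ‖g i k x‖ ^ 2) / KK n m) := by
  have hsq : ∀ z : ℂ, ‖z‖ ^ 2 = z.re ^ 2 + z.im ^ 2 := by
    intro z
    rw [Complex.sq_norm, Complex.normSq_apply]; ring
  let F : Fin (N + N) → (Fin (n + 2 + 1 + m) → ℝ) → ℝ :=
    Fin.append (fun i x => (u i x).re) (fun i x => (u i x).im)
  let G : Fin (N + N) → Fin (n + 2 + 1 + m) → (Fin (n + 2 + 1 + m) → ℝ) → ℝ :=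
    Fin.append (fun i k x => (g i k x).re) (fun i k x => (g i k x).im)
  have hFl : ∀ i, F (Fin.castAdd N i) = fun x => (u i x).re := fun i => Fin.append_left _ _ i
  have hFr : ∀ i, F (Fin.natAdd N i) = fun x => (u i x).im := fun i => Fin.append_right _ _ i
  have hGl : ∀ i, G (Fin.castAdd N i) = fun k x => (g i k x).re := fun i => Fin.append_left _ _ i
  have hGr : ∀ i, G (Fin.natAdd N i) = fun k x => (g i k x).im := fun i => Fin.append_right _ _ i
  have hW : ∀ i, WGrad (F i) (G i) := by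
    intro i
    refine Fin.addCases (fun i => ?_) (fun i => ?_) i
    · rw [hFl, hGl]
      exact (split_complex (hu i)).1
    · rw [hFr, hGr]
      exact (split_complex (hu i)).2
  have hG : ∀ v : Fin (N + N) → ℝ, ∫ x, (∑ i, v i * F i x) ^ 2 ≤ ∑ i, v i ^ 2 := by
    intro v
    have h1 := gram_complex u (fun i => (hu i).f2) ho (fun i => v (Fin.castAdd N i))
      (fun i => v (Fin.natAdd N i))
    have h2 : ∀ x, ∑ i, v i * F i x = ∑ i : Fin N, (v (Fin.castAdd N i) * (u i x).re +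
        v (Fin.natAdd N i) * (u i x).im) := by
      intro x
      rw [Fin.sum_univ_add, Finset.sum_add_distrib]
      simp only [hFl, hFr]
    have h3 : ∑ i, v i ^ 2 = ∑ i : Fin N, (v (Fin.castAdd N i) ^ 2 + v (Fin.natAdd N i) ^ 2) := by
      rw [Fin.sum_univ_add, Finset.sum_add_distrib]
    simp only [h2]
    rw [h3]
    exact h1
  have hH := h1_phi (m := m) hn hW hG
  have hFs : ∀ x, ∑ i, F i x ^ 2 = ∑ i, ‖u i x‖ ^ 2 := by
    intro x
    rw [Fin.sum_univ_add, ← Finset.sum_add_distrib]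
    simp only [hFl, hFr, hsq]
  have hGs : ∀ x, ∑ j, ∑ i, G i j x ^ 2 = ∑ i, ∑ j, ‖g i j x‖ ^ 2 := by
    intro x
    rw [Finset.sum_comm, Fin.sum_univ_add, ← Finset.sum_add_distrib]
    refine Finset.sum_congr rfl fun i _ => ?_
    rw [← Finset.sum_add_distrib]
    simp only [hGl, hGr, hsq]
  have hI : ∀ i k, Integrable (fun x => ‖g i k x‖ ^ 2) := by
    intro i k
    have := (hu i).g2 k
    exact this.integrable_norm_pow two_ne_zero
  have hint : ∫ x, ∑ i, ∑ j, ‖g i j x‖ ^ 2 = ∑ i, ∑ k, ∫ x, ‖g i k x‖ ^ 2 := by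
    rw [integral_finsetSum _ (fun i _ => integrable_finsetSum _ (fun k _ => hI i k))]
    refine Finset.sum_congr rfl fun i _ => ?_
    rw [integral_finsetSum _ (fun k _ => hI i k)]
  simp only [hGs] at hH
  rw [hint] at hH
  refine le_trans (le_of_eq ?_) hH
  unfold Phi Sm Sr
  simp only [hFs]

end

section
variable {k m : ℕ}

/-- polar coordinates -/
theorem polar_ae {H : E (k + 1) × (Fin m → ℝ) → ℝ≥0∞} (hH : AEMeasurable H) :
    ∫⁻ x, H x = ∫⁻ v, ∫⁻ ω : Sp k, H (Psi k m (ω, v)) ∂(tau k) ∂(nu k m) := by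
  have hmp := Psi_mp k m
  have h1 : AEMeasurable (fun q => H (Psi k m q)) ((tau k).prod (nu k m)) :=
    hH.comp_quasiMeasurePreserving hmp.quasiMeasurePreserving
  have h2 : ∫⁻ x, H x = ∫⁻ q, H (Psi k m q) ∂((tau k).prod (nu k m)) := by
    conv_lhs => rw [← hmp.map_eq]
    rw [lintegral_map' (by rw [hmp.map_eq]; exact hH) hmp.measurable.aemeasurable]
  rw [h2, lintegral_prod_symm _ h1]

/-- the total measure of the sphere -/
theorem tau_mass (k : ℕ) : tau k univ = ENNReal.ofReal (sg (k + 1)) := by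
  rw [← tau_univ k, Measure.real, ENNReal.ofReal_toReal (measure_ne_top _ _)]

/-- polar coordinates on `ℝ^(k+1+m)` -/
theorem polar_TL {H : (Fin (k + 1 + m) → ℝ) → ℝ≥0∞} (hH : AEMeasurable H) :
    ∫⁻ x, H x = ∫⁻ v, ∫⁻ ω : Sp k, H (TL (k + 1) m (Psi k m (ω, v))) ∂(tau k) ∂(nu k m) := by
  have hmp := TL_mp (k + 1) m
  rw [← hmp.lintegral_comp_emb (TH (k + 1) m).measurableEmbedding]
  exact polar_ae (hH.comp_quasiMeasurePreserving hmp.quasiMeasurePreserving)

/-- the squared norm of the first variables, the last variables -/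
noncomputable def sq1 (a b : ℕ) (x : Fin (a + b) → ℝ) : ℝ := ∑ i : Fin a, x (Fin.castAdd b i) ^ 2

/-- the last variables -/
def lst (a b : ℕ) (x : Fin (a + b) → ℝ) : Fin b → ℝ := fun i => x (Fin.natAdd a i)

theorem sq1_TL (ω : Sp k) (v : V m) : sq1 (k + 1) m (TL (k + 1) m (Psi k m (ω, v))) = v 0 ^ 2 := by
  unfold sq1
  simp only [TL_left]
  have e : ∀ i, (Psi k m (ω, v)).1 i = v 0 * (ω : E (k + 1)) i := fun i => rfl
  have hw : ∑ i, (ω : E (k + 1)) i ^ 2 = 1 := by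
    rw [← EuclideanSpace.real_norm_sq_eq, sp_norm, one_pow]
  simp only [e, mul_pow]
  rw [← Finset.mul_sum, hw, mul_one]

theorem lst_TL (ω : Sp k) (v : V m) : lst (k + 1) m (TL (k + 1) m (Psi k m (ω, v))) = Fin.tail v := by
  funext i
  exact TL_right _ i

/-- integration of functions of `(|y|², z)` -/
theorem rad_int {φ : ℝ → (Fin m → ℝ) → ℝ≥0∞} {H : (Fin (k + 1 + m) → ℝ) → ℝ≥0∞} (hH : AEMeasurable H)
    (h : ∀ᵐ x, H x = φ (sq1 (k + 1) m x) (lst (k + 1) m x)) :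
    ∫⁻ x, H x = ENNReal.ofReal (sg (k + 1)) * ∫⁻ v : V m, φ (v 0 ^ 2) (Fin.tail v) ∂(nu k m) := by
  rw [polar_TL hH, ← lintegral_const_mul' _ _ ENNReal.ofReal_ne_top]
  have h1 : ∀ᵐ x : E (k + 1) × (Fin m → ℝ), H (TL (k + 1) m x) =
      φ (sq1 (k + 1) m (TL (k + 1) m x)) (lst (k + 1) m (TL (k + 1) m x)) :=
    (TL_mp (k + 1) m).quasiMeasurePreserving.ae h
  refine lintegral_congr_ae ((ae_polar h1).mono fun v hv => ?_)
  have h2 : ∫⁻ ω : Sp k, H (TL (k + 1) m (Psi k m (ω, v))) ∂(tau k) =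
      ∫⁻ _ω : Sp k, φ (v 0 ^ 2) (Fin.tail v) ∂(tau k) := by
    refine lintegral_congr_ae (hv.mono fun ω hω => ?_)
    show H (TL (k + 1) m (Psi k m (ω, v))) = _
    rw [hω, sq1_TL, lst_TL]
  show ∫⁻ ω : Sp k, H (TL (k + 1) m (Psi k m (ω, v))) ∂(tau k) = _
  rw [h2, lintegral_const, tau_mass, mul_comm]

end

end Pool.Agent.K7.H84.RD
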