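import Pool.Agent.K7.H4.LT.Driver

/-!
The numbers of the spherical harmonics, `k = n + 2`.
-/

set_option autoImplicit false

open Finset

namespace Pool.Agent.K7.H84.RD

/-- `PP n (l + 1)` is `k! / 2` times the number of the spherical harmonics of degree at most `l` -/
noncomputable def PP (n j : ℕ) : ℝ := ((j : ℝ) + n / 2) * (j.ascFactorial (n + 1) : ℕ)

/-- the squares of the shifted angular momenta -/
noncomputable def mu2 (n l : ℕ) : ℝ := ((l : ℝ) + (n + 1) / 2) ^ 2

/-- the constant `2 / k!` -/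
noncomputable def CC (n : ℕ) : ℝ := 2 / ((n + 2).factorial : ℝ)

/-- the number of the spherical harmonics of degree `l` -/
noncomputable def dd (n l : ℕ) : ℝ := CC n * (PP n (l + 1) - PP n l)

/-- the end points of the intervals -/
noncomputable def aa (n j : ℕ) : ℝ := PP n j ^ (2 / ((n : ℝ) + 2))

theorem CC_pos (n : ℕ) : 0 < CC n := by
  unfold CC
  positivity

theorem PP_zero (n : ℕ) : PP n 0 = 0 := by
  unfold PP
  have : (0 : ℕ).ascFactorial (n + 1) = 0 := by
    rw [Nat.zero_ascFactorial]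
  rw [this]
  simp

theorem PP_nonneg (n j : ℕ) : 0 ≤ PP n j := by
  unfold PP
  positivity

theorem PP_left (n l : ℕ) : PP n l = ((l : ℝ) + n / 2) * (l * ((l + 1).ascFactorial n : ℕ)) := by
  unfold PP
  have h := Nat.succ_ascFactorial l n
  have h2 : l.ascFactorial (n + 1) = (l + n) * l.ascFactorial n := Nat.ascFactorial_succ
  have h3 : l.ascFactorial (n + 1) = l * (l + 1).ascFactorial n := by
    rw [h2, ← h]
  rw [h3]
  push_cast
  ring

theorem PP_right (n l : ℕ) : PP n (l + 1) =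
    ((l : ℝ) + 1 + n / 2) * (((l : ℝ) + 1 + n) * ((l + 1).ascFactorial n : ℕ)) := by
  unfold PP
  have h2 : (l + 1).ascFactorial (n + 1) = (l + 1 + n) * (l + 1).ascFactorial n := Nat.ascFactorial_succ
  rw [h2]
  push_cast
  ring

theorem PP_diff (n l : ℕ) : PP n (l + 1) - PP n l =
    (n + 2) * ((l : ℝ) + (n + 1) / 2) * ((l + 1).ascFactorial n : ℕ) := by
  rw [PP_right, PP_left n l]
  ring

theorem PP_mono (n l : ℕ) : PP n l ≤ PP n (l + 1) := by
  have h := PP_diff n l
  have h2 : 0 ≤ (n + 2) * ((l : ℝ) + (n + 1) / 2) * ((l + 1).ascFactorial n : ℕ) := by positivity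
  linarith

theorem aa_zero (n : ℕ) : aa n 0 = 0 := by
  unfold aa
  rw [PP_zero, Real.zero_rpow]
  positivity

theorem aa_mono (n l : ℕ) : aa n l ≤ aa n (l + 1) := by
  unfold aa
  exact Real.rpow_le_rpow (PP_nonneg _ _) (PP_mono n l) (by positivity)

theorem aa_nonneg (n l : ℕ) : 0 ≤ aa n l := Real.rpow_nonneg (PP_nonneg _ _) _

theorem aa_pow (n l : ℕ) : aa n l ^ (((n : ℝ) + 2) / 2) = PP n l := by
  unfold aa
  rw [← Real.rpow_mul (PP_nonneg _ _)]
  have : 2 / ((n : ℝ) + 2) * ((n + 2) / 2) = 1 := by field_simp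
  rw [this, Real.rpow_one]

theorem aa_pow' (n l : ℕ) : aa n l ^ (((n : ℝ) + 2) / 2 + 1) = PP n l * aa n l := by
  rcases (aa_nonneg n l).eq_or_lt with h | h
  · rw [← h, Real.zero_rpow (by positivity), mul_zero]
  · rw [Real.rpow_add_one h.ne', aa_pow]

theorem dd_eq (n l : ℕ) : dd n l = CC n * (aa n (l + 1) ^ (((n : ℝ) + 2) / 2) - aa n l ^ (((n : ℝ) + 2) / 2)) := by
  rw [aa_pow, aa_pow]
  rfl

theorem sum_sq (n : ℕ) : ∀ y : ℝ, ∑ i ∈ range (n + 1), (y - i) ^ 2 =
    (n + 1) * y ^ 2 - n * (n + 1) * y + n * (n + 1) * (2 * n + 1) / 6 := by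
  intro y
  induction n with
  | zero => simp
  | succ n ih =>
    rw [sum_range_succ, ih]
    push_cast
    ring

/-- the inequality of the means -/
theorem aa_le (n l : ℕ) : aa n (l + 1) ≤ ((l : ℝ) + 1 + n / 2) ^ 2 - n * (n + 1) / 12 := by
  set x : ℝ := (l : ℝ) + 1 + n / 2 with hx
  set z : ℕ → ℝ := fun i => if i < n + 1 then ((l : ℝ) + 1 + i) * (l + 1 + n - i) else x ^ 2 with hz
  have hz0 : ∀ i ∈ range (n + 2), 0 ≤ z i := by
    intro i _
    simp only [hz]
    split_ifs with h
    · have h1 : (i : ℝ) ≤ n := by exact_mod_cast Nat.lt_succ_iff.1 h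
      apply mul_nonneg
      · positivity
      · linarith
    · positivity
  have hprod : ∏ i ∈ range (n + 2), z i = PP n (l + 1) ^ 2 := by
    rw [prod_range_succ]
    have h1 : z (n + 1) = x ^ 2 := by
      simp only [hz]
      rw [if_neg (lt_irrefl _)]
    have h2 : ∏ i ∈ range (n + 1), z i = ∏ i ∈ range (n + 1), (((l : ℝ) + 1 + i) * (l + 1 + n - i)) := by
      refine prod_congr rfl fun i hi => ?_
      simp only [hz]
      rw [if_pos (mem_range.1 hi)]
    have h3 : ∏ i ∈ range (n + 1), ((l : ℝ) + 1 + n - i) = ∏ i ∈ range (n + 1), ((l : ℝ) + 1 + i) := by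
      rw [← prod_range_reflect (fun i : ℕ => (l : ℝ) + 1 + i) (n + 1)]
      refine prod_congr rfl fun i hi => ?_
      have h4 : i ≤ n := Nat.lt_succ_iff.1 (mem_range.1 hi)
      have h5 : n + 1 - 1 - i = n - i := by omega
      rw [h5, Nat.cast_sub h4]
      ring
    have h4 : ((l + 1).ascFactorial (n + 1) : ℝ) = ∏ i ∈ range (n + 1), ((l : ℝ) + 1 + i) := by
      rw [Nat.ascFactorial_eq_prod_range]
      push_cast
      rfl
    rw [h1, h2, prod_mul_distrib, h3, PP, h4]
    push_cast
    rw [hx]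
    ring
  have hsum : ∑ i ∈ range (n + 2), z i = (n + 2) * (x ^ 2 - n * (n + 1) / 12) := by
    rw [sum_range_succ]
    have h1 : z (n + 1) = x ^ 2 := by
      simp only [hz]
      rw [if_neg (lt_irrefl _)]
    have h2 : ∑ i ∈ range (n + 1), z i = ∑ i ∈ range (n + 1), (x ^ 2 - ((n : ℝ) / 2 - i) ^ 2) := by
      refine sum_congr rfl fun i hi => ?_
      simp only [hz]
      rw [if_pos (mem_range.1 hi), hx]
      ring
    rw [h1, h2, sum_sub_distrib, sum_sq, sum_const, card_range]
    simp only [nsmul_eq_mul]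
    push_cast
    ring
  have h := Real.geom_mean_le_arith_mean (range (n + 2)) (fun _ => (1 : ℝ)) z (fun _ _ => zero_le_one)
    (by simp; positivity) hz0
  simp only [Real.rpow_one, one_mul, sum_const, card_range, nsmul_eq_mul, mul_one] at h
  rw [hprod, hsum] at h
  push_cast at h
  have h5 : (PP n (l + 1) ^ 2) ^ ((n : ℝ) + 2)⁻¹ = aa n (l + 1) := by
    unfold aa
    rw [← Real.rpow_natCast, ← Real.rpow_mul (PP_nonneg _ _)]
    congr 1
  rw [h5] at h
  have h6 : ((n : ℝ) + 2) * (x ^ 2 - n * (n + 1) / 12) / (n + 2) = x ^ 2 - n * (n + 1) / 12 := by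
    field_simp
  rwa [h6] at h

/-- **the cumulative inequality** -/
theorem cum {n : ℕ} (hn : 3 ≤ n) (j : ℕ) :
    CC n * (((n : ℝ) + 2) / 2 / (((n : ℝ) + 2) / 2 + 1)) * aa n j ^ (((n : ℝ) + 2) / 2 + 1) ≤
      ∑ l ∈ range j, dd n l * mu2 n l := by
  have hn' : (3 : ℝ) ≤ n := by exact_mod_cast hn
  have hq : ((n : ℝ) + 2) / 2 / (((n : ℝ) + 2) / 2 + 1) = (n + 2) / (n + 4) := by
    field_simp
    ring
  rw [hq, aa_pow']
  -- the comparison sequence
  have key : ∀ j : ℕ, CC n * (((n : ℝ) + 2) / (n + 4)) * (PP n j * (((j : ℝ) + n / 2) ^ 2 - n * (n + 1) / 12)) ≤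
      ∑ l ∈ range j, dd n l * mu2 n l := by
    intro j
    induction j with
    | zero =>
      rw [PP_zero]
      simp
    | succ j ih =>
      rw [sum_range_succ]
      refine le_trans ?_ (add_le_add_left ih _)
      have hC := CC_pos n
      unfold dd mu2
      rw [PP_diff]
      have hP : (0 : ℝ) ≤ ((j + 1).ascFactorial n : ℕ) := by positivity
      rw [PP_right, PP_left n j]
      push_cast
      set P : ℝ := (((j + 1).ascFactorial n : ℕ) : ℝ) with hPd
      set μ : ℝ := (j : ℝ) + (n + 1) / 2 with hμ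
      have hμ0 : 0 ≤ μ := by positivity
      have hj : (j : ℝ) = μ - (n + 1) / 2 := by rw [hμ]; ring
      rw [hj]
      have e : CC n * ((n + 2) * μ * P) * μ ^ 2 +
          CC n * (((n : ℝ) + 2) / (n + 4)) *
            ((μ - (n + 1) / 2 + n / 2) * ((μ - (n + 1) / 2) * P) *
              ((μ - (n + 1) / 2 + n / 2) ^ 2 - n * (n + 1) / 12)) -
          CC n * (((n : ℝ) + 2) / (n + 4)) *
            ((μ - (n + 1) / 2 + 1 + n / 2) * ((μ - (n + 1) / 2 + 1 + n) * P) *
              ((μ - (n + 1) / 2 + 1 + n / 2) ^ 2 - n * (n + 1) / 12)) =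
          CC n * (((n : ℝ) + 2) / (n + 4)) * P * μ * ((n + 2) * (n + 1) * n / 12 - (3 * n + 4) / 4) := by
        field_simp
        ring
      have h2 : 0 ≤ CC n * (((n : ℝ) + 2) / (n + 4)) * P * μ * ((n + 2) * (n + 1) * n / 12 - (3 * n + 4) / 4) := by
        have h3 : 0 ≤ ((n : ℝ) + 2) * (n + 1) * n / 12 - (3 * n + 4) / 4 := by nlinarith [mul_nonneg (sub_nonneg.2 hn') (sub_nonneg.2 hn')]
        positivity
      linarith
  cases j with
  | zero =>
    rw [PP_zero]
    simp
  | succ j =>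
    refine le_trans ?_ (key (j + 1))
    have hC := CC_pos n
    have h1 := aa_le n j
    have h2 := PP_nonneg n (j + 1)
    push_cast
    have h3 : PP n (j + 1) * aa n (j + 1) ≤ PP n (j + 1) * (((j : ℝ) + 1 + n / 2) ^ 2 - n * (n + 1) / 12) :=
      mul_le_mul_of_nonneg_left h1 h2
    exact mul_le_mul_of_nonneg_left h3 (by positivity)

theorem mu2_lt (n l : ℕ) : mu2 n l < mu2 n (l + 1) := by
  unfold mu2
  push_cast
  have : (0 : ℝ) ≤ l := Nat.cast_nonneg l
  have : (0 : ℝ) ≤ n := Nat.cast_nonneg n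
  nlinarith

open Pool.Agent.K7.H4.LT in
/-- the dimensions of the spaces of spherical harmonics -/
theorem finrank_le (n l : ℕ) : (Module.finrank ℝ (HH (n + 2 + 1) l) : ℝ) ≤ dd n l := by
  unfold dd CC
  rw [PP_diff]
  cases l with
  | zero =>
    have h := finrank_zero (n + 2)
    have h1 : (Module.finrank ℝ (HH (n + 2 + 1) 0) : ℝ) ≤ 1 := by exact_mod_cast h
    refine h1.trans (le_of_eq ?_)
    rw [zero_add, Nat.one_ascFactorial, Nat.factorial_succ, Nat.factorial_succ]
    push_cast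
    have : (n.factorial : ℝ) ≠ 0 := by positivity
    field_simp
    ring
  | succ l =>
    have h := finrank_HH (n + 2) l
    have h1 : (Module.finrank ℝ (HH (n + 2 + 1) (l + 1)) : ℝ) ≤
        ((n + 2 + (l + 1) - 1).choose (l + 1) : ℕ) + ((n + 2 + l - 1).choose l : ℕ) := by exact_mod_cast h
    refine h1.trans (le_of_eq ?_)
    have e1 : n + 2 + (l + 1) - 1 = (n + 1) + (l + 1) := by omega
    have e2 : n + 2 + l - 1 = (n + 1) + l := by omega
    rw [e1, e2, Nat.add_choose (n + 1) (l + 1), Nat.add_choose (n + 1) l]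
    have d1 : (n + 1).factorial * (l + 1).factorial ∣ (n + 1 + (l + 1)).factorial :=
      Nat.factorial_mul_factorial_dvd_factorial_add _ _
    have d2 : (n + 1).factorial * l.factorial ∣ (n + 1 + l).factorial :=
      Nat.factorial_mul_factorial_dvd_factorial_add _ _
    rw [Nat.cast_div d1 (by positivity), Nat.cast_div d2 (by positivity)]
    have e3 : ((l + 1 + 1).ascFactorial n : ℝ) = ((n + 1 + l).factorial : ℝ) / ((l + 1).factorial : ℝ) := by
      rw [eq_div_iff (by positivity)]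
      have := Nat.factorial_mul_ascFactorial (l + 1) n
      have h2 : l + 1 + n = n + 1 + l := by omega
      rw [h2] at this
      rw [mul_comm]
      exact_mod_cast this
    rw [e3]
    have e4 : (n + 1 + (l + 1)).factorial = (n + 1 + l + 1) * (n + 1 + l).factorial := Nat.factorial_succ _
    have e5 : (n + 2).factorial = (n + 2) * (n + 1).factorial := Nat.factorial_succ _
    have e6 : (l + 1).factorial = (l + 1) * l.factorial := Nat.factorial_succ _
    rw [e4, e5, e6]
    push_cast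
    have : (l.factorial : ℝ) ≠ 0 := by positivity
    have : ((n + 1).factorial : ℝ) ≠ 0 := by positivity
    have : ((n + 1 + l).factorial : ℝ) ≠ 0 := by positivity
    field_simp
    ring

end Pool.Agent.K7.H84.RD
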