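import Pool.Agent.K7.H84.RD.Eig
import Pool.Agent.K7.H84.RD.Abel
import Pool.Agent.K7.H84.RD.Num

/-!
The quadratic forms of the energy on spaces of functions on `ℝ × ℝ^m`.
-/

set_option autoImplicit false

open MeasureTheory Set Filter Topology Real
open scoped Matrix

namespace Pool.Agent.K7.H84.RD

open LTd (pd pd_basic)

section
variable {m : ℕ}

/-- the functions on `ℝ × ℝ^m` -/
abbrev X (m : ℕ) := (Fin (m + 1) → ℝ) → ℝ

/-- continuous functions with compact support -/
def CS (m : ℕ) : Submodule ℝ (X m) where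
  carrier := {f | Continuous f ∧ HasCompactSupport f}
  add_mem' := fun hf hg => ⟨hf.1.add hg.1, hf.2.add hg.2⟩
  zero_mem' := ⟨continuous_const, HasCompactSupport.zero⟩
  smul_mem' := fun _ _ hf => ⟨continuous_const.mul hf.1, hf.2.mul_left⟩

/-- continuously differentiable functions with compact support -/
def FF (m : ℕ) : Submodule ℝ (X m) where
  carrier := {f | ContDiff ℝ 1 f ∧ HasCompactSupport f}
  add_mem' := fun hf hg => ⟨hf.1.add hg.1, hf.2.add hg.2⟩
  zero_mem' := ⟨contDiff_const, HasCompactSupport.zero⟩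
  smul_mem' := fun _ _ hf => ⟨contDiff_const.mul hf.1, hf.2.mul_left⟩

/-- integrability of products -/
theorem cs_int {c : X m} (hc : Continuous c) {f g : X m} (hf : f ∈ CS m) (hg : g ∈ CS m) :
    Integrable fun x => c x * (f x * g x) := by
  refine Continuous.integrable_of_hasCompactSupport (hc.mul (hf.1.mul hg.1)) ?_
  exact (hf.2.mul_right (f' := g)).mul_left

/-- the form with the weight `c` -/
noncomputable def wf (c : X m) (hc : Continuous c) : CS m →ₗ[ℝ] CS m →ₗ[ℝ] ℝ :=
  LinearMap.mk₂ ℝ (fun f g => ∫ x, c x * (f.1 x * g.1 x))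
    (by
      intro f f' g
      rw [← integral_add (cs_int hc f.2 g.2) (cs_int hc f'.2 g.2)]
      refine integral_congr_ae (ae_of_all _ fun x => ?_)
      show c x * ((f.1 x + f'.1 x) * g.1 x) = _
      ring)
    (by
      intro r f g
      rw [smul_eq_mul, ← integral_const_mul]
      refine integral_congr_ae (ae_of_all _ fun x => ?_)
      show c x * ((r * f.1 x) * g.1 x) = _
      ring)
    (by
      intro f g g'
      rw [← integral_add (cs_int hc f.2 g.2) (cs_int hc f.2 g'.2)]
      refine integral_congr_ae (ae_of_all _ fun x => ?_)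
      show c x * (f.1 x * (g.1 x + g'.1 x)) = _
      ring)
    (by
      intro r f g
      rw [smul_eq_mul, ← integral_const_mul]
      refine integral_congr_ae (ae_of_all _ fun x => ?_)
      show c x * (f.1 x * (r * g.1 x)) = _
      ring)

theorem wf_apply (c : X m) (hc : Continuous c) (f g : CS m) :
    wf c hc f g = ∫ x, c x * (f.1 x * g.1 x) := rfl

theorem wf_symm (c : X m) (hc : Continuous c) (f g : CS m) : wf c hc f g = wf c hc g f := by
  rw [wf_apply, wf_apply]
  refine integral_congr_ae (ae_of_all _ fun x => ?_)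
  show c x * (f.1 x * g.1 x) = c x * (g.1 x * f.1 x)
  ring

/-- the partial derivative -/
noncomputable def pdL (k : Fin (m + 1)) : FF m →ₗ[ℝ] CS m where
  toFun f := ⟨pd k f.1, pd_basic f.2.1 f.2.2 k⟩
  map_add' f g := by
    refine Subtype.ext (funext fun x => ?_)
    show fderiv ℝ (f.1 + g.1) x _ = fderiv ℝ f.1 x _ + fderiv ℝ g.1 x _
    rw [fderiv_add (f.2.1.differentiable one_ne_zero x) (g.2.1.differentiable one_ne_zero x)]
    rfl
  map_smul' r f := by
    refine Subtype.ext (funext fun x => ?_)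
    show fderiv ℝ (r • f.1) x _ = r * fderiv ℝ f.1 x _
    rw [fderiv_const_smul (f.2.1.differentiable one_ne_zero x)]
    rfl

/-- the inclusion -/
def inc (m : ℕ) : FF m →ₗ[ℝ] CS m where
  toFun f := ⟨f.1, f.2.1.continuous, f.2.2⟩
  map_add' _ _ := rfl
  map_smul' _ _ := rfl

theorem ce1 : Continuous (fun z : Fin (m + 1) → ℝ => exp (2 * z 0)) := ce 2

/-- `∫ f g` -/
noncomputable def f0 (m : ℕ) : FF m →ₗ[ℝ] FF m →ₗ[ℝ] ℝ :=
  (wf (m := m) (fun _ => 1) continuous_const).compl₁₂ (inc m) (inc m)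

/-- `∫ e^(2t) f g` -/
noncomputable def f1 (m : ℕ) : FF m →ₗ[ℝ] FF m →ₗ[ℝ] ℝ :=
  (wf (m := m) (fun z => exp (2 * z 0)) ce1).compl₁₂ (inc m) (inc m)

/-- the energy -/
noncomputable def fe (m : ℕ) : FF m →ₗ[ℝ] FF m →ₗ[ℝ] ℝ :=
  (wf (m := m) (fun _ => 1) continuous_const).compl₁₂ (pdL 0) (pdL 0) +
    ∑ k : Fin m, (wf (m := m) (fun z => exp (2 * z 0)) ce1).compl₁₂ (pdL k.succ) (pdL k.succ)

/-- the potential -/
noncomputable def fw (W : X m) (hW : Continuous W) : FF m →ₗ[ℝ] FF m →ₗ[ℝ] ℝ :=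
  (wf (m := m) (fun z => exp (2 * z 0) * W z) (ce1.mul hW)).compl₁₂ (inc m) (inc m)

theorem f0_apply (f g : FF m) : f0 m f g = ∫ x, f.1 x * g.1 x := by
  show ∫ x, (1 : ℝ) * (f.1 x * g.1 x) = _
  simp

theorem f1_apply (f g : FF m) : f1 m f g = ∫ x, exp (2 * x 0) * (f.1 x * g.1 x) := rfl

theorem fw_apply {W : X m} (hW : Continuous W) (f g : FF m) :
    fw W hW f g = ∫ x, exp (2 * x 0) * W x * (f.1 x * g.1 x) := rfl

theorem fe_apply (f : FF m) : fe m f f = ∫ x, en f.1 x := by
  have h : fe m f f = (∫ x, (1 : ℝ) * (pd 0 f.1 x * pd 0 f.1 x)) +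
      ∑ k : Fin m, ∫ x, exp (2 * x 0) * (pd k.succ f.1 x * pd k.succ f.1 x) := by
    unfold fe
    rw [LinearMap.add_apply, LinearMap.add_apply, LinearMap.sum_apply, LinearMap.sum_apply]
    rfl
  have hA : Integrable fun x => (1 : ℝ) * (pd 0 f.1 x * pd 0 f.1 x) :=
    cs_int continuous_const (pdL 0 f).2 (pdL 0 f).2
  have hB : ∀ k : Fin m, Integrable fun x => exp (2 * x 0) * (pd k.succ f.1 x * pd k.succ f.1 x) :=
    fun k => cs_int ce1 (pdL k.succ f).2 (pdL k.succ f).2
  rw [h, ← integral_finsetSum _ fun k _ => hB k, ← integral_add hA (integrable_finsetSum _ fun k _ => hB k)]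
  refine integral_congr_ae (ae_of_all _ fun x => ?_)
  show 1 * (pd 0 f.1 x * pd 0 f.1 x) + ∑ k : Fin m, exp (2 * x 0) * (pd k.succ f.1 x * pd k.succ f.1 x) = en f.1 x
  unfold en
  rw [Finset.mul_sum]
  congr 1
  · ring
  · refine Finset.sum_congr rfl fun k _ => ?_
    ring

theorem f0_symm (f g : FF m) : f0 m f g = f0 m g f := wf_symm _ continuous_const _ _
theorem f1_symm (f g : FF m) : f1 m f g = f1 m g f := wf_symm _ ce1 _ _
theorem fw_symm {W : X m} (hW : Continuous W) (f g : FF m) : fw W hW f g = fw W hW g f :=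
  wf_symm _ (ce1.mul hW) _ _
theorem fe_symm (f g : FF m) : fe m f g = fe m g f := by
  unfold fe
  simp only [LinearMap.add_apply, LinearMap.sum_apply, LinearMap.compl₁₂_apply]
  congr 1
  · exact wf_symm _ continuous_const _ _
  · exact Finset.sum_congr rfl fun k _ => wf_symm _ ce1 _ _

theorem wpos {c : X m} (hc : Continuous c) (hp : ∀ x, 0 < c x) {f : FF m} (hf : f ≠ 0) :
    0 < ∫ x, c x * (f.1 x * f.1 x) := by
  obtain ⟨x, hx⟩ : ∃ x, f.1 x ≠ 0 := by
    by_contra h
    push Not at h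
    exact hf (Subtype.ext (funext h))
  have hcont : Continuous fun x => c x * (f.1 x * f.1 x) := hc.mul (f.2.1.continuous.mul f.2.1.continuous)
  refine hcont.integral_pos_of_hasCompactSupport_nonneg_nonzero
    ((f.2.2.mul_right (f' := f.1)).mul_left) (fun y => ?_) (x := x) ?_
  · exact mul_nonneg (hp y).le (mul_self_nonneg _)
  · exact mul_ne_zero (hp x).ne' (mul_self_ne_zero.2 hx)

theorem f0_pos {f : FF m} (hf : f ≠ 0) : 0 < f0 m f f := by
  have h := wpos (c := fun _ => (1 : ℝ)) continuous_const (fun _ => one_pos) hf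
  exact h

theorem f1_pos {f : FF m} (hf : f ≠ 0) : 0 < f1 m f f :=
  wpos ce1 (fun _ => exp_pos _) hf

end

theorem tele {D δ w : ℝ} (hD : 1 ≤ D) (hδ : 0 < δ) (hw : 0 ≤ w) (Q : ℕ) :
    δ * ∑ q ∈ Finset.range Q, max (w - δ * q) 0 ^ D ≤ δ * w ^ D + w ^ (D + 1) / (D + 1) := by
  have hD0 : 0 < D := by linarith
  have key : ∀ Q : ℕ, δ * ∑ q ∈ Finset.range (Q + 1), max (w - δ * q) 0 ^ D ≤
      δ * w ^ D + (w ^ (D + 1) - max (w - δ * Q) 0 ^ (D + 1)) / (D + 1) := by
    intro Q
    induction Q with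
    | zero =>
      simp only [zero_add, Finset.sum_range_one, Nat.cast_zero, mul_zero, sub_zero]
      rw [max_eq_left hw]
      simp
    | succ Q ih =>
      rw [Finset.sum_range_succ, mul_add]
      have h1 : δ * max (w - δ * ((Q + 1 : ℕ) : ℝ)) 0 ^ D ≤
          (max (w - δ * Q) 0 ^ (D + 1) - max (w - δ * ((Q + 1 : ℕ) : ℝ)) 0 ^ (D + 1)) / (D + 1) := by
        push_cast
        set b := w - δ * ((Q : ℝ) + 1) with hb
        have ha : w - δ * Q = b + δ := by rw [hb]; ring
        rw [ha]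
        rcases le_or_gt b 0 with h | h
        · rw [max_eq_right h, Real.zero_rpow hD0.ne', Real.zero_rpow (by linarith : D + 1 ≠ 0)]
          have : 0 ≤ max (b + δ) 0 ^ (D + 1) := Real.rpow_nonneg (le_max_right _ _) _
          rw [mul_zero, sub_zero]
          positivity
        · rw [max_eq_left h.le, max_eq_left (by linarith), le_div_iff₀ (by linarith)]
          have h2 := one_add_mul_self_le_rpow_one_add (s := δ / b) (by
            have : 0 < δ / b := by positivity
            linarith) (p := D + 1) (by linarith)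
          have h3 : b + δ = b * (1 + δ / b) := by field_simp
          rw [h3, Real.mul_rpow h.le (by positivity)]
          have h4 : b ^ (D + 1) = b ^ D * b := Real.rpow_add_one h.ne' _
          have h5 : 0 < b ^ (D + 1) := Real.rpow_pos_of_pos h _
          have h6 := mul_le_mul_of_nonneg_left h2 h5.le
          have h7 : b ^ (D + 1) * (1 + (D + 1) * (δ / b)) = b ^ (D + 1) + δ * b ^ D * (D + 1) := by
            rw [h4]
            field_simp
          linarith
      have h8 : (w ^ (D + 1) - max (w - δ * Q) 0 ^ (D + 1)) / (D + 1) +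
          (max (w - δ * Q) 0 ^ (D + 1) - max (w - δ * ((Q + 1 : ℕ) : ℝ)) 0 ^ (D + 1)) / (D + 1) =
          (w ^ (D + 1) - max (w - δ * ((Q + 1 : ℕ) : ℝ)) 0 ^ (D + 1)) / (D + 1) := by
        rw [← add_div]
        congr 1
        ring
      linarith
  rcases Nat.eq_zero_or_pos Q with h | h
  · subst h
    simp only [Finset.range_zero, Finset.sum_empty, mul_zero]
    have : 0 ≤ w ^ D := Real.rpow_nonneg hw _
    have : 0 ≤ w ^ (D + 1) := Real.rpow_nonneg hw _
    positivity
  · obtain ⟨Q', rfl⟩ : ∃ Q', Q = Q' + 1 := ⟨Q - 1, by omega⟩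
    refine (key Q').trans ?_
    have : 0 ≤ max (w - δ * Q') 0 ^ (D + 1) := Real.rpow_nonneg (le_max_right _ _) _
    have h2 : (w ^ (D + 1) - max (w - δ * Q') 0 ^ (D + 1)) / (D + 1) ≤ w ^ (D + 1) / (D + 1) :=
      div_le_div_of_nonneg_right (by linarith) (by linarith)
    linarith

end Pool.Agent.K7.H84.RD
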