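import Pool.Agent.K7.H84.RD.Core
import Pool.Agent.R117.RL.Cst

/-!
The kinetic inequality for all angular momenta.
-/

set_option autoImplicit false

open MeasureTheory Set Filter Topology Real Module
open scoped Matrix

namespace Pool.Agent.K7.H84.RD

open Pool.Agent.R117.RL (om sg Kcl Ga om_sq om_pos sg_pos Ga_pos)

theorem om_eq {d : ℕ} (hd : 0 < d) : om d = √π ^ d / Ga d := by
  have h1 := om_sq hd
  have h2 := om_pos d
  have h3 := Ga_pos d
  have h4 : (√π ^ d / Ga d) ^ 2 = om d ^ 2 := by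
    rw [h1, div_pow, ← pow_mul, mul_comm d 2, pow_mul, Real.sq_sqrt Real.pi_pos.le]
  have h5 : 0 < √π ^ d / Ga d := by positivity
  exact ((sq_eq_sq₀ h5.le h2.le).1 h4).symm

/-- the identity of the constants -/
theorem cst_id (n m : ℕ) :
    CC n * LL (((n : ℝ) + 2) / 2) m * (2 * π) ^ (n + 3 + m) = sg (n + 3) * om (n + 3 + m) := by
  set s := √π with hs
  have hs0 : 0 < s := Real.sqrt_pos.2 Real.pi_pos
  have hπ : π = s ^ 2 := (Real.sq_sqrt Real.pi_pos.le).symm
  set A := Gamma (((n : ℝ) + 3) / 2) with hA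
  set B := Gamma (((n : ℝ) + 4) / 2) with hB
  have hA0 : 0 < A := Real.Gamma_pos_of_pos (by positivity)
  have hB0 : 0 < B := Real.Gamma_pos_of_pos (by positivity)
  have hF0 : (0 : ℝ) < ((n + 2).factorial : ℝ) := by exact_mod_cast Nat.factorial_pos _
  have hG0 := Ga_pos (n + 3 + m)
  -- the duplication formula
  have key : A * B * 2 ^ (n + 2) = ((n + 2).factorial : ℝ) * s := by
    have h1 := Real.Gamma_mul_Gamma_add_half (((n : ℝ) + 3) / 2)
    have h2 : ((n : ℝ) + 3) / 2 + 1 / 2 = ((n : ℝ) + 4) / 2 := by ring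
    have h3 : 2 * (((n : ℝ) + 3) / 2) = ((n + 2 : ℕ) : ℝ) + 1 := by push_cast; ring
    rw [h2, h3, Real.Gamma_nat_eq_factorial] at h1
    have h4 : (2 : ℝ) ^ (1 - (((n + 2 : ℕ) : ℝ) + 1)) = ((2 : ℝ) ^ (n + 2))⁻¹ := by
      rw [show (1 - (((n + 2 : ℕ) : ℝ) + 1)) = -((n + 2 : ℕ) : ℝ) by ring,
        Real.rpow_neg (by norm_num), Real.rpow_natCast]
    rw [h4] at h1
    rw [← hA, ← hB, ← hs] at h1
    rw [h1]
    field_simp
  have hBe : B = ((n + 2).factorial : ℝ) * s / (A * 2 ^ (n + 2)) := by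
    rw [eq_div_iff (by positivity)]
    linarith
  -- the surface
  have hsg : sg (n + 3) = 2 * s ^ (n + 3) / A := by
    unfold sg
    rw [om_eq (by omega)]
    have h1 : Ga (n + 3) = ((n : ℝ) + 3) / 2 * A := by
      unfold Ga
      rw [show (((n + 3 : ℕ) : ℝ) / 2 + 1) = ((n : ℝ) + 3) / 2 + 1 by push_cast; ring,
        Real.Gamma_add_one (by positivity)]
    rw [h1, ← hs]
    push_cast
    field_simp
  -- the eigenvalue constant
  have hLL : LL (((n : ℝ) + 2) / 2) m = B / ((2 * s) ^ (m + 1) * Ga (n + 3 + m)) := by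
    unfold LL
    have h1 : ((n : ℝ) + 2) / 2 + 1 = ((n : ℝ) + 4) / 2 := by ring
    have h2 : ((n : ℝ) + 4) / 2 + ((m + 1 : ℕ) : ℝ) / 2 = (((n + 3 + m : ℕ) : ℝ) / 2 + 1) := by
      push_cast; ring
    have h3 : (4 * π) ^ (((m + 1 : ℕ) : ℝ) / 2) = (2 * s) ^ (m + 1) := by
      have h4 : 4 * π = (2 * s) ^ (2 : ℝ) := by
        rw [hπ, Real.rpow_two]
        ring
      rw [h4, ← Real.rpow_mul (by positivity), ← Real.rpow_natCast]
      congr 1
      ring
    rw [h1, h2, h3]
    rfl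
  rw [hLL, hsg, om_eq (by omega), ← hs, hπ, hBe]
  unfold CC
  field_simp
  ring

/-- the semiclassical constant -/
theorem Kcl_eq (n m : ℕ) :
    Kcl (n + 3 + m) = DD n m / (DD n m + 1) *
      (sg (n + 3) / (CC n * LL (((n : ℝ) + 2) / 2) m)) ^ (1 / DD n m) := by
  have h1 := cst_id n m
  have hC := CC_pos n
  have hLL := LL_nonneg (g := ((n : ℝ) + 2) / 2) (by positivity) m
  have hom := om_pos (n + 3 + m)
  have hsg : 0 < sg (n + 3) := sg_pos (by omega)
  have hD := DD_ge n m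
  have hd : ((n + 3 + m : ℕ) : ℝ) = 2 * DD n m := by
    unfold DD
    push_cast
    ring
  have h2 : sg (n + 3) / (CC n * LL (((n : ℝ) + 2) / 2) m) = (2 * π) ^ (n + 3 + m) / om (n + 3 + m) := by
    rw [div_eq_div_iff (by positivity) hom.ne']
    linarith
  rw [h2, Real.div_rpow (by positivity) hom.le, ← Real.rpow_natCast, ← Real.rpow_mul (by positivity)]
  unfold Kcl
  rw [hd]
  have h3 : 2 * DD n m * (1 / DD n m) = 2 := by
    field_simp
  have h4 : (2 : ℝ) / (2 * DD n m) = 1 / DD n m := by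
    field_simp
  rw [h3, h4, Real.rpow_two]
  congr 1
  field_simp

section
variable {m n N : ℕ} {J : Type} [Fintype J]

/-- **the kinetic inequality for all angular momenta** -/
theorem kin (hn : 3 ≤ n) {dg : J → ℕ}
    (hmul : ∀ l, ((Finset.univ.filter fun j => dg j = l).card : ℝ) ≤ dd n l)
    {v : J → Fin N → X m} (hv : ∀ j i, v j i ∈ FF m)
    (hgram : ∀ a : Fin N → ℝ, ∑ j, ∫ x, exp (2 * x 0) * (∑ i, a i * v j i x) ^ 2 ≤ ∑ i, a i ^ 2) :
    Kcl (n + 3 + m) * (sg (n + 3) * ∫ x : Fin (m + 1) → ℝ, exp (((n : ℝ) + 3) * x 0) *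
        (exp (-(((n : ℝ) + 1) * x 0)) * (∑ j, ∑ i, v j i x ^ 2) / sg (n + 3)) ^
          (1 + 2 / ((n + 3 + m : ℕ) : ℝ))) ≤
      ∑ j, ∑ i, ((∫ x, en (v j i) x) + mu2 n (dg j) * ∫ x, v j i x ^ 2) := by
  have hC := CC_pos n
  have hLL := LL_nonneg (g := ((n : ℝ) + 2) / 2) (by positivity) m
  have hsg : 0 < sg (n + 3) := sg_pos (by omega)
  have hDge := DD_ge n m
  have hD0 : 0 < DD n m := by linarith
  have hd : ((n + 3 + m : ℕ) : ℝ) = 2 * DD n m := by
    unfold DD
    push_cast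
    ring
  have hp : 1 + 2 / ((n + 3 + m : ℕ) : ℝ) = 1 + 1 / DD n m := by
    rw [hd]
    field_simp
  rw [hp, Kcl_eq]
  set σ := sg (n + 3) with hσ
  set A := CC n * LL (((n : ℝ) + 2) / 2) m with hA
  have hA0 : 0 < A := by positivity
  set D := DD n m with hD
  set θ := (σ / A) ^ (1 / D) with hθ
  have hθ0 : 0 < θ := by positivity
  have hθD : θ ^ (D + 1) = θ * (σ / A) := by
    rw [Real.rpow_add_one hθ0.ne', mul_comm]
    congr 1
    rw [hθ, ← Real.rpow_mul (by positivity), one_div_mul_cancel hD0.ne', Real.rpow_one]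
  set F : X m := fun x => ∑ j, ∑ i, v j i x ^ 2 with hF
  set R : X m := fun x => exp (-(((n : ℝ) + 1) * x 0)) * F x / σ with hR
  have hFc : Continuous F := continuous_finsetSum _ fun j _ => continuous_finsetSum _ fun i _ =>
    (hv j i).1.continuous.pow 2
  have hF0 : ∀ x, 0 ≤ F x := fun x => Finset.sum_nonneg fun j _ => Finset.sum_nonneg fun i _ => sq_nonneg _
  have hFs : HasCompactSupport F := by
    have h1 : F ∈ CS m := by
      have h2 : F = ∑ j, ∑ i, fun x => v j i x ^ 2 := by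
        funext x
        simp [hF]
      rw [h2]
      refine Submodule.sum_mem _ fun j _ => Submodule.sum_mem _ fun i _ => ?_
      exact ⟨(hv j i).1.continuous.pow 2, (hv j i).2.comp_left (g := fun t : ℝ => t ^ 2) (by norm_num)⟩
    exact h1.2
  have hRc : Continuous R := ((Real.continuous_exp.comp
    (continuous_const.mul (continuous_apply 0)).neg).mul hFc).div_const _
  have hR0 : ∀ x, 0 ≤ R x := fun x => div_nonneg (mul_nonneg (exp_pos _).le (hF0 x)) hsg.le
  have hRs : HasCompactSupport R := by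
    have h1 : HasCompactSupport fun x : Fin (m + 1) → ℝ => exp (-(((n : ℝ) + 1) * x 0)) * F x := hFs.mul_left
    exact h1.comp_left (g := fun t : ℝ => t / σ) (by simp)
  have hD1 : 0 < 1 / D := by positivity
  set W : X m := fun x => θ * R x ^ (1 / D) with hW
  have hWc : Continuous W := continuous_const.mul (hRc.rpow_const fun _ => Or.inr hD1.le)
  have hWs : HasCompactSupport W := by
    have h1 : HasCompactSupport fun x => R x ^ (1 / D) :=
      hRs.comp_left (g := fun t : ℝ => t ^ (1 / D)) (Real.zero_rpow hD1.ne')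
    exact h1.mul_left
  have hW0 : ∀ x, 0 ≤ W x := fun x => mul_nonneg hθ0.le (Real.rpow_nonneg (hR0 x) _)
  have h := core hn hmul hv hgram hWc hWs hW0
  rw [← hA, ← hD] at h
  set I := ∫ x : Fin (m + 1) → ℝ, exp (((n : ℝ) + 3) * x 0) * R x ^ (1 + 1 / D) with hI
  have e1 : ∫ x, exp (2 * x 0) * W x * ∑ j, ∑ i, v j i x ^ 2 = θ * σ * I := by
    rw [hI, ← integral_const_mul]
    refine integral_congr_ae (ae_of_all _ fun x => ?_)
    show exp (2 * x 0) * (θ * R x ^ (1 / D)) * F x = θ * σ * (exp (((n : ℝ) + 3) * x 0) * R x ^ (1 + 1 / D))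
    rw [Real.rpow_one_add' (hR0 x) (by positivity)]
    have h1 : F x = σ * exp (((n : ℝ) + 1) * x 0) * R x := by
      show F x = σ * exp (((n : ℝ) + 1) * x 0) * (exp (-(((n : ℝ) + 1) * x 0)) * F x / σ)
      rw [Real.exp_neg]
      field_simp
    have h2 : exp (((n : ℝ) + 3) * x 0) = exp (2 * x 0) * exp (((n : ℝ) + 1) * x 0) := by
      rw [← Real.exp_add]
      congr 1
      ring
    rw [h2]
    linear_combination exp (2 * x 0) * (θ * R x ^ (1 / D)) * h1
  have e2 : ∫ x : Fin (m + 1) → ℝ, exp (((n : ℝ) + 3) * x 0) * W x ^ (D + 1) = θ * (σ / A) * I := by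
    rw [hI, ← integral_const_mul]
    refine integral_congr_ae (ae_of_all _ fun x => ?_)
    show exp (((n : ℝ) + 3) * x 0) * (θ * R x ^ (1 / D)) ^ (D + 1) =
      θ * (σ / A) * (exp (((n : ℝ) + 3) * x 0) * R x ^ (1 + 1 / D))
    rw [Real.mul_rpow hθ0.le (Real.rpow_nonneg (hR0 x) _), hθD, ← Real.rpow_mul (hR0 x)]
    have h1 : 1 / D * (D + 1) = 1 + 1 / D := by
      field_simp
    rw [h1]
    ring
  rw [e1, e2] at h
  have h3 : θ * σ * I - A / (D + 1) * (θ * (σ / A) * I) = D / (D + 1) * θ * (σ * I) := by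
    have : D + 1 ≠ 0 := by positivity
    field_simp
    ring
  rw [h3] at h
  exact h

end

end Pool.Agent.K7.H84.RD
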