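import Pool.Agent.K7.H84.RD.Forms
import Pool.Agent.K7.H4.LT.Driver

/-!
Logarithmic coordinates in the half space.
-/

set_option autoImplicit false

open MeasureTheory Set Filter Topology Real
open scoped ENNReal

namespace Pool.Agent.K7.H84.RD

open LTd (pd pd_basic)
open Pool.Agent.K7.H4.LT (V HS HS_open HS_meas nu nu_ae nu_lint' slice_lint)

variable {m : ℕ}

/-- the map `(t, z) ↦ (e^t, z)` -/
noncomputable def lgm (x : V m) : V m := Fin.cons (exp (x 0)) (Fin.tail x)

theorem lgm_zero (x : V m) : lgm x 0 = exp (x 0) := rfl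

theorem lgm_succ (x : V m) (j : Fin m) : lgm x j.succ = x j.succ := rfl

theorem lgm_mem (x : V m) : lgm x ∈ HS m := exp_pos _

/-- the derivative -/
noncomputable def lgm' (x : V m) : V m →L[ℝ] V m :=
  ContinuousLinearMap.pi fun i => Fin.cases
    (motive := fun _ => V m →L[ℝ] ℝ)
    (exp (x 0) • (ContinuousLinearMap.proj 0 : V m →L[ℝ] ℝ))
    (fun j => (ContinuousLinearMap.proj j.succ : V m →L[ℝ] ℝ)) i

theorem lgm_deriv (x : V m) : HasFDerivAt (lgm (m := m)) (lgm' x) x := by
  rw [hasFDerivAt_pi']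
  intro i
  refine Fin.cases ?_ (fun j => ?_) i
  · have h1 : HasFDerivAt (fun y : V m => y 0) (ContinuousLinearMap.proj 0 : V m →L[ℝ] ℝ) x :=
      (ContinuousLinearMap.proj (R := ℝ) (φ := fun _ : Fin (m + 1) => ℝ) 0).hasFDerivAt
    exact h1.exp
  · exact (ContinuousLinearMap.proj (R := ℝ) (φ := fun _ : Fin (m + 1) => ℝ) j.succ).hasFDerivAt

theorem lgm_smooth : ContDiff ℝ 1 (lgm (m := m)) := by
  rw [contDiff_pi]
  intro i
  refine Fin.cases ?_ (fun j => ?_) i
  · exact (contDiff_apply ℝ ℝ (0 : Fin (m + 1))).exp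
  · exact contDiff_apply ℝ ℝ j.succ

theorem lgm_cont : Continuous (lgm (m := m)) := lgm_smooth.continuous

theorem lgm'_zero (x : V m) : lgm' x (Pi.single 0 1) = exp (x 0) • (Pi.single 0 1 : V m) := by
  funext l
  refine Fin.cases ?_ (fun j => ?_) l
  · show (exp (x 0) • (ContinuousLinearMap.proj 0 : V m →L[ℝ] ℝ)) (Pi.single 0 1) = _
    simp
  · show (ContinuousLinearMap.proj j.succ : V m →L[ℝ] ℝ) (Pi.single 0 1) = _
    simp

theorem lgm'_succ (x : V m) (j : Fin m) : lgm' x (Pi.single j.succ 1) = (Pi.single j.succ 1 : V m) := by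
  funext l
  refine Fin.cases ?_ (fun i => ?_) l
  · show (exp (x 0) • (ContinuousLinearMap.proj 0 : V m →L[ℝ] ℝ)) (Pi.single j.succ 1) = _
    simp
  · rfl

/-- the integral in logarithmic coordinates -/
theorem nu_log_lint (k : ℕ) {F : V m → ℝ≥0∞} (hF : Measurable F) :
    ∫⁻ v, F v ∂(nu k m) = ∫⁻ x : V m, ENNReal.ofReal (exp (((k : ℝ) + 1) * x 0)) * F (lgm x) := by
  rw [nu_lint' hF, slice_lint]
  · refine lintegral_congr fun z => ?_
    have himg : Ioi (0 : ℝ) = exp '' univ := by
      rw [image_univ, Real.range_exp]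
    rw [himg, lintegral_image_eq_lintegral_abs_deriv_mul MeasurableSet.univ
      (f' := fun t => exp t) (fun t _ => (Real.hasDerivAt_exp t).hasDerivWithinAt)
      (Real.exp_injective.injOn)]
    rw [Measure.restrict_univ]
    refine lintegral_congr fun t => ?_
    have e1 : lgm (Fin.cons t z : V m) = Fin.cons (exp t) z := by
      unfold lgm
      rw [Fin.cons_zero, Fin.tail_cons]
    rw [e1, Fin.cons_zero, abs_of_pos (exp_pos t), ← mul_assoc, ← ENNReal.ofReal_mul (exp_pos t).le]
    congr 2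
    rw [← Real.exp_nat_mul, ← Real.exp_add]
    congr 1
    ring
  · refine Measurable.mul ?_ (hF.comp lgm_cont.measurable)
    exact (Real.continuous_exp.comp (continuous_const.mul (continuous_apply 0))).measurable.ennreal_ofReal

/-- the integral in logarithmic coordinates -/
theorem nu_log (k : ℕ) {F : V m → ℝ} (hF : Measurable F) (h0 : ∀ v ∈ HS m, 0 ≤ F v) :
    ∫ v, F v ∂(nu k m) = ∫ x : V m, exp (((k : ℝ) + 1) * x 0) * F (lgm x) := by
  have hc : Measurable fun x : V m => exp (((k : ℝ) + 1) * x 0) :=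
    (Real.continuous_exp.comp (continuous_const.mul (continuous_apply 0))).measurable
  rw [integral_eq_lintegral_of_nonneg_ae ((nu_ae k m).mono fun v hv => h0 v hv) hF.aestronglyMeasurable,
    integral_eq_lintegral_of_nonneg_ae
      (ae_of_all _ fun x => mul_nonneg (exp_pos _).le (h0 _ (lgm_mem x)))
      (hc.mul (hF.comp lgm_cont.measurable)).aestronglyMeasurable,
    nu_log_lint k hF.ennreal_ofReal]
  congr 1
  refine lintegral_congr fun x => ?_
  rw [ENNReal.ofReal_mul (exp_pos _).le]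

theorem nu_integrable (k : ℕ) {F : V m → ℝ} (hF : Measurable F) (h0 : ∀ v ∈ HS m, 0 ≤ F v)
    (hi : Integrable fun x : V m => exp (((k : ℝ) + 1) * x 0) * F (lgm x)) : Integrable F (nu k m) := by
  refine ⟨hF.aestronglyMeasurable, ?_⟩
  rw [hasFiniteIntegral_iff_ofReal ((nu_ae k m).mono fun v hv => h0 v hv), nu_log_lint k hF.ennreal_ofReal]
  have h1 := hi.2
  rw [hasFiniteIntegral_iff_ofReal
    (ae_of_all _ fun x => mul_nonneg (exp_pos _).le (h0 _ (lgm_mem x)))] at h1
  refine lt_of_le_of_lt (le_of_eq ?_) h1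
  refine lintegral_congr fun x => ?_
  rw [ENNReal.ofReal_mul (exp_pos _).le]

/-- the profile in logarithmic coordinates -/
noncomputable def vv (b : ℝ) (G : V m → ℝ) : X m := fun x => exp (b * x 0) * G (lgm x)

/-- functions with compact support in the half space -/
structure PF (m : ℕ) (G : V m → ℝ) : Prop where
  smooth : ContDiff ℝ 1 G
  supp : HasCompactSupport G
  sub : tsupport G ⊆ HS m

theorem PF.comp_supp {G : V m → ℝ} (h : PF m G) : HasCompactSupport fun x => G (lgm x) := by
  set ψ : V m → V m := fun v => Fin.cons (Real.log (v 0)) (Fin.tail v) with hψ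
  have hc : ContinuousOn ψ (tsupport G) := by
    rw [continuousOn_pi]
    intro i
    refine Fin.cases ?_ (fun j => ?_) i
    · have h1 : ContinuousOn (fun v : V m => v 0) (tsupport G) := (continuous_apply 0).continuousOn
      exact h1.log fun v hv => ne_of_gt (h.sub hv)
    · exact (continuous_apply j.succ).continuousOn
  refine HasCompactSupport.intro (h.supp.isCompact.image_of_continuousOn hc) fun x hx => ?_
  have h1 : lgm x ∉ tsupport G := by
    intro h2
    refine hx ⟨lgm x, h2, ?_⟩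
    show (Fin.cons (Real.log (lgm x 0)) (Fin.tail (lgm x)) : V m) = x
    rw [lgm_zero, Real.log_exp]
    exact Fin.cons_self_tail x
  exact image_eq_zero_of_notMem_tsupport h1

theorem PF.comp_smooth {G : V m → ℝ} (h : PF m G) : ContDiff ℝ 1 fun x => G (lgm x) :=
  h.smooth.comp lgm_smooth

theorem exp_smooth (b : ℝ) : ContDiff ℝ 1 fun x : V m => exp (b * x 0) :=
  (contDiff_const.mul (contDiff_apply ℝ ℝ (0 : Fin (m + 1)))).exp

theorem PF.vv_mem {G : V m → ℝ} (h : PF m G) (b : ℝ) : vv b G ∈ FF m :=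
  ⟨(exp_smooth b).mul h.comp_smooth, h.comp_supp.mul_left⟩

theorem PF.pd_zero {G : V m → ℝ} (h : PF m G) (x : V m) :
    pd 0 (fun x => G (lgm x)) x = exp (x 0) * pd 0 G (lgm x) := by
  have h1 : HasFDerivAt (fun x => G (lgm x)) ((fderiv ℝ G (lgm x)).comp (lgm' x)) x :=
    ((h.smooth.differentiable one_ne_zero (lgm x)).hasFDerivAt).comp x (lgm_deriv x)
  unfold pd
  rw [h1.fderiv, ContinuousLinearMap.comp_apply, lgm'_zero, map_smul, smul_eq_mul]

theorem PF.pd_succ {G : V m → ℝ} (h : PF m G) (j : Fin m) (x : V m) :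
    pd j.succ (fun x => G (lgm x)) x = pd j.succ G (lgm x) := by
  have h1 : HasFDerivAt (fun x => G (lgm x)) ((fderiv ℝ G (lgm x)).comp (lgm' x)) x :=
    ((h.smooth.differentiable one_ne_zero (lgm x)).hasFDerivAt).comp x (lgm_deriv x)
  unfold pd
  rw [h1.fderiv, ContinuousLinearMap.comp_apply, lgm'_succ]

theorem exp_pd (b : ℝ) (x : V m) (i : Fin (m + 1)) :
    fderiv ℝ (fun x : V m => exp (b * x 0)) x (Pi.single i 1) = if i = 0 then b * exp (b * x 0) else 0 := by
  have h1 : HasFDerivAt (fun y : V m => y 0) (ContinuousLinearMap.proj 0 : V m →L[ℝ] ℝ) x :=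
    (ContinuousLinearMap.proj (R := ℝ) (φ := fun _ : Fin (m + 1) => ℝ) 0).hasFDerivAt
  have h2 := (h1.const_mul b).exp
  rw [h2.fderiv]
  by_cases hi : i = 0
  · subst hi
    simp
    ring
  · rw [if_neg hi]
    simp [Pi.single_eq_of_ne (Ne.symm hi)]

theorem pd_mul_exp {h : V m → ℝ} (hs : ContDiff ℝ 1 h) (b : ℝ) (x : V m) (i : Fin (m + 1)) :
    pd i (fun x => exp (b * x 0) * h x) x =
      exp (b * x 0) * ((if i = 0 then b * h x else 0) + pd i h x) := by
  unfold pd
  have h1 : DifferentiableAt ℝ (fun x : V m => exp (b * x 0)) x :=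
    (exp_smooth b).differentiable one_ne_zero x
  have h2 : DifferentiableAt ℝ h x := hs.differentiable one_ne_zero x
  rw [fderiv_fun_mul h1 h2]
  simp only [add_apply, smul_apply, smul_eq_mul, exp_pd]
  split_ifs <;> ring

theorem PF.energy {G : V m → ℝ} (h : PF m G) {n : ℕ} {l : ℝ} (hl : 0 ≤ l) :
    Integrable (fun v => pd 0 G v ^ 2 + l * (G v ^ 2 / v 0 ^ 2) + ∑ j : Fin m, pd j.succ G v ^ 2)
      (nu (n + 2) m) ∧
    (∫ x, en (vv (((n : ℝ) + 1) / 2) G) x) +
      (l + (((n : ℝ) + 1) / 2) ^ 2) * ∫ x, vv (((n : ℝ) + 1) / 2) G x ^ 2 =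
    ∫ v, (pd 0 G v ^ 2 + l * (G v ^ 2 / v 0 ^ 2) + ∑ j : Fin m, pd j.succ G v ^ 2) ∂(nu (n + 2) m) := by
  set b : ℝ := ((n : ℝ) + 1) / 2 with hb
  set w : V m → ℝ := fun x => G (lgm x) with hw
  have hws : ContDiff ℝ 1 w := h.comp_smooth
  have hwc : HasCompactSupport w := h.comp_supp
  have hp0 := pd_basic hws hwc 0
  have hpj := fun j : Fin m => pd_basic hws hwc j.succ
  have hvs := h.vv_mem b
  -- the integrals
  set A := ∫ x : V m, exp (2 * b * x 0) * (pd 0 w x * pd 0 w x) with hA
  set B := ∫ x : V m, exp (2 * b * x 0) * (w x * w x) with hB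
  set C := ∫ x : V m, exp (2 * b * x 0) * (w x * pd 0 w x) with hC
  set D := ∫ x : V m, ∑ j : Fin m, exp ((2 + 2 * b) * x 0) * (pd j.succ w x * pd j.succ w x) with hD
  have iA : Integrable fun x : V m => exp (2 * b * x 0) * (pd 0 w x * pd 0 w x) :=
    cs_int (ce _) ⟨hp0.1, hp0.2⟩ ⟨hp0.1, hp0.2⟩
  have iB : Integrable fun x : V m => exp (2 * b * x 0) * (w x * w x) :=
    cs_int (ce _) ⟨hws.continuous, hwc⟩ ⟨hws.continuous, hwc⟩
  have iC : Integrable fun x : V m => exp (2 * b * x 0) * (w x * pd 0 w x) :=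
    cs_int (ce _) ⟨hws.continuous, hwc⟩ ⟨hp0.1, hp0.2⟩
  have iD : Integrable fun x : V m => ∑ j : Fin m, exp ((2 + 2 * b) * x 0) * (pd j.succ w x * pd j.succ w x) :=
    integrable_finsetSum _ fun j _ => cs_int (ce _) ⟨(hpj j).1, (hpj j).2⟩ ⟨(hpj j).1, (hpj j).2⟩
  -- integration by parts
  have hCB : C = -b * B := by
    have hf : ContDiff ℝ 1 fun x : V m => exp (2 * b * x 0) * w x := (exp_smooth (2 * b)).mul hws
    have hfp : ∀ x, pd 0 (fun x : V m => exp (2 * b * x 0) * w x) x =
        exp (2 * b * x 0) * (2 * b * w x + pd 0 w x) := by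
      intro x
      rw [pd_mul_exp hws, if_pos rfl]
    have h1 := integral_mul_fderiv_eq_neg_fderiv_mul_of_integrable (μ := (volume : Measure (V m)))
      (f := fun x : V m => exp (2 * b * x 0) * w x) (g := w) (v := Pi.single 0 1) (by
        refine (((iB.const_mul (2 * b)).add iC)).congr (ae_of_all _ fun x => ?_)
        show 2 * b * (exp (2 * b * x 0) * (w x * w x)) + exp (2 * b * x 0) * (w x * pd 0 w x) =
          pd 0 (fun x : V m => exp (2 * b * x 0) * w x) x * w x
        rw [hfp]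
        ring) (by
        refine iC.congr (ae_of_all _ fun x => ?_)
        show _ = exp (2 * b * x 0) * w x * pd 0 w x
        ring) (by
        refine iB.congr (ae_of_all _ fun x => ?_)
        show _ = exp (2 * b * x 0) * w x * w x
        ring) (fun x _ => hf.differentiable one_ne_zero x)
      (fun x _ => hws.differentiable one_ne_zero x)
    have e1 : ∫ x : V m, exp (2 * b * x 0) * w x * fderiv ℝ w x (Pi.single 0 1) = C := by
      refine integral_congr_ae (ae_of_all _ fun x => ?_)
      show exp (2 * b * x 0) * w x * pd 0 w x = _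
      ring
    have e2 : ∫ x : V m, fderiv ℝ (fun x : V m => exp (2 * b * x 0) * w x) x (Pi.single 0 1) * w x =
        2 * b * B + C := by
      rw [hB, hC, ← integral_const_mul, ← integral_add (iB.const_mul _) iC]
      refine integral_congr_ae (ae_of_all _ fun x => ?_)
      show pd 0 (fun x : V m => exp (2 * b * x 0) * w x) x * w x = _
      rw [hfp]
      ring
    rw [e1, e2] at h1
    linarith
  have iAC : Integrable fun x : V m => exp (2 * b * x 0) * (pd 0 w x * pd 0 w x) +
      2 * b * (exp (2 * b * x 0) * (w x * pd 0 w x)) := iA.add (iC.const_mul _)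
  have iACB : Integrable fun x : V m => exp (2 * b * x 0) * (pd 0 w x * pd 0 w x) +
      2 * b * (exp (2 * b * x 0) * (w x * pd 0 w x)) + b ^ 2 * (exp (2 * b * x 0) * (w x * w x)) :=
    iAC.add (iB.const_mul _)
  have iAB : Integrable fun x : V m => exp (2 * b * x 0) * (pd 0 w x * pd 0 w x) +
      l * (exp (2 * b * x 0) * (w x * w x)) := iA.add (iB.const_mul _)
  have e1 : ∫ x, en (vv b G) x = A + 2 * b * C + b ^ 2 * B + D := by
    rw [hA, hC, hB, hD, ← integral_const_mul, ← integral_const_mul,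
      ← integral_add iA (iC.const_mul _), ← integral_add iAC (iB.const_mul _),
      ← integral_add iACB iD]
    refine integral_congr_ae (ae_of_all _ fun x => ?_)
    have hv : vv b G = fun x => exp (b * x 0) * w x := rfl
    show pd 0 (vv b G) x ^ 2 + exp (2 * x 0) * ∑ j : Fin m, pd j.succ (vv b G) x ^ 2 = _
    rw [hv, pd_mul_exp hws, if_pos rfl]
    have e2 : exp (2 * b * x 0) = exp (b * x 0) * exp (b * x 0) := by
      rw [← Real.exp_add]
      congr 1
      ring
    have e3 : exp ((2 + 2 * b) * x 0) = exp (2 * x 0) * (exp (b * x 0) * exp (b * x 0)) := by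
      rw [← Real.exp_add, ← Real.exp_add]
      congr 1
      ring
    have e4 : ∀ j : Fin m, pd j.succ (fun x : V m => exp (b * x 0) * w x) x = exp (b * x 0) * pd j.succ w x := by
      intro j
      rw [pd_mul_exp hws, if_neg (Fin.succ_ne_zero j), zero_add]
    simp only [e4, e2, e3]
    rw [Finset.mul_sum]
    have e5 : ∀ j : Fin m, exp (2 * x 0) * (exp (b * x 0) * pd j.succ w x) ^ 2 =
        exp (2 * x 0) * (exp (b * x 0) * exp (b * x 0)) * (pd j.succ w x * pd j.succ w x) := by
      intro j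
      ring
    rw [Finset.sum_congr rfl fun j _ => e5 j]
    ring
  have e2 : ∫ x, vv b G x ^ 2 = B := by
    refine integral_congr_ae (ae_of_all _ fun x => ?_)
    show (exp (b * x 0) * w x) ^ 2 = exp (2 * b * x 0) * (w x * w x)
    have e2 : exp (2 * b * x 0) = exp (b * x 0) * exp (b * x 0) := by
      rw [← Real.exp_add]
      congr 1
      ring
    rw [e2]
    ring
  have hm0 : ∀ i, Measurable (pd i G) := fun i => (pd_basic h.smooth h.supp i).1.measurable
  have iABD : Integrable fun x : V m => exp (2 * b * x 0) * (pd 0 w x * pd 0 w x) +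
      l * (exp (2 * b * x 0) * (w x * w x)) +
      ∑ j : Fin m, exp ((2 + 2 * b) * x 0) * (pd j.succ w x * pd j.succ w x) := iAB.add iD
  have hpt : ∀ x : V m, exp ((((n + 2 : ℕ) : ℝ) + 1) * x 0) * (pd 0 G (lgm x) ^ 2 + l * (G (lgm x) ^ 2 / (lgm x) 0 ^ 2) +
        ∑ j : Fin m, pd j.succ G (lgm x) ^ 2) = exp (2 * b * x 0) * (pd 0 w x * pd 0 w x) +
      l * (exp (2 * b * x 0) * (w x * w x)) +
      ∑ j : Fin m, exp ((2 + 2 * b) * x 0) * (pd j.succ w x * pd j.succ w x) := by
      intro x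
      have f1 : pd 0 w x = exp (x 0) * pd 0 G (lgm x) := h.pd_zero x
      have f2 : ∀ j : Fin m, pd j.succ w x = pd j.succ G (lgm x) := fun j => h.pd_succ j x
      have f3 : w x = G (lgm x) := rfl
      simp only [f1, f2, f3, lgm_zero]
      have e0 : exp (x 0) ≠ 0 := (exp_pos _).ne'
      have e2 : exp ((((n + 2 : ℕ) : ℝ) + 1) * x 0) = exp (2 * b * x 0) * (exp (x 0) * exp (x 0)) := by
        rw [← Real.exp_add, ← Real.exp_add]
        congr 1
        rw [hb]
        push_cast
        ring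
      have e3 : exp ((2 + 2 * b) * x 0) = exp (2 * b * x 0) * (exp (x 0) * exp (x 0)) := by
        rw [← Real.exp_add, ← Real.exp_add]
        congr 1
        ring
      rw [e2, e3, mul_add, Finset.mul_sum]
      have e5 : ∀ j : Fin m, exp (2 * b * x 0) * (exp (x 0) * exp (x 0)) * pd j.succ G (lgm x) ^ 2 =
        exp (2 * b * x 0) * (exp (x 0) * exp (x 0)) * (pd j.succ G (lgm x) * pd j.succ G (lgm x)) := by
        intro j
        ring
      rw [Finset.sum_congr rfl fun j _ => e5 j]
      congr 1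
      field_simp
  have hmF : Measurable fun v : V m => pd 0 G v ^ 2 + l * (G v ^ 2 / v 0 ^ 2) + ∑ j : Fin m, pd j.succ G v ^ 2 := by
    refine (((hm0 0).pow_const 2).add ?_).add (Finset.measurable_fun_sum _ fun j _ => (hm0 _).pow_const 2)
    exact measurable_const.mul ((h.smooth.continuous.measurable.pow_const 2).div
        ((measurable_pi_apply 0).pow_const 2))
  have hF0 : ∀ v ∈ HS m, 0 ≤ pd 0 G v ^ 2 + l * (G v ^ 2 / v 0 ^ 2) + ∑ j : Fin m, pd j.succ G v ^ 2 := by
    intro v _
    have : 0 ≤ ∑ j : Fin m, pd j.succ G v ^ 2 := Finset.sum_nonneg fun j _ => sq_nonneg _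
    positivity
  have e3 : ∫ v, (pd 0 G v ^ 2 + l * (G v ^ 2 / v 0 ^ 2) + ∑ j : Fin m, pd j.succ G v ^ 2) ∂(nu (n + 2) m) =
      A + l * B + D := by
    rw [nu_log _ hmF hF0]
    rw [hA, hB, hD, ← integral_const_mul, ← integral_add iA (iB.const_mul _),
        ← integral_add iAB iD]
    exact integral_congr_ae (ae_of_all _ hpt)
  refine ⟨nu_integrable _ hmF hF0 (iABD.congr (ae_of_all _ fun x => (hpt x).symm)), ?_⟩
  rw [e1, e2, e3, hCB]
  ring

end Pool.Agent.K7.H84.RD
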