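import Pool.Agent.K7.H84.RD.Cls

/-!
Spherical means of densities; semicontinuity.
-/

set_option autoImplicit false

open MeasureTheory Set Filter Topology Real Metric MvPolynomial
open scoped ENNReal InnerProductSpace

namespace Pool.Agent.K7.H84.RD

open LTd (pd pd_basic)
open Pool.Agent.K7.H4.LT
open Pool.Agent.R117.RL (E sg sg_pos Kcl)

section
variable {k m N : ℕ}

/-- the spherical integral of the density -/
noncomputable def Sm (f : Fin N → E (k + 1) × (Fin m → ℝ) → ℝ) (v : V m) : ℝ≥0∞ :=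
  ∫⁻ ω : Sp k, ENNReal.ofReal (∑ i, f i (Psi k m (ω, v)) ^ 2) ∂(tau k)

/-- the integral of a power of it -/
noncomputable def Phi (p : ℝ) (f : Fin N → E (k + 1) × (Fin m → ℝ) → ℝ) : ℝ≥0∞ :=
  ∫⁻ v, Sm f v ^ p ∂(nu k m)

theorem ae_polar {Q : E (k + 1) × (Fin m → ℝ) → Prop} (h : ∀ᵐ x, Q x) :
    ∀ᵐ v ∂(nu k m), ∀ᵐ ω ∂(tau k), Q (Psi k m (ω, v)) := by
  have h1 : ∀ᵐ q ∂((tau k).prod (nu k m)), Q (Psi k m q) := (Psi_mp k m).quasiMeasurePreserving.ae h
  have h2 : ∀ᵐ q ∂((nu k m).prod (tau k)), Q (Psi k m q.swap) :=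
    (Measure.measurePreserving_swap (μ := nu k m) (ν := tau k)).quasiMeasurePreserving.ae h1
  exact Measure.ae_ae_of_ae_prod h2

theorem meas_sum {f : Fin N → E (k + 1) × (Fin m → ℝ) → ℝ} (hf : ∀ i, Measurable (f i)) :
    Measurable fun q : Sp k × V m => ENNReal.ofReal (∑ i, f i (Psi k m q) ^ 2) :=
  (Finset.measurable_fun_sum _ fun i _ => ((hf i).comp (Psi_cont k m).measurable).pow_const 2).ennreal_ofReal

theorem Sm_meas {f : Fin N → E (k + 1) × (Fin m → ℝ) → ℝ} (hf : ∀ i, Measurable (f i)) :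
    Measurable (Sm f) := (meas_sum hf).lintegral_prod_left'

/-- **semicontinuity** -/
theorem phi_fatou {u : ℕ → Fin N → E (k + 1) × (Fin m → ℝ) → ℝ} {f : Fin N → E (k + 1) × (Fin m → ℝ) → ℝ}
    (hu : ∀ q i, Measurable (u q i)) (hlim : ∀ᵐ x, ∀ i, Tendsto (fun q => u q i x) atTop (𝓝 (f i x)))
    {p : ℝ} (hp : 0 < p) : Phi p f ≤ liminf (fun q => Phi p (u q)) atTop := by
  have h1 := ae_polar hlim
  calc Phi p f ≤ ∫⁻ v, liminf (fun q => Sm (u q) v ^ p) atTop ∂(nu k m) := by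
        refine lintegral_mono_ae (h1.mono fun v hv => ?_)
        have h2 : Sm f v ≤ liminf (fun q => Sm (u q) v) atTop := by
          have h3 : Sm f v = ∫⁻ ω : Sp k, liminf (fun q => ENNReal.ofReal
              (∑ i, u q i (Psi k m (ω, v)) ^ 2)) atTop ∂(tau k) := by
            refine lintegral_congr_ae (hv.mono fun ω hω => ?_)
            have h4 : Tendsto (fun q => ENNReal.ofReal (∑ i, u q i (Psi k m (ω, v)) ^ 2)) atTop
                (𝓝 (ENNReal.ofReal (∑ i, f i (Psi k m (ω, v)) ^ 2))) :=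
              (ENNReal.continuous_ofReal.tendsto _).comp
                (tendsto_finsetSum _ fun i _ => (hω i).pow 2)
            exact h4.liminf_eq.symm
          rw [h3]
          exact lintegral_liminf_le fun q => (meas_sum (hu q)).comp measurable_prodMk_right
        have h5 : (liminf (fun q => Sm (u q) v) atTop) ^ p = liminf (fun q => Sm (u q) v ^ p) atTop :=
          (ENNReal.orderIsoRpow p hp).liminf_apply
        rw [← h5]
        exact ENNReal.rpow_le_rpow h2 hp.le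
    _ ≤ liminf (fun q => Phi p (u q)) atTop :=
        lintegral_liminf_le fun q => (Sm_meas (hu q)).pow_const p

end

section
variable {n m g N : ℕ} {P : Fin g → MvPolynomial (Fin (n + 2 + 1)) ℝ} {dg : Fin g → ℕ}

theorem sm_cls (h : ONF (n + 2) P dg) {G : Fin N → Fin g → V m → ℝ} {v : V m} (hv : v ∈ HS m)
    (hG : ∀ i a, PF m (G i a)) :
    Sm (fun i => ww P dg (G i)) v = ENNReal.ofReal (∑ i, ∑ a, G i a v ^ 2) := by
  have hc : Continuous fun ω : Sp (n + 2) => ∑ i, ww P dg (G i) (Psi (n + 2) m (ω, v)) ^ 2 := by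
    refine continuous_finsetSum _ fun i _ => Continuous.pow ?_ 2
    exact (ww_smooth (hG i)).continuous.comp ((Psi_cont _ _).comp (continuous_id.prodMk continuous_const))
  have hi : ∀ i, Integrable (fun ω : Sp (n + 2) => ww P dg (G i) (Psi (n + 2) m (ω, v)) ^ 2) (tau (n + 2)) := by
    intro i
    refine int_sp (Continuous.pow ?_ 2)
    exact (ww_smooth (hG i)).continuous.comp ((Psi_cont _ _).comp (continuous_id.prodMk continuous_const))
  unfold Sm
  rw [← ofReal_integral_eq_lintegral_ofReal (int_sp hc)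
    (ae_of_all _ fun ω => Finset.sum_nonneg fun i _ => sq_nonneg _),
    integral_finsetSum _ fun i _ => hi i]
  congr 1
  exact Finset.sum_congr rfl fun i _ => ww_sph h hv

theorem phi_cls (h : ONF (n + 2) P dg) {G : Fin N → Fin g → V m → ℝ}
    (hG : ∀ i a, PF m (G i a)) {p : ℝ} (hp : 0 < p) :
    Phi p (fun i => ww P dg (G i)) =
      ENNReal.ofReal (∫ v, (∑ i, ∑ a, G i a v ^ 2) ^ p ∂(nu (n + 2) m)) := by
  have h0 : ∀ v : V m, 0 ≤ ∑ i, ∑ a, G i a v ^ 2 := fun v =>
    Finset.sum_nonneg fun i _ => Finset.sum_nonneg fun a _ => sq_nonneg _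
  have hm : Measurable fun v : V m => (∑ i, ∑ a, G i a v ^ 2) ^ p := by
    refine Measurable.pow_const (Finset.measurable_fun_sum _ fun i _ =>
      Finset.measurable_fun_sum _ fun a _ => ?_) _
    exact (hG i a).smooth.continuous.measurable.pow_const 2
  have hi : Integrable (fun v : V m => (∑ i, ∑ a, G i a v ^ 2) ^ p) (nu (n + 2) m) := by
    refine nu_integrable _ hm (fun v _ => Real.rpow_nonneg (h0 v) _) ?_
    have hS : Continuous fun x : V m => ∑ i, ∑ a, G i a (lgm x) ^ 2 :=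
      continuous_finsetSum _ fun i _ => continuous_finsetSum _ fun a _ =>
        (hG i a).comp_smooth.continuous.pow 2
    have hSs : HasCompactSupport fun x : V m => ∑ i, ∑ a, G i a (lgm x) ^ 2 := by
      refine HasCompactSupport.intro (K := ⋃ i, ⋃ a, tsupport fun x => G i a (lgm x))
        (isCompact_iUnion fun i => isCompact_iUnion fun a => (hG i a).comp_supp) fun x hx => ?_
      refine Finset.sum_eq_zero fun i _ => Finset.sum_eq_zero fun a _ => ?_
      have h1 : G i a (lgm x) = 0 := by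
        by_contra h2
        exact hx (mem_iUnion.2 ⟨i, mem_iUnion.2 ⟨a, subset_tsupport _ h2⟩⟩)
      rw [h1]
      norm_num
    refine Continuous.integrable_of_hasCompactSupport ((ce _).mul (hS.rpow_const fun _ => Or.inr hp.le)) ?_
    exact (hSs.comp_left (g := fun t : ℝ => t ^ p) (Real.zero_rpow hp.ne')).mul_left
  rw [ofReal_integral_eq_lintegral_ofReal hi (ae_of_all _ fun v => Real.rpow_nonneg (h0 v) _)]
  unfold Phi
  refine lintegral_congr_ae ((nu_ae _ m).mono fun v hv => ?_)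
  show Sm (fun i => ww P dg (G i)) v ^ p = ENNReal.ofReal ((∑ i, ∑ a, G i a v ^ 2) ^ p)
  rw [sm_cls h hv hG, ENNReal.ofReal_rpow_of_nonneg (h0 v) hp.le]

/-- the constant -/
noncomputable def KK (n m : ℕ) : ℝ := Kcl (n + 3 + m) * sg (n + 3) ^ (-(2 / ((n + 3 + m : ℕ) : ℝ)))

/-- the exponent -/
noncomputable def pw (n m : ℕ) : ℝ := 1 + 2 / ((n + 3 + m : ℕ) : ℝ)

theorem pw_pos (n m : ℕ) : 0 < pw n m := by
  unfold pw
  positivity

theorem cls_phi (hn : 3 ≤ n) (h : ONF (n + 2) P dg) {G : Fin N → Fin g → V m → ℝ}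
    (hG : ∀ i a, PF m (G i a)) {C : ℝ} (hC : 0 < C)
    (hgram : ∀ c : Fin N → ℝ, ∫ x, (∑ i, c i * ww P dg (G i) x) ^ 2 ≤ C * ∑ i, c i ^ 2) :
    ENNReal.ofReal (KK n m) * Phi (pw n m) (fun i => ww P dg (G i)) ≤
      ENNReal.ofReal (C ^ (2 / ((n + 3 + m : ℕ) : ℝ)) * ∑ i, ∫ x, gr (ww P dg (G i)) x) := by
  have hsg : 0 < sg (n + 3) := sg_pos (by omega)
  have hK : 0 ≤ Kcl (n + 3 + m) := by
    unfold Kcl
    have := Pool.Agent.R117.RL.om_pos (n + 3 + m)
    positivity
  have hKK : 0 ≤ KK n m := by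
    unfold KK
    positivity
  rw [phi_cls h hG (pw_pos n m), ← ENNReal.ofReal_mul hKK]
  refine ENNReal.ofReal_le_ofReal (le_trans (le_of_eq ?_) (cls hn h hG hC hgram))
  have e : ∀ v : V m, ((∑ i, ∑ a, G i a v ^ 2) / sg (n + 3)) ^ (1 + 2 / ((n + 3 + m : ℕ) : ℝ)) =
      (sg (n + 3) ^ (1 + 2 / ((n + 3 + m : ℕ) : ℝ)))⁻¹ * (∑ i, ∑ a, G i a v ^ 2) ^ (pw n m) := by
    intro v
    rw [Real.div_rpow (Finset.sum_nonneg fun i _ => Finset.sum_nonneg fun a _ => sq_nonneg _) hsg.le,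
      div_eq_inv_mul]
    rfl
  simp only [e]
  rw [integral_const_mul]
  unfold KK
  have e2 : sg (n + 3) ^ (-(2 / ((n + 3 + m : ℕ) : ℝ))) =
      sg (n + 3) * (sg (n + 3) ^ (1 + 2 / ((n + 3 + m : ℕ) : ℝ)))⁻¹ := by
    rw [Real.rpow_add hsg, Real.rpow_one, Real.rpow_neg hsg.le]
    field_simp
  rw [e2]
  ring

end

end Pool.Agent.K7.H84.RD
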