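import Mathlib

/-!
Linear algebra of a pencil of quadratic forms on a finite dimensional space.
-/

set_option autoImplicit false

open Module

namespace Pool.Agent.K7.H84.RD

section
variable {V : Type} [AddCommGroup V] [Module ℝ V] [FiniteDimensional ℝ V]

/-- a symmetric positive definite form -/
structure PosForm (G : V →ₗ[ℝ] V →ₗ[ℝ] ℝ) : Prop where
  symm : ∀ x y, G x y = G y x
  pos : ∀ x, x ≠ 0 → 0 < G x x

/-- the inner product of a positive form -/
noncomputable def PosForm.core {G : V →ₗ[ℝ] V →ₗ[ℝ] ℝ} (h : PosForm G) : InnerProductSpace.Core ℝ V where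
  inner x y := G x y
  conj_inner_symm x y := by simp [h.symm y x]
  re_inner_nonneg x := by
    by_cases hx : x = 0
    · subst hx
      simp
    · exact (h.pos x hx).le
  add_left x y z := by simp
  smul_left x y r := by simp
  definite x hx := by
    by_contra h0
    exact (h.pos x h0).ne' hx

/-- **simultaneous diagonalisation** -/
theorem diag {G M : V →ₗ[ℝ] V →ₗ[ℝ] ℝ} (hG : PosForm G) (hM : ∀ x y, M x y = M y x) :
    ∃ (b : Basis (Fin (finrank ℝ V)) ℝ V) (κ : Fin (finrank ℝ V) → ℝ),
      (∀ i j, G (b i) (b j) = if i = j then 1 else 0) ∧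
      (∀ i j, M (b i) (b j) = if i = j then κ i else 0) := by
  let _ : InnerProductSpace.Core ℝ V := hG.core
  let _ : NormedAddCommGroup V := hG.core.toNormedAddCommGroup
  let _ : InnerProductSpace ℝ V := InnerProductSpace.ofCore hG.core.toCore
  have hin : ∀ x y : V, inner ℝ x y = G x y := fun x y => rfl
  set e := stdOrthonormalBasis ℝ V with he
  have hrep : ∀ y : V, ∑ i, G (e i) y • e i = y := by
    intro y
    have h := e.sum_repr' y
    simpa [hin] using h
  set T : V →ₗ[ℝ] V :=
    { toFun := fun x => ∑ i, M x (e i) • e i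
      map_add' := by
        intro x y
        simp [add_smul, Finset.sum_add_distrib]
      map_smul' := by
        intro a x
        simp [mul_smul, Finset.smul_sum] } with hT
  have hTM : ∀ x y, G (T x) y = M x y := by
    intro x y
    have h1 : G (T x) y = ∑ i, M x (e i) * G (e i) y := by
      show G (∑ i, M x (e i) • e i) y = _
      rw [map_sum, LinearMap.sum_apply]
      refine Finset.sum_congr rfl fun i _ => ?_
      rw [map_smul, LinearMap.smul_apply, smul_eq_mul]
    rw [h1]
    conv_rhs => rw [← hrep y]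
    rw [map_sum]
    refine Finset.sum_congr rfl fun i _ => ?_
    rw [map_smul, smul_eq_mul]
    ring
  have hsym : T.IsSymmetric := by
    intro x y
    rw [hin, hin, hTM, hG.symm x (T y), hTM, hM]
  refine ⟨(hsym.eigenvectorBasis rfl).toBasis, hsym.eigenvalues rfl, ?_, ?_⟩
  · intro i j
    have h := (hsym.eigenvectorBasis rfl).inner_eq_ite i j
    rw [← hin]
    simpa using h
  · intro i j
    rw [← hTM]
    simp only [OrthonormalBasis.coe_toBasis]
    rw [hsym.apply_eigenvectorBasis]
    have h := (hsym.eigenvectorBasis rfl).inner_eq_ite i j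
    rw [hin] at h
    simp only [RCLike.ofReal_real_eq_id, id_eq, map_smul, LinearMap.smul_apply, smul_eq_mul]
    rw [h]
    split_ifs <;> simp

variable {n : ℕ}

theorem form_sum (M : V →ₗ[ℝ] V →ₗ[ℝ] ℝ) {b : Fin n → V} {κ : Fin n → ℝ}
    (h : ∀ i j, M (b i) (b j) = if i = j then κ i else 0) (x : Fin n → ℝ) :
    M (∑ i, x i • b i) (∑ i, x i • b i) = ∑ i, κ i * x i ^ 2 := by
  have h1 : M (∑ i, x i • b i) = ∑ i, x i • M (b i) := by
    rw [map_sum]
    simp only [map_smul]
  rw [h1, LinearMap.sum_apply]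
  refine Finset.sum_congr rfl fun i _ => ?_
  rw [LinearMap.smul_apply, map_sum, Finset.sum_eq_single i]
  · rw [map_smul, h, if_pos rfl]
    simp only [smul_eq_mul]
    ring
  · intro j _ hj
    rw [map_smul, h, if_neg (Ne.symm hj)]
    simp
  · simp

/-- **the numbers of eigenvalues of the pencil** -/
theorem count {G0 G1 M : V →ₗ[ℝ] V →ₗ[ℝ] ℝ} {τ ν : ℝ}
    {b c : Basis (Fin n) ℝ V} {κ lam : Fin n → ℝ}
    (hb0 : ∀ i j, G0 (b i) (b j) = if i = j then 1 else 0)
    (hb : ∀ i j, (M - τ • G1) (b i) (b j) = if i = j then κ i else 0)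
    (hc0 : ∀ i j, G1 (c i) (c j) = if i = j then 1 else 0)
    (hc : ∀ i j, (M - ν • G0) (c i) (c j) = if i = j then lam i else 0) :
    (Finset.univ.filter fun i => τ < lam i).card ≤ (Finset.univ.filter fun i => ν < κ i).card := by
  classical
  set Ψ : ({i // τ < lam i} → ℝ) →ₗ[ℝ] ({j // ν < κ j} → ℝ) :=
    { toFun := fun a j => b.repr (∑ i : {i // τ < lam i}, a i • c i) j
      map_add' := by
        intro a a'
        funext j
        simp [add_smul, Finset.sum_add_distrib]
      map_smul' := by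
        intro r a
        funext j
        simp only [Pi.smul_apply, smul_eq_mul, RingHom.id_apply, mul_smul]
        rw [← Finset.smul_sum, map_smul]
        simp } with hΨ
  have hinj : Function.Injective Ψ := by
    rw [← LinearMap.ker_eq_bot, LinearMap.ker_eq_bot']
    intro a ha
    set a' : Fin n → ℝ := fun i => if h : τ < lam i then a ⟨i, h⟩ else 0 with ha'
    set x : V := ∑ i, a' i • c i with hx
    have hxa : ∑ i : {i // τ < lam i}, a i • c i = x := by
      rw [hx]
      have h1 : ∑ i, a' i • c i = ∑ i ∈ Finset.univ.filter (fun i => τ < lam i), a' i • c i := by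
        rw [Finset.sum_filter]
        refine Finset.sum_congr rfl fun i _ => ?_
        split_ifs with h
        · rfl
        · simp [ha', h]
      rw [h1, ← Finset.sum_subtype_eq_sum_filter]
      simp only [Finset.subtype_univ]
      refine Finset.sum_congr rfl fun i _ => ?_
      simp only [ha']
      rw [dif_pos i.2]
    have hq1 : (M - τ • G1 - ν • G0) x x = ∑ i, (lam i - τ) * a' i ^ 2 := by
      have h1 : (M - τ • G1 - ν • G0) x x = (M - ν • G0) x x - τ * G1 x x := by
        simp only [LinearMap.sub_apply, LinearMap.smul_apply, smul_eq_mul]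
        ring
      rw [h1, hx, form_sum _ hc, form_sum (κ := fun _ => 1) G1 hc0, Finset.mul_sum, ← Finset.sum_sub_distrib]
      refine Finset.sum_congr rfl fun i _ => ?_
      ring
    have hxb : x = ∑ i, (b.repr x i) • b i := (b.sum_repr x).symm
    have hq2 : (M - τ • G1 - ν • G0) x x = ∑ i, (κ i - ν) * (b.repr x i) ^ 2 := by
      have h1 : (M - τ • G1 - ν • G0) x x = (M - τ • G1) x x - ν * G0 x x := by
        simp only [LinearMap.sub_apply, LinearMap.smul_apply, smul_eq_mul]
      have h2 : ∀ F : V →ₗ[ℝ] V →ₗ[ℝ] ℝ, F x x = F (∑ i, (b.repr x i) • b i) (∑ i, (b.repr x i) • b i) := by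
        intro F
        rw [← hxb]
      rw [h1, h2, h2, form_sum _ hb, form_sum (κ := fun _ => 1) G0 hb0, Finset.mul_sum, ← Finset.sum_sub_distrib]
      refine Finset.sum_congr rfl fun i _ => ?_
      ring
    have hle : ∑ i, (κ i - ν) * (b.repr x i) ^ 2 ≤ 0 := by
      refine Finset.sum_nonpos fun i _ => ?_
      by_cases h : ν < κ i
      · have h3 : b.repr x i = 0 := by
          have h4 := congrFun ha ⟨i, h⟩
          simp only [hΨ, LinearMap.coe_mk, AddHom.coe_mk, Pi.zero_apply] at h4
          rwa [hxa] at h4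
        rw [h3]
        simp
      · have h' := not_lt.1 h
        have := sq_nonneg (b.repr x i)
        nlinarith
    rw [← hq2, hq1] at hle
    have hnn : ∀ i ∈ Finset.univ, 0 ≤ (lam i - τ) * a' i ^ 2 := by
      intro i _
      by_cases h : τ < lam i
      · have := sq_nonneg (a' i)
        nlinarith
      · simp [ha', h]
    have hz := (Finset.sum_eq_zero_iff_of_nonneg hnn).1 (le_antisymm hle (Finset.sum_nonneg hnn))
    funext i
    have h5 := hz i.1 (Finset.mem_univ _)
    have h6 : lam i.1 - τ ≠ 0 := (sub_pos.2 i.2).ne'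
    have h7 : a' i.1 = 0 := by
      rcases mul_eq_zero.1 h5 with h | h
      · exact absurd h h6
      · exact pow_eq_zero_iff (two_ne_zero) |>.1 h
    simp only [ha'] at h7
    rw [dif_pos i.2] at h7
    exact h7
  have h := LinearMap.finrank_le_finrank_of_injective hinj
  rw [Module.finrank_fintype_fun_eq_card, Module.finrank_fintype_fun_eq_card,
    Fintype.card_subtype, Fintype.card_subtype] at h
  exact h

/-- the systems which satisfy the inequality of Bessel -/
def Bessel {ι : Type} [Fintype ι] (G : V →ₗ[ℝ] V →ₗ[ℝ] ℝ) (x : ι → V) : Prop :=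
  ∀ y, ∑ i, G (x i) y ^ 2 ≤ G y y

/-- the sum of the values on a Bessel system -/
theorem trace_le {ι : Type} [Fintype ι] {G M : V →ₗ[ℝ] V →ₗ[ℝ] ℝ}
    {c : Basis (Fin n) ℝ V} {lam : Fin n → ℝ}
    (hc0 : ∀ i j, G (c i) (c j) = if i = j then 1 else 0)
    (hc : ∀ i j, M (c i) (c j) = if i = j then lam i else 0) {x : ι → V} (hx : Bessel G x) :
    ∑ i, M (x i) (x i) ≤ ∑ q, max (lam q) 0 := by
  have hrep : ∀ y q, c.repr y q = G y (c q) := by
    intro y q
    have h1 : y = ∑ i, (c.repr y i) • c i := (c.sum_repr y).symm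
    conv_rhs => rw [h1]
    rw [map_sum, LinearMap.sum_apply, Finset.sum_eq_single q]
    · rw [map_smul, LinearMap.smul_apply, hc0, if_pos rfl, smul_eq_mul, mul_one]
    · intro j _ hj
      rw [map_smul, LinearMap.smul_apply, hc0, if_neg hj, smul_zero]
    · simp
  have h1 : ∀ y, M y y = ∑ q, lam q * G y (c q) ^ 2 := by
    intro y
    have h2 : y = ∑ i, (c.repr y i) • c i := (c.sum_repr y).symm
    have h3 : M y y = M (∑ i, (c.repr y i) • c i) (∑ i, (c.repr y i) • c i) := by rw [← h2]
    rw [h3, form_sum _ hc]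
    refine Finset.sum_congr rfl fun q _ => ?_
    rw [hrep]
  simp only [h1]
  rw [Finset.sum_comm]
  refine Finset.sum_le_sum fun q _ => ?_
  rw [← Finset.mul_sum]
  have h4 := hx (c q)
  rw [hc0, if_pos rfl] at h4
  have h5 : 0 ≤ ∑ i, G (x i) (c q) ^ 2 := Finset.sum_nonneg fun i _ => sq_nonneg _
  calc lam q * ∑ i, G (x i) (c q) ^ 2 ≤ max (lam q) 0 * ∑ i, G (x i) (c q) ^ 2 :=
        mul_le_mul_of_nonneg_right (le_max_left _ _) h5
    _ ≤ max (lam q) 0 * 1 := mul_le_mul_of_nonneg_left h4 (le_max_right _ _)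
    _ = _ := mul_one _

/-- the positive eigenvectors form a Bessel system on which the trace is attained -/
theorem exists_max {G M : V →ₗ[ℝ] V →ₗ[ℝ] ℝ} (hG : PosForm G) (hM : ∀ x y, M x y = M y x) :
    ∃ (p : ℕ) (c : Fin p → V), Bessel G c ∧ 0 ≤ ∑ i, M (c i) (c i) ∧
      ∀ (ι : Type) [Fintype ι] (x : ι → V), Bessel G x → ∑ i, M (x i) (x i) ≤ ∑ i, M (c i) (c i) := by
  obtain ⟨c, lam, h0, h1⟩ := diag hG hM
  set c' : Fin (finrank ℝ V) → V := fun i => if 0 < lam i then c i else 0 with hc'
  have hsum : ∑ i, M (c' i) (c' i) = ∑ q, max (lam q) 0 := by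
    refine Finset.sum_congr rfl fun i _ => ?_
    simp only [hc']
    split_ifs with h
    · rw [h1, if_pos rfl, max_eq_left h.le]
    · rw [max_eq_right (not_lt.1 h)]
      simp
  refine ⟨_, c', ?_, ?_, ?_⟩
  · intro y
    have hrep : ∀ q, c.repr y q = G (c q) y := by
      intro q
      have h1 : y = ∑ i, (c.repr y i) • c i := (c.sum_repr y).symm
      conv_rhs => rw [h1]
      rw [map_sum, Finset.sum_eq_single q]
      · rw [map_smul, h0, if_pos rfl, smul_eq_mul, mul_one]
      · intro j _ hj
        rw [map_smul, h0, if_neg (Ne.symm hj), smul_zero]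
      · simp
    have h2 : G y y = ∑ i, G (c i) y ^ 2 := by
      have h2 : y = ∑ i, (c.repr y i) • c i := (c.sum_repr y).symm
      have h3 : G y y = G (∑ i, (c.repr y i) • c i) (∑ i, (c.repr y i) • c i) := by rw [← h2]
      rw [h3, form_sum (κ := fun _ => 1) _ h0]
      refine Finset.sum_congr rfl fun q _ => ?_
      rw [hrep, one_mul]
    rw [h2]
    refine Finset.sum_le_sum fun i _ => ?_
    simp only [hc']
    split_ifs with h
    · exact le_rfl
    · have h3 : (G 0) y = 0 := by simp
      rw [h3, zero_pow two_ne_zero]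
      exact sq_nonneg _
  · rw [hsum]
    exact Finset.sum_nonneg fun q _ => le_max_right _ _
  · intro ι _ x hx
    rw [hsum]
    exact trace_le h0 h1 hx

/-- the layers of a positive number -/
theorem layer {δ x : ℝ} (hδ : 0 < δ) {Q : ℕ} (hx : x ≤ δ * Q) :
    max x 0 ≤ δ * ((Finset.range Q).filter fun q : ℕ => δ * q < x).card := by
  rcases le_or_gt x 0 with h | h
  · rw [max_eq_right h]
    positivity
  rw [max_eq_left h.le]
  set p := ⌈x / δ⌉₊ with hp
  have hpQ : p ≤ Q := by
    rw [hp]
    refine Nat.ceil_le.2 ?_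
    rw [div_le_iff₀ hδ, mul_comm]
    exact hx
  have hsub : Finset.range p ⊆ (Finset.range Q).filter fun q : ℕ => δ * q < x := by
    intro q hq
    rw [Finset.mem_range] at hq
    rw [Finset.mem_filter, Finset.mem_range]
    refine ⟨lt_of_lt_of_le hq hpQ, ?_⟩
    have h1 : (q : ℝ) < x / δ := Nat.lt_ceil.1 hq
    rw [lt_div_iff₀ hδ] at h1
    linarith
  have h2 := Finset.card_le_card hsub
  rw [Finset.card_range] at h2
  have h3 : x / δ ≤ p := Nat.le_ceil _
  have h4 : (p : ℝ) ≤ ((Finset.range Q).filter fun q : ℕ => δ * q < x).card := by exact_mod_cast h2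
  rw [div_le_iff₀ hδ] at h3
  nlinarith

/-- **the bound by the numbers of eigenvalues of the second kind** -/
theorem pencil_bound {ι : Type} [Fintype ι] {G0 G1 M : V →ₗ[ℝ] V →ₗ[ℝ] ℝ} (h0 : PosForm G0)
    (h1 : PosForm G1) (hM : ∀ x y, M x y = M y x) {δ : ℝ} (hδ : 0 < δ) {Q : ℕ}
    (hQ : ∀ x, M x x ≤ δ * Q * G1 x x)
    {b : ℕ → Basis (Fin (finrank ℝ V)) ℝ V} {κ : ℕ → Fin (finrank ℝ V) → ℝ}
    (hb0 : ∀ (q : ℕ) i j, G0 (b q i) (b q j) = if i = j then 1 else 0)
    (hb : ∀ (q : ℕ) i j, (M - (δ * q) • G1) (b q i) (b q j) = if i = j then κ q i else 0)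
    {ν : ℝ} (hν : 0 ≤ ν) {x : ι → V} (hx : Bessel G1 x) :
    ∑ i, (M - ν • G0) (x i) (x i) ≤
      δ * ∑ q ∈ Finset.range Q, ((Finset.univ.filter fun i => ν < κ q i).card : ℝ) := by
  have hMν : ∀ x y, (M - ν • G0) x y = (M - ν • G0) y x := by
    intro x y
    simp only [LinearMap.sub_apply, LinearMap.smul_apply, hM x y, h0.symm x y]
  obtain ⟨c, lam, hc0, hc⟩ := diag h1 hMν
  refine (trace_le hc0 hc hx).trans ?_
  have hlam : ∀ i, lam i ≤ δ * Q := by
    intro i
    have h2 := hc i i
    rw [if_pos rfl] at h2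
    have h3 := hQ (c i)
    have h4 := hc0 i i
    rw [if_pos rfl] at h4
    rw [h4, mul_one] at h3
    have h5 : 0 ≤ G0 (c i) (c i) := by
      by_cases h : c i = 0
      · rw [h]
        simp
      · exact (h0.pos _ h).le
    simp only [LinearMap.sub_apply, LinearMap.smul_apply, smul_eq_mul] at h2
    have := mul_nonneg hν h5
    linarith
  calc ∑ i, max (lam i) 0 ≤ ∑ i, δ * ((Finset.range Q).filter fun q : ℕ => δ * q < lam i).card :=
        Finset.sum_le_sum fun i _ => layer hδ (hlam i)
    _ = δ * ∑ q ∈ Finset.range Q, ((Finset.univ.filter fun i => δ * q < lam i).card : ℝ) := by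
        rw [← Finset.mul_sum]
        congr 1
        simp only [Finset.card_filter]
        push_cast
        rw [Finset.sum_comm]
    _ ≤ _ := by
        refine mul_le_mul_of_nonneg_left (Finset.sum_le_sum fun q _ => ?_) hδ.le
        exact_mod_cast count (hb0 q) (hb q) hc0 hc

end

end Pool.Agent.K7.H84.RD
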