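import Pool.Agent.K7.H84.RD.Appr
import Pool.Agent.K7.H4.LT.Dense2
import Pool.Agent.Helper717.LT.P_final_thm

/-!
From `ℝ^a × ℝ^b` to `ℝ^(a+b)`, and the inequality for functions in `H¹`.
-/

set_option autoImplicit false

open MeasureTheory Set Filter Topology Real Metric MvPolynomial
open scoped ENNReal InnerProductSpace

namespace Pool.Agent.K7.H84.RD

open LTd (pd pd_basic WGrad WGradC H_approx)
open Pool.Agent.K7.H4.LT
open Pool.Agent.R117.RL (E sg sg_pos Kcl)

/-- the density lemma -/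
theorem den {k m : ℕ} (hk : 2 ≤ k) : Den k m := by
  intro f hf hs ε hε
  obtain ⟨g, P, dg, G, h1, h2, h3, h4, h5, h6, h7, h8, h9⟩ :=
    dense_harm (m := m) hk hf hs (ε := ε / ((k : ℝ) + m + 2)) (by positivity)
  refine ⟨g, P, dg, G, h1, fun j => ⟨h2 j, h3 j, h4 j⟩, h7.trans_le ?_, ?_⟩
  · rw [div_le_iff₀ (by positivity)]
    have h10 : (0 : ℝ) ≤ k := Nat.cast_nonneg k
    have h11 : (0 : ℝ) ≤ m := Nat.cast_nonneg m
    nlinarith
  · set u : E (k + 1) × (Fin m → ℝ) → ℝ := fun x => f x - ∑ j, G j (kap x) * pe (P j) x.1 with hu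
    have hus : ContDiff ℝ 1 u := hf.sub h5
    have huc : HasCompactSupport u := hs.sub h6
    have hcd : Continuous (fderiv ℝ u) := hus.continuous_fderiv one_ne_zero
    have hsd : HasCompactSupport (fderiv ℝ u) := huc.fderiv (𝕜 := ℝ)
    have hi : ∀ h, Integrable fun x => fderiv ℝ u x h ^ 2 := by
      intro h
      refine cc_sq (hcd.clm_apply continuous_const) ?_
      exact hsd.comp_left (g := fun L : E (k + 1) × (Fin m → ℝ) →L[ℝ] ℝ => L h) (by simp)
    show ∫ x, ((∑ i : Fin (k + 1), fderiv ℝ u x (EuclideanSpace.single i 1, 0) ^ 2) +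
      ∑ j : Fin m, fderiv ℝ u x (0, Pi.single j 1) ^ 2) < ε
    rw [integral_add (integrable_finsetSum _ fun i _ => hi _) (integrable_finsetSum _ fun i _ => hi _),
      integral_finsetSum _ fun i _ => hi _, integral_finsetSum _ fun i _ => hi _]
    have e1 : ∑ i : Fin (k + 1), ∫ x, fderiv ℝ u x (EuclideanSpace.single i 1, 0) ^ 2 ≤
        ∑ _i : Fin (k + 1), ε / ((k : ℝ) + m + 2) := Finset.sum_le_sum fun i _ => (h8 i).le
    have e2 : ∑ i : Fin m, ∫ x, fderiv ℝ u x (0, Pi.single i 1) ^ 2 ≤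
        ∑ _i : Fin m, ε / ((k : ℝ) + m + 2) := Finset.sum_le_sum fun i _ => (h9 i).le
    rw [Finset.sum_const, Finset.card_univ, Fintype.card_fin, nsmul_eq_mul] at e1 e2
    push_cast at e1
    refine lt_of_le_of_lt (add_le_add e1 e2) ?_
    have e3 : ((k : ℝ) + 1) * (ε / ((k : ℝ) + m + 2)) + m * (ε / ((k : ℝ) + m + 2)) =
        ε * (((k : ℝ) + m + 1) / ((k : ℝ) + m + 2)) := by
      field_simp
      ring
    rw [e3]
    have e4 : ((k : ℝ) + m + 1) / ((k : ℝ) + m + 2) < 1 := by
      rw [div_lt_one (by positivity)]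
      linarith
    calc ε * (((k : ℝ) + m + 1) / ((k : ℝ) + m + 2)) < ε * 1 := mul_lt_mul_of_pos_left e4 hε
      _ = ε := mul_one _

section
variable {a b : ℕ}

/-- the map `(y, z) ↦ y ++ z` -/
noncomputable def TL (a b : ℕ) : E a × (Fin b → ℝ) →L[ℝ] (Fin (a + b) → ℝ) :=
  ContinuousLinearMap.pi fun j => Fin.addCases (motive := fun _ => E a × (Fin b → ℝ) →L[ℝ] ℝ)
    (fun i => (EuclideanSpace.proj i : E a →L[ℝ] ℝ).comp (ContinuousLinearMap.fst ℝ (E a) (Fin b → ℝ)))
    (fun i => (ContinuousLinearMap.proj i : (Fin b → ℝ) →L[ℝ] ℝ).comp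
      (ContinuousLinearMap.snd ℝ (E a) (Fin b → ℝ))) j

theorem TL_left (x : E a × (Fin b → ℝ)) (i : Fin a) : TL a b x (Fin.castAdd b i) = x.1 i := by
  simp [TL]

theorem TL_right (x : E a × (Fin b → ℝ)) (i : Fin b) : TL a b x (Fin.natAdd a i) = x.2 i := by
  simp [TL]

/-- the map as a homeomorphism -/
noncomputable def TH (a b : ℕ) : E a × (Fin b → ℝ) ≃ₜ (Fin (a + b) → ℝ) where
  toFun := TL a b
  invFun x := (WithLp.toLp 2 (fun i => x (Fin.castAdd b i)), fun i => x (Fin.natAdd a i))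
  left_inv x := by
    refine Prod.ext ?_ ?_
    · ext i
      exact TL_left x i
    · funext i
      exact TL_right x i
  right_inv x := by
    funext j
    refine Fin.addCases (fun i => ?_) (fun i => ?_) j
    · rw [TL_left]
    · rw [TL_right]
  continuous_toFun := (TL a b).continuous
  continuous_invFun := by
    refine Continuous.prodMk ?_ ?_
    · exact (PiLp.continuous_toLp 2 _).comp (continuous_pi fun i => continuous_apply _)
    · exact continuous_pi fun i => continuous_apply _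

theorem TL_mp (a b : ℕ) : MeasurePreserving (TL a b) := by
  have h1 : MeasurePreserving (Prod.map (@WithLp.ofLp 2 (Fin a → ℝ)) (id : (Fin b → ℝ) → (Fin b → ℝ)))
      (volume : Measure (E a × (Fin b → ℝ))) volume :=
    (PiLp.volume_preserving_ofLp (Fin a)).prod (MeasurePreserving.id _)
  have h2 := volume_measurePreserving_sumPiEquivProdPi_symm (fun _ : Fin a ⊕ Fin b => ℝ)
  have h3 := volume_measurePreserving_piCongrLeft (fun _ : Fin (a + b) => ℝ) (finSumFinEquiv (m := a) (n := b))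
  have h4 := (h3.comp h2).comp h1
  refine h4.congr (TL a b).continuous.measurable (ae_of_all _ fun x => ?_)
  funext j
  refine Fin.addCases (fun i => ?_) (fun i => ?_) j
  · rw [TL_left]
    have e := MeasurableEquiv.piCongrLeft_apply_apply (β := fun _ : Fin (a + b) => ℝ)
      (finSumFinEquiv (m := a) (n := b))
      ((MeasurableEquiv.sumPiEquivProdPi fun _ : Fin a ⊕ Fin b => ℝ).symm
        (Prod.map (@WithLp.ofLp 2 (Fin a → ℝ)) id x)) (Sum.inl i)
    rw [finSumFinEquiv_apply_left] at e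
    exact e
  · rw [TL_right]
    have e := MeasurableEquiv.piCongrLeft_apply_apply (β := fun _ : Fin (a + b) => ℝ)
      (finSumFinEquiv (m := a) (n := b))
      ((MeasurableEquiv.sumPiEquivProdPi fun _ : Fin a ⊕ Fin b => ℝ).symm
        (Prod.map (@WithLp.ofLp 2 (Fin a → ℝ)) id x)) (Sum.inr i)
    rw [finSumFinEquiv_apply_right] at e
    exact e

theorem TL_single_left (i : Fin a) :
    TL a b (EuclideanSpace.single i 1, 0) = Pi.single (Fin.castAdd b i) 1 := by
  funext j
  refine Fin.addCases (fun i' => ?_) (fun i' => ?_) j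
  · rw [TL_left]
    by_cases h : i' = i
    · subst h
      simp
    · have h2 : Fin.castAdd b i' ≠ Fin.castAdd b i := fun h3 => h (Fin.castAdd_injective _ _ h3)
      rw [Pi.single_eq_of_ne h2]
      simp [h]
  · rw [TL_right]
    have h2 : Fin.natAdd a i' ≠ Fin.castAdd b i := by
      intro h3
      have h4 := congrArg Fin.val h3
      simp only [Fin.val_natAdd, Fin.val_castAdd] at h4
      have := i.2
      omega
    rw [Pi.single_eq_of_ne h2]
    rfl

theorem TL_single_right (i : Fin b) :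
    TL a b (0, Pi.single i 1) = Pi.single (Fin.natAdd a i) 1 := by
  funext j
  refine Fin.addCases (fun i' => ?_) (fun i' => ?_) j
  · rw [TL_left]
    have h2 : Fin.castAdd b i' ≠ Fin.natAdd a i := by
      intro h3
      have h4 := congrArg Fin.val h3
      simp only [Fin.val_natAdd, Fin.val_castAdd] at h4
      have := i'.2
      omega
    rw [Pi.single_eq_of_ne h2]
    rfl
  · rw [TL_right]
    by_cases h : i' = i
    · subst h
      simp
    · have h2 : Fin.natAdd a i' ≠ Fin.natAdd a i := fun h3 => h (Fin.natAdd_injective _ _ h3)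
      rw [Pi.single_eq_of_ne h2]
      exact Pi.single_eq_of_ne h 1

theorem gr_TL {F : (Fin (a + b) → ℝ) → ℝ} (hF : ContDiff ℝ 1 F) (x : E a × (Fin b → ℝ)) :
    gr (fun x => F (TL a b x)) x = ∑ j, pd j F (TL a b x) ^ 2 := by
  have h1 : HasFDerivAt (fun x => F (TL a b x)) ((fderiv ℝ F (TL a b x)).comp (TL a b)) x :=
    (hF.differentiable one_ne_zero _).hasFDerivAt.comp x (TL a b).hasFDerivAt
  unfold gr pd
  rw [h1.fderiv, Fin.sum_univ_add]
  simp only [ContinuousLinearMap.comp_apply, TL_single_left, TL_single_right]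

end

section
variable {n m N : ℕ}

/-- **the inequality for real functions in `H¹`** -/
theorem h1_phi (hn : 3 ≤ n) {f : Fin N → (Fin (n + 2 + 1 + m) → ℝ) → ℝ}
    {g : Fin N → Fin (n + 2 + 1 + m) → (Fin (n + 2 + 1 + m) → ℝ) → ℝ} (hf : ∀ i, WGrad (f i) (g i))
    (hgram : ∀ c : Fin N → ℝ, ∫ x, (∑ i, c i * f i x) ^ 2 ≤ ∑ i, c i ^ 2) :
    Phi (pw n m) (fun i x => f i (TL (n + 2 + 1) m x)) ≤
      ENNReal.ofReal ((∫ x, ∑ j, ∑ i, g i j x ^ 2) / KK n m) := by
  obtain ⟨F, hF1, hF2, hF3, hF4, hF5⟩ := H_approx f g hf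
  set T := ∫ x, ∑ j, ∑ i, g i j x ^ 2 with hT
  have hKK := KK_pos n m
  have hmp := TL_mp (n + 2 + 1) m
  have hemb : MeasurableEmbedding (TL (n + 2 + 1) m) := (TH (n + 2 + 1) m).measurableEmbedding
  have hlim : ∀ᵐ x : E (n + 2 + 1) × (Fin m → ℝ), ∀ i,
      Tendsto (fun q => F q i (TL (n + 2 + 1) m x)) atTop (𝓝 (f i (TL (n + 2 + 1) m x))) :=
    hmp.quasiMeasurePreserving.ae hF4
  have hc : ∀ q i, ContDiff ℝ 1 fun x => F q i (TL (n + 2 + 1) m x) := fun q i =>
    (hF1 q i).comp (TL (n + 2 + 1) m).contDiff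
  have hs : ∀ q i, HasCompactSupport fun x => F q i (TL (n + 2 + 1) m x) := fun q i =>
    (hF2 q i).comp_homeomorph (TH (n + 2 + 1) m)
  have hB : ∀ q : ℕ, Phi (pw n m) (fun i x => F q i (TL (n + 2 + 1) m x)) ≤
      ENNReal.ofReal ((T + 1 / ((q : ℝ) + 1)) / KK n m) := by
    intro q
    refine (cc_phi hn (den (by omega)) (hc q) (hs q) ?_).trans (ENNReal.ofReal_le_ofReal ?_)
    · intro c
      rw [hmp.integral_comp hemb (fun y => (∑ i, c i * F q i y) ^ 2)]
      exact (hF3 q c).trans (hgram c)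
    · refine div_le_div_of_nonneg_right (le_trans (le_of_eq ?_) (hF5 q)) hKK.le
      have hi : ∀ i, Integrable fun x => ∑ j, pd j (F q i) x ^ 2 := by
        intro i
        refine integrable_finsetSum _ fun j _ => ?_
        obtain ⟨h1, h2⟩ := pd_basic (hF1 q i) (hF2 q i) j
        have h3 : HasCompactSupport fun x => pd j (F q i) x ^ 2 :=
          h2.comp_left (g := fun t : ℝ => t ^ 2) (by norm_num)
        exact (h1.pow 2).integrable_of_hasCompactSupport h3
      have e : ∀ i, ∫ x, gr (fun x => F q i (TL (n + 2 + 1) m x)) x = ∫ x, ∑ j, pd j (F q i) x ^ 2 := by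
        intro i
        simp only [gr_TL (hF1 q i)]
        exact hmp.integral_comp hemb (fun y => ∑ j, pd j (F q i) y ^ 2)
      rw [Finset.sum_congr rfl fun i _ => e i, ← integral_finsetSum _ fun i _ => hi i]
      refine integral_congr_ae (ae_of_all _ fun x => ?_)
      exact Finset.sum_comm
  refine (phi_fatou (fun q i => (hc q i).continuous.measurable) hlim (pw_pos n m)).trans ?_
  refine (liminf_le_liminf (Eventually.of_forall hB)).trans (le_of_eq ?_)
  apply Tendsto.liminf_eq
  refine (ENNReal.continuous_ofReal.tendsto _).comp ?_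
  have h1 : Tendsto (fun k : ℕ => (T + 1 / ((k : ℝ) + 1)) / KK n m) atTop (𝓝 ((T + 0) / KK n m)) :=
    (tendsto_one_div_add_atTop_nhds_zero_nat.const_add T).div_const _
  rwa [add_zero] at h1

end

end Pool.Agent.K7.H84.RD
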