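import Pool.Agent.Helper717.LT.P_T_all

/-!
The semiclassical inequality on `ℝ × ℝ^m` with the weight `e^(2t)` for the derivatives in the last `m` variables.
-/

set_option autoImplicit false

open MeasureTheory Set Filter Topology Real
open scoped Matrix

namespace Pool.Agent.K7.H84.RD

open LTd

/-- the exponent `m / (D - 1)` of the weight, `D = g + (m + 1) / 2` -/
noncomputable def al (m : ℕ) (g : ℝ) : ℝ := m / (g + ((m + 1 : ℕ) : ℝ) / 2 - 1)

theorem JJ_pos {h g : ℝ} (hh : 0 ≤ h) (hg : 1 < g) : 0 < JJ h g := by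
  unfold JJ
  have h1 : 0 < cc (g + h) := bco_cc_pos (by linarith)
  have h2 : 0 < cc g := bco_cc_pos hg
  have h3 : 0 < Gamma (g + 1 + h) := Real.Gamma_pos_of_pos (by linarith)
  have h4 : 0 < Gamma (g + 1) := Real.Gamma_pos_of_pos (by linarith)
  have h5 : 0 < (4 * π) ^ h := Real.rpow_pos_of_pos (by positivity) _
  positivity

theorem bco_exp {h g a t : ℝ} (hh : 0 ≤ h) (hg : 1 < g) (ha : 0 < a) :
    exp (2 * t) * bco h g (a * exp (-(2 * t))) =
      bco h g a * exp (2 * h / (g + h - 1) * t) := by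
  have hJ := JJ_pos hh hg
  have h1 : 0 < JJ h g * a ^ (g - 1) := mul_pos hJ (Real.rpow_pos_of_pos ha _)
  unfold bco
  rw [Real.mul_rpow ha.le (exp_pos _).le, ← mul_assoc, Real.mul_rpow h1.le (Real.rpow_pos_of_pos (exp_pos _) _).le,
    ← Real.rpow_mul (exp_pos _).le, ← Real.exp_mul, mul_left_comm, ← Real.exp_add]
  congr 2
  have h2 : g + h - 1 ≠ 0 := by
    have : 0 < g + h - 1 := by linarith
    exact this.ne'
  field_simp
  ring

theorem T_weight {m n : ℕ} {g a : ℝ} (hg : 3 / 2 ≤ g) (ha : 0 < a)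
    (w : Fin n → (Fin (m + 1) → ℝ) → ℝ) (l : Fin n → ℝ) (hw : ∀ i, ContDiff ℝ 1 (w i))
    (hc : ∀ i, HasCompactSupport (w i)) (hgram : ∀ i j, ∫ x, w i x * w j x = if i = j then l i else 0) :
    bco (((m + 1 : ℕ) : ℝ) / 2) g a *
        ∫ x : Fin (m + 1) → ℝ, exp (al m g * x 0) * (∑ i, w i x ^ 2) ^ pp (g + ((m + 1 : ℕ) : ℝ) / 2) ≤
      (∫ x : Fin (m + 1) → ℝ, ((∑ i, pd 0 (w i) x ^ 2) + exp (2 * x 0) * ∑ k : Fin m, ∑ i, pd k.succ (w i) x ^ 2)) +
        a * ∑ i, l i ^ pp g := by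
  have hT : Tm m (g + 1 / 2) := T_all m _ (by linarith)
  have hwc : ∀ i, Continuous (w i) := fun i => (hw i).continuous
  have hm0 : (0 : ℝ) ≤ (m : ℝ) := Nat.cast_nonneg m
  have hsys := slice_sys w hw hc
  have hcw2 : ∀ i j, HasCompactSupport (fun z => w i z * w j z) := fun i j =>
    (hc i).mul_right (f' := w j)
  have hTot : Tot (RS w) = Matrix.diagonal l := by
    ext i j
    have h1 : ∫ z, w i z * w j z = ∫ x : ℝ, ∫ y : Fin m → ℝ,
        w i (Fin.cons x y : Fin (m + 1) → ℝ) * w j (Fin.cons x y : Fin (m + 1) → ℝ) :=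
      slice_int (f := fun z => w i z * w j z) ((hwc i).mul (hwc j)) (hcw2 i j)
    rw [hgram i j] at h1
    rw [Matrix.diagonal_apply]
    exact h1.symm
  obtain ⟨G, hGc, hGs, hG1, hG2⟩ := blockC hsys l hTot hg ha
  have ha' : 0 < bco (1 / 2) g a := bco_pos (by norm_num) (by linarith) ha
  have hpd : ∀ (k : Fin (m + 1)) (i : Fin n), Continuous (pd k (w i)) ∧
      HasCompactSupport (pd k (w i)) := fun k i => pd_basic (hw i) (hc i) k
  have hsqc : ∀ (k : Fin (m + 1)) (i : Fin n), Continuous (fun z => pd k (w i) z ^ 2) :=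
    fun k i => (hpd k i).1.pow 2
  have hsqs : ∀ (k : Fin (m + 1)) (i : Fin n), HasCompactSupport (fun z => pd k (w i) z ^ 2) :=
    fun k i => (hpd k i).2.comp_left (g := fun t : ℝ => t ^ 2) (by norm_num)
  have hsqi : ∀ (k : Fin (m + 1)) (i : Fin n), Integrable (fun z => pd k (w i) z ^ 2) :=
    fun k i => (hsqc k i).integrable_of_hasCompactSupport (hsqs k i)
  have hce : ∀ c : ℝ, Continuous (fun z : Fin (m + 1) → ℝ => exp (c * z 0)) := fun c =>
    Real.continuous_exp.comp (continuous_const.mul (continuous_apply 0))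
  -- the exponent
  have hexp : g + 1 / 2 + (m : ℝ) / 2 = g + ((m + 1 : ℕ) : ℝ) / 2 := by
    push_cast
    ring
  have hpp : 0 < pp (g + 1 / 2 + m / 2) := by
    unfold pp
    apply div_pos <;> linarith
  rw [← hexp]
  -- the density
  have hρc0 : Continuous (fun z => (∑ i, w i z ^ 2) ^ pp (g + 1 / 2 + m / 2)) :=
    (continuous_finsetSum _ fun i _ => (hwc i).pow 2).rpow_const (fun _ => Or.inr hpp.le)
  have hρs0 : HasCompactSupport (fun z => (∑ i, w i z ^ 2) ^ pp (g + 1 / 2 + m / 2)) := by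
    refine HasCompactSupport.intro (isCompact_iUnion (fun i => hc i)) (fun z hz => ?_)
    have h0 : ∀ i, w i z = 0 := fun i =>
      image_eq_zero_of_notMem_tsupport (fun h => hz (Set.mem_iUnion.2 ⟨i, h⟩))
    have h00 : ∑ i, w i z ^ 2 = 0 := by simp [h0]
    show (∑ i, w i z ^ 2) ^ pp (g + 1 / 2 + m / 2) = 0
    rw [h00, Real.zero_rpow hpp.ne']
  have hρc : Continuous (fun z : Fin (m + 1) → ℝ =>
      exp (al m g * z 0) * (∑ i, w i z ^ 2) ^ pp (g + 1 / 2 + m / 2)) := (hce _).mul hρc0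
  have hρs : HasCompactSupport (fun z : Fin (m + 1) → ℝ =>
      exp (al m g * z 0) * (∑ i, w i z ^ 2) ^ pp (g + 1 / 2 + m / 2)) := hρs0.mul_left
  -- the gradient part
  have hDc0 : Continuous (fun z => ∑ k : Fin m, ∑ i, pd k.succ (w i) z ^ 2) :=
    continuous_finsetSum _ fun k _ => continuous_finsetSum _ fun i _ => hsqc k.succ i
  have hDs0 : HasCompactSupport (fun z => ∑ k : Fin m, ∑ i, pd k.succ (w i) z ^ 2) := by
    refine HasCompactSupport.intro (isCompact_iUnion (fun k : Fin m =>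
      isCompact_iUnion (fun i : Fin n => (hsqs k.succ i)))) (fun z hz => ?_)
    have h0 : ∀ (k : Fin m) (i : Fin n), pd k.succ (w i) z ^ 2 = 0 := fun k i =>
      image_eq_zero_of_notMem_tsupport (f := fun z => pd k.succ (w i) z ^ 2)
        (fun h => hz (Set.mem_iUnion.2 ⟨k, Set.mem_iUnion.2 ⟨i, h⟩⟩))
    simp only [h0]
    simp
  have hDc : Continuous (fun z : Fin (m + 1) → ℝ =>
      exp (2 * z 0) * ∑ k : Fin m, ∑ i, pd k.succ (w i) z ^ 2) := (hce 2).mul hDc0
  have hDs : HasCompactSupport (fun z : Fin (m + 1) → ℝ =>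
      exp (2 * z 0) * ∑ k : Fin m, ∑ i, pd k.succ (w i) z ^ 2) := hDs0.mul_left
  -- pointwise inequality
  have hal : 2 * ((m : ℝ) / 2) / (g + 1 / 2 + (m : ℝ) / 2 - 1) = al m g := by
    unfold al
    rw [hexp]
    congr 1
    ring
  have hpoint : ∀ x : ℝ, bco (((m + 1 : ℕ) : ℝ) / 2) g a * (exp (al m g * x) *
      (∫ y : Fin m → ℝ, (∑ i, w i (Fin.cons x y : Fin (m + 1) → ℝ) ^ 2) ^ pp (g + 1 / 2 + m / 2))) ≤
      exp (2 * x) * (∫ y : Fin m → ℝ, ∑ k : Fin m, ∑ i, pd k.succ (w i) (Fin.cons x y : Fin (m + 1) → ℝ) ^ 2) +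
        G x := by
    intro x
    obtain ⟨V, r, hV, hV', hr, hR⟩ := specP (sys_psd hsys x)
    have ha2 : 0 < bco (1 / 2) g a * exp (-(2 * x)) := mul_pos ha' (exp_pos _)
    have h1 := T_slice ha2 hT (fun i (y : Fin m → ℝ) => w i (Fin.cons x y : Fin (m + 1) → ℝ))
      (fun i => (slice_pd (hw i) x).1) (fun i => (slice_cont (hwc i) (hc i)).2.2.1 x) V r hV hV' hR
    have h2 := hG1 x V r hV hV' hr hR
    have h3 : ∀ (k : Fin m) (i : Fin n) (y : Fin m → ℝ),
        pd k (fun y : Fin m → ℝ => w i (Fin.cons x y : Fin (m + 1) → ℝ)) y =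
          pd k.succ (w i) (Fin.cons x y : Fin (m + 1) → ℝ) := fun k i y =>
      (slice_pd (hw i) x).2 k y
    simp only [h3] at h1
    have h4 := bco_exp (h := (m : ℝ) / 2) (g := g + 1 / 2) (a := bco (1 / 2) g a) (t := x) (by positivity)
      (by linarith) ha'
    rw [hal] at h4
    rw [bco_succ m hg ha] at h4
    have h5 := mul_le_mul_of_nonneg_left h1 (exp_pos (2 * x)).le
    rw [← mul_assoc, h4, mul_add, ← mul_assoc, ← mul_assoc, mul_comm (exp (2 * x)) (bco (1 / 2) g a),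
      mul_assoc (bco (1 / 2) g a), ← Real.exp_add, add_neg_cancel, Real.exp_zero, mul_one] at h5
    rw [← mul_assoc]
    linarith
  -- integrate
  have hcl : ∀ (c : ℝ) (f : (Fin (m + 1) → ℝ) → ℝ) (x : ℝ),
      ∫ y : Fin m → ℝ, exp (c * (Fin.cons x y : Fin (m + 1) → ℝ) 0) * f (Fin.cons x y : Fin (m + 1) → ℝ) =
      exp (c * x) * ∫ y : Fin m → ℝ, f (Fin.cons x y : Fin (m + 1) → ℝ) := by
    intro c f x
    simp only [Fin.cons_zero]
    rw [integral_const_mul]
  have hint := integral_mono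
    ((ts_slice_integrable hρc hρs).const_mul (bco (((m + 1 : ℕ) : ℝ) / 2) g a))
    ((ts_slice_integrable hDc hDs).add (hGc.integrable_of_hasCompactSupport hGs)) (fun x => by
      have h := hpoint x
      simp only [Pi.add_apply]
      rw [hcl _ (fun z => (∑ i, w i z ^ 2) ^ pp (g + 1 / 2 + m / 2)),
        hcl _ (fun z => ∑ k : Fin m, ∑ i, pd k.succ (w i) z ^ 2)]
      exact h)
  rw [integral_const_mul, ← slice_int hρc hρs] at hint
  have hadd : ∫ x : ℝ, ((fun x : ℝ => ∫ y : Fin m → ℝ,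
      exp (2 * (Fin.cons x y : Fin (m + 1) → ℝ) 0) *
      ∑ k : Fin m, ∑ i, pd k.succ (w i) (Fin.cons x y : Fin (m + 1) → ℝ) ^ 2) + G) x =
      (∫ z : Fin (m + 1) → ℝ, exp (2 * z 0) * ∑ k : Fin m, ∑ i, pd k.succ (w i) z ^ 2) + ∫ x, G x := by
    rw [slice_int hDc hDs]
    exact integral_add (ts_slice_integrable hDc hDs) (hGc.integrable_of_hasCompactSupport hGs)
  have htr : ∫ x, (QS w x).trace = ∫ z, ∑ i, pd 0 (w i) z ^ 2 := by
    rw [integral_finsetSum _ (fun i _ => hsqi 0 i)]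
    have h4 : ∀ x, (QS w x).trace = ∑ i, ∫ y : Fin m → ℝ,
        pd 0 (w i) (Fin.cons x y : Fin (m + 1) → ℝ) ^ 2 := by
      intro x
      unfold Matrix.trace
      refine Finset.sum_congr rfl fun i _ => ?_
      simp only [QS, Matrix.diag_apply, Matrix.of_apply, ← sq]
    simp_rw [h4]
    rw [integral_finsetSum _ (fun i _ => ts_slice_integrable (hsqc 0 i) (hsqs 0 i))]
    refine Finset.sum_congr rfl fun i _ => ?_
    exact (slice_int (hsqc 0 i) (hsqs 0 i)).symm
  have hsplit : ∫ z : Fin (m + 1) → ℝ, ((∑ i, pd 0 (w i) z ^ 2) + exp (2 * z 0) *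
      ∑ k : Fin m, ∑ i, pd k.succ (w i) z ^ 2) =
      (∫ z, ∑ i, pd 0 (w i) z ^ 2) + ∫ z : Fin (m + 1) → ℝ, exp (2 * z 0) *
        ∑ k : Fin m, ∑ i, pd k.succ (w i) z ^ 2 :=
    integral_add (integrable_finsetSum _ fun i _ => hsqi 0 i)
      (hDc.integrable_of_hasCompactSupport hDs)
  rw [hsplit]
  rw [htr] at hG2
  have hint' := hint.trans (le_of_eq hadd)
  linarith

end Pool.Agent.K7.H84.RD
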